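import Pool.Agent.Helper19.LPF.Defs

/-! # LPF: simple facts on `Z n` -/

set_option autoImplicit false
open Finset

namespace Pool.Agent.Helper19.LPF

theorem le_Z {n p : ℕ} : p ≤ Z n ↔ p ^ 20 ≤ n ^ 21 := by
  unfold Z
  rw [Nat.le_floor_iff (by positivity)]
  have h1 : ((n : ℝ) ^ (21 / 20 : ℝ)) ^ 20 = (n : ℝ) ^ 21 := by
    rw [← Real.rpow_natCast, ← Real.rpow_mul (Nat.cast_nonneg n), ← Real.rpow_natCast]
    norm_num
  constructor
  · intro h
    have h2 : (p : ℝ) ^ 20 ≤ ((n : ℝ) ^ (21 / 20 : ℝ)) ^ 20 :=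
      pow_le_pow_left₀ (Nat.cast_nonneg p) h 20
    rw [h1] at h2
    exact_mod_cast h2
  · intro h
    have h2 : (p : ℝ) ^ 20 ≤ ((n : ℝ) ^ (21 / 20 : ℝ)) ^ 20 := by
      rw [h1]; exact_mod_cast h
    exact le_of_pow_le_pow_left₀ (by norm_num) (by positivity) h2

theorem lt_pow_iff {n p : ℕ} : n ^ 21 < p ^ 20 ↔ Z n < p := by
  rw [← not_le, ← le_Z, not_le]

theorem Z_le (n : ℕ) : (Z n : ℝ) ≤ (n : ℝ) ^ (21 / 20 : ℝ) := Nat.floor_le (by positivity)

theorem n_le_Z (n : ℕ) : n ≤ Z n := by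
  rw [le_Z]
  rcases Nat.eq_zero_or_pos n with rfl | hn
  · norm_num
  · exact Nat.pow_le_pow_right hn (by norm_num)

theorem log_Z_le {n : ℕ} (hn : 1 ≤ n) : Real.log (Z n) ≤ 21 / 20 * Real.log n := by
  have h1 : (1 : ℝ) ≤ n := by exact_mod_cast hn
  have h2 : (0 : ℝ) < Z n := by
    have := n_le_Z n
    exact_mod_cast (by omega : 0 < Z n)
  have := Real.log_le_log h2 (Z_le n)
  rwa [Real.log_rpow (by linarith)] at this

theorem totient_lt {n : ℕ} (hn : 2 ≤ n) : n.totient < n := Nat.totient_lt n (by omega)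

/-- elements of the window are at most `n² + n` -/
theorem W_le {n m : ℕ} (hm : m ∈ W n) : n ^ 2 < m ∧ m ≤ n ^ 2 + n.totient ∧ m ≤ n ^ 2 + n := by
  unfold W at hm
  rw [mem_Ioc] at hm
  exact ⟨hm.1, hm.2, hm.2.trans (Nat.add_le_add_left (Nat.totient_le n) _)⟩

/-- an integer larger than `h` divides at most one element of the window -/
theorem uniq_of_dvd {n q m m' : ℕ} (hq : n.totient < q) (hm : m ∈ W n) (hm' : m' ∈ W n)
    (h : q ∣ m) (h' : q ∣ m') : m = m' := by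
  by_contra hne
  wlog hlt : m < m' generalizing m m' with H
  · exact H hm' hm h' h (Ne.symm hne) (by omega)
  have h1 : q ∣ m' - m := Nat.dvd_sub h' h
  have h2 := Nat.le_of_dvd (by omega) h1
  have h3 := W_le hm
  have h4 := W_le hm'
  omega

end Pool.Agent.Helper19.LPF
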