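import Pool.Agent.Helper19.LPF.PsiLong
import Pool.Agent.Helper19.LPF.ZBasic

/-!
# LPF-11: counting divisors in `(n, Z]` of the elements of the window

Let `h = φ(n)`. For `d ≥ 1` the number of multiples of `d` in `W n = (n ^ 2, n ^ 2 + h]` is
`⌊(n ^ 2 + h) / d⌋ - ⌊n ^ 2 / d⌋ = h / d - psi1 ((n ^ 2 + h) / d) + psi1 (n ^ 2 / d)` (`psi1 t = {t} - 1/2`).
Put `d = ν e`: `d ∈ (n, Z]`, `ν ∣ d` iff `e ∈ (a, b]`, `a = ⌊n / ν⌋`, `b = ⌊Z / ν⌋` (natural division;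
`b = ⌊n ^ (21/20) / ν⌋` too). So
  `cnt n ν = (h / ν) Σ_{e ∈ Ioc a b} 1 / e - Σ_{e ∈ Ioc a b} psi1 (((n ^ 2 + h) / ν) / e)
      + Σ_{e ∈ Ioc a b} psi1 ((n ^ 2 / ν) / e)`.
* Main term. `log ((b+1)/(a+1)) ≤ Σ_{a < e ≤ b} 1/e ≤ log (b / a)` (`1 ≤ a ≤ b`). `b / a ≤ Z / (n - ν) ≤
  n ^ (21/20) / (n - ν)` (as `ν a > n - ν`), so `log (b/a) ≤ L/20 + log (n / (n - ν)) ≤ L/20 + ν / (n - ν) ≤
  L/20 + 2 ν / n` (`2 ν ≤ n`); and `(b + 1) / (a + 1) ≥ n ^ (21/20) / (n + ν)`, so the lower bound is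
  `L/20 - log (1 + ν/n) ≥ L/20 - ν/n`. Multiply by `h / ν ≤ n / ν`: error `≤ 2`.
* `psi_long` with `α = n ^ 2 / ν` and `α = (n ^ 2 + h) / ν`: both `≤ (n ^ 2 + n) / ν`, both `≥ n ^ 2 / ν`;
  `b ≤ 2 ^ J a` because `ν b ≤ Z ≤ 2 ^ J (n - ν) ≤ 2 ^ J (ν a)` (strictness not needed).
  `√(b ^ 3 / α) ≤ √((n ^ (21/20) / ν) ^ 3 * ν / n ^ 2) = n ^ (23/40) / ν`.
  Total error `2 * 10.3 J ((n ^ 2 + n) / ν) ^ (1/3) + 2 * 31.1 n ^ (23/40) / ν`.
-/

set_option autoImplicit false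
open Finset

namespace Pool.Agent.Helper19.LPF

open Pool.Agent.Helper10.QRH

namespace Cnt

theorem card_dvd (A h d : ℕ) (hd : 1 ≤ d) :
    (((Ioc A (A + h)).filter (fun m => d ∣ m)).card : ℝ) =
      (h : ℝ) / d - psi1 (((A : ℝ) + h) / d) + psi1 ((A : ℝ) / d) := by
  have h1 : ((Ioc A (A + h)).filter (fun m => d ∣ m)).card + A / d = (A + h) / d := by
    have e1 := Nat.Ioc_filter_dvd_card_eq_div (A + h) d
    have e2 := Nat.Ioc_filter_dvd_card_eq_div A d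
    rw [← e1, ← e2, ← card_union_of_disjoint]
    · congr 1
      ext m
      simp only [mem_union, mem_filter, mem_Ioc]
      constructor
      · rintro (⟨⟨a1, a2⟩, a3⟩ | ⟨⟨a1, a2⟩, a3⟩)
        · exact ⟨⟨by omega, a2⟩, a3⟩
        · exact ⟨⟨a1, by omega⟩, a3⟩
      · rintro ⟨⟨a1, a2⟩, a3⟩
        by_cases hm : m ≤ A
        · exact Or.inr ⟨⟨a1, hm⟩, a3⟩
        · exact Or.inl ⟨⟨by omega, a2⟩, a3⟩
    · rw [disjoint_left]
      intro m hm hm'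
      simp only [mem_filter, mem_Ioc] at hm hm'
      omega
  have h2 : ∀ B : ℕ, ((B / d : ℕ) : ℝ) = (B : ℝ) / d - psi1 ((B : ℝ) / d) - 1 / 2 := by
    intro B
    unfold psi1
    have e3 : ((B / d : ℕ) : ℝ) = (⌊(B : ℝ) / d⌋ : ℝ) := by
      have := Int.natCast_floor_eq_floor (a := (B : ℝ) / d) (by positivity)
      rw [← this, Nat.floor_div_eq_div]
      exact (Int.cast_natCast _).symm
    rw [e3]
    have e4 := Int.floor_add_fract ((B : ℝ) / d)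
    linarith
  have h3 : (((Ioc A (A + h)).filter (fun m => d ∣ m)).card : ℝ) + ((A / d : ℕ) : ℝ) =
      (((A + h) / d : ℕ) : ℝ) := by exact_mod_cast h1
  rw [h2, h2] at h3
  push_cast at h3
  have hd0 : (d : ℝ) ≠ 0 := by
    have : (1 : ℝ) ≤ d := by exact_mod_cast hd
    linarith
  have h4 : ((A : ℝ) + h) / d = (A : ℝ) / d + (h : ℝ) / d := by field_simp
  linarith [h3, h4]

theorem sum_inv_le (a b : ℕ) (ha : 1 ≤ a) (hab : a ≤ b) :
    ∑ e ∈ Ioc a b, 1 / (e : ℝ) ≤ Real.log b - Real.log a := by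
  induction b, hab using Nat.le_induction with
  | base => simp
  | succ b hb ih =>
    have e0 : Ioc a (b + 1) = insert (b + 1) (Ioc a b) := by
      ext m; simp only [mem_Ioc, mem_insert]; omega
    rw [e0, sum_insert (by simp)]
    have hb0 : (0 : ℝ) < b := by exact_mod_cast (by omega : 0 < b)
    have h1 := Real.log_le_sub_one_of_pos (x := (b : ℝ) / (b + 1)) (by positivity)
    rw [Real.log_div hb0.ne' (by positivity)] at h1
    have h2 : (b : ℝ) / (b + 1) - 1 = - (1 / ((b : ℝ) + 1)) := by field_simp; ring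
    rw [h2] at h1
    push_cast
    linarith

theorem le_sum_inv (a b : ℕ) (hab : a ≤ b) :
    Real.log ((b : ℝ) + 1) - Real.log ((a : ℝ) + 1) ≤ ∑ e ∈ Ioc a b, 1 / (e : ℝ) := by
  induction b, hab using Nat.le_induction with
  | base => simp
  | succ b hb ih =>
    have e0 : Ioc a (b + 1) = insert (b + 1) (Ioc a b) := by
      ext m; simp only [mem_Ioc, mem_insert]; omega
    rw [e0, sum_insert (by simp)]
    have h1 := Real.log_le_sub_one_of_pos (x := ((b : ℝ) + 1 + 1) / (b + 1)) (by positivity)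
    rw [Real.log_div (by positivity) (by positivity)] at h1
    have h2 : ((b : ℝ) + 1 + 1) / (b + 1) - 1 = 1 / ((b : ℝ) + 1) := by field_simp; ring
    rw [h2] at h1
    push_cast
    linarith

theorem reindex (n ν Zn : ℕ) (hν : 1 ≤ ν) (F : ℕ → ℕ) :
    ∑ d ∈ (Ioc n Zn).filter (fun d => ν ∣ d), F d = ∑ e ∈ Ioc (n / ν) (Zn / ν), F (ν * e) := by
  symm
  apply sum_bij (fun e _ => ν * e)
  · intro e he
    rw [mem_Ioc] at he
    simp only [mem_filter, mem_Ioc]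
    refine ⟨⟨?_, ?_⟩, Dvd.intro _ rfl⟩
    · have := (Nat.div_lt_iff_lt_mul (by omega : 0 < ν)).1 he.1
      rwa [Nat.mul_comm] at this
    · have := (Nat.le_div_iff_mul_le (by omega : 0 < ν)).1 he.2
      rwa [Nat.mul_comm] at this
  · intro e _ e' _ hee
    exact Nat.eq_of_mul_eq_mul_left (by omega : 0 < ν) hee
  · intro d hd
    simp only [mem_filter, mem_Ioc] at hd
    obtain ⟨e, he⟩ := hd.2
    refine ⟨e, ?_, he.symm⟩
    rw [mem_Ioc]
    constructor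
    · rw [Nat.div_lt_iff_lt_mul (by omega : 0 < ν), Nat.mul_comm, ← he]; exact hd.1.1
    · rw [Nat.le_div_iff_mul_le (by omega : 0 < ν), Nat.mul_comm, ← he]; exact hd.1.2
  · intro e _; rfl

theorem cnt_eq (n ν : ℕ) (hν : 1 ≤ ν) (hn : 1 ≤ n) :
    (cnt n ν : ℝ) = (n.totient : ℝ) / ν * ∑ e ∈ Ioc (n / ν) (Z n / ν), 1 / (e : ℝ)
      - ∑ e ∈ Ioc (n / ν) (Z n / ν), psi1 ((((n : ℝ) ^ 2 + n.totient) / ν) / e)
      + ∑ e ∈ Ioc (n / ν) (Z n / ν), psi1 (((n : ℝ) ^ 2 / ν) / e) := by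
  unfold cnt W
  rw [reindex n ν (Z n) hν (fun d => ((Ioc (n ^ 2) (n ^ 2 + n.totient)).filter (fun m => d ∣ m)).card)]
  push_cast
  rw [mul_sum, ← sum_sub_distrib, ← sum_add_distrib]
  apply sum_congr rfl
  intro e he
  rw [mem_Ioc] at he
  have he1 : 1 ≤ e := Nat.lt_of_le_of_lt (Nat.zero_le _) he.1
  have hne : 1 ≤ ν * e := Nat.one_le_iff_ne_zero.2 (by positivity)
  rw [card_dvd (n ^ 2) n.totient (ν * e) hne]
  push_cast
  have hν0 : (ν : ℝ) ≠ 0 := by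
    have : (1 : ℝ) ≤ ν := by exact_mod_cast hν
    linarith
  have he0 : (e : ℝ) ≠ 0 := by
    have : (1 : ℝ) ≤ e := by exact_mod_cast he1
    linarith
  rw [← div_div ((n : ℝ) ^ 2 + n.totient), ← div_div ((n : ℝ) ^ 2)]
  congr 2
  field_simp

theorem sqrt_le (n ν b : ℕ) (α : ℝ) (hν : 1 ≤ ν) (hn : 1 ≤ n) (hb : b ≤ Z n / ν)
    (hα : (n : ℝ) ^ 2 / ν ≤ α) :
    √((b : ℝ) ^ 3 / α) ≤ (n : ℝ) ^ (23 / 40 : ℝ) / ν := by
  have hn0 : (0 : ℝ) < n := by exact_mod_cast (by omega : 0 < n)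
  have hν0 : (0 : ℝ) < ν := by exact_mod_cast (by omega : 0 < ν)
  have h1 : (b : ℝ) ≤ (n : ℝ) ^ (21 / 20 : ℝ) / ν := by
    rw [le_div_iff₀ hν0]
    have h2 : b * ν ≤ Z n := (Nat.le_div_iff_mul_le (by omega : 0 < ν)).1 hb
    have h3 : (b : ℝ) * ν ≤ Z n := by exact_mod_cast h2
    exact h3.trans (Z_le n)
  have h4 : (b : ℝ) ^ 3 / α ≤ ((n : ℝ) ^ (21 / 20 : ℝ) / ν) ^ 3 / ((n : ℝ) ^ 2 / ν) := by
    apply div_le_div₀ (by positivity) (pow_le_pow_left₀ (Nat.cast_nonneg b) h1 3) (by positivity) hα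
  have h5 : ((n : ℝ) ^ (21 / 20 : ℝ) / ν) ^ 3 / ((n : ℝ) ^ 2 / ν) =
      ((n : ℝ) ^ (23 / 40 : ℝ) / ν) ^ 2 := by
    have e1 : ((n : ℝ) ^ (21 / 20 : ℝ)) ^ 3 = (n : ℝ) ^ 2 * ((n : ℝ) ^ (23 / 40 : ℝ)) ^ 2 := by
      rw [← Real.rpow_natCast ((n : ℝ) ^ (21 / 20 : ℝ)) 3, ← Real.rpow_mul hn0.le,
        ← Real.rpow_natCast ((n : ℝ) ^ (23 / 40 : ℝ)) 2, ← Real.rpow_mul hn0.le,
        ← Real.rpow_natCast (n : ℝ) 2, ← Real.rpow_add hn0]
      norm_num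
    rw [div_pow, e1]
    field_simp
  rw [h5] at h4
  calc √((b : ℝ) ^ 3 / α) ≤ √(((n : ℝ) ^ (23 / 40 : ℝ) / ν) ^ 2) := Real.sqrt_le_sqrt h4
    _ = (n : ℝ) ^ (23 / 40 : ℝ) / ν := Real.sqrt_sq (by positivity)

theorem main_term (n ν : ℕ) (hν : 1 ≤ ν) (hνn : 2 * ν ≤ n) :
    |(n.totient : ℝ) / ν * ∑ e ∈ Ioc (n / ν) (Z n / ν), 1 / (e : ℝ)
      - (n.totient : ℝ) / ν * (Real.log n / 20)| ≤ 2 := by
  have hn : 2 ≤ n := by omega
  have hn0 : (0 : ℝ) < n := by exact_mod_cast (by omega : 0 < n)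
  have hν0 : (0 : ℝ) < ν := by exact_mod_cast (by omega : 0 < ν)
  have hνn' : 2 * (ν : ℝ) ≤ n := by exact_mod_cast hνn
  have hnv : (0 : ℝ) < n - ν := by linarith
  have ha : 1 ≤ n / ν := (Nat.le_div_iff_mul_le (by omega : 0 < ν)).2 (by omega)
  have hab : n / ν ≤ Z n / ν := Nat.div_le_div_right (n_le_Z n)
  have hb : 1 ≤ Z n / ν := ha.trans hab
  set a := n / ν with ha'
  set b := Z n / ν with hb'
  have hνa : (n : ℝ) - ν < ν * a := by
    have h1 : n < ν * (n / ν + 1) := by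
      have := Nat.lt_mul_div_succ n (by omega : 0 < ν)
      simpa using this
    have h2 : (n : ℝ) < ν * ((a : ℝ) + 1) := by exact_mod_cast h1
    linarith
  have hνa2 : (ν : ℝ) * a ≤ n := by
    have h1 : ν * (n / ν) ≤ n := Nat.mul_div_le n ν
    exact_mod_cast h1
  have hνb : (ν : ℝ) * b ≤ (n : ℝ) ^ (21 / 20 : ℝ) := by
    have h1 : ν * (Z n / ν) ≤ Z n := Nat.mul_div_le (Z n) ν
    have h2 : (ν : ℝ) * b ≤ Z n := by exact_mod_cast h1
    exact h2.trans (Z_le n)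
  have hνb2 : (n : ℝ) ^ (21 / 20 : ℝ) < ν * ((b : ℝ) + 1) := by
    have h1 : Z n < ν * (Z n / ν + 1) := by
      have := Nat.lt_mul_div_succ (Z n) (by omega : 0 < ν)
      simpa using this
    have h2 : (Z n : ℝ) + 1 ≤ ν * ((b : ℝ) + 1) := by exact_mod_cast h1
    have h3 : (n : ℝ) ^ (21 / 20 : ℝ) < (Z n : ℝ) + 1 := by
      unfold Z
      exact Nat.lt_floor_add_one _
    linarith
  have hlogy : Real.log ((n : ℝ) ^ (21 / 20 : ℝ)) = 21 / 20 * Real.log n := Real.log_rpow hn0 _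
  have ha0 : (0 : ℝ) < a := by exact_mod_cast (by omega : 0 < a)
  have hb0 : (0 : ℝ) < b := by exact_mod_cast (by omega : 0 < b)
  -- upper bound
  have hup : ∑ e ∈ Ioc a b, 1 / (e : ℝ) ≤ Real.log n / 20 + 2 * ν / n := by
    refine (sum_inv_le a b ha hab).trans ?_
    have h1 : Real.log ν + Real.log b ≤ 21 / 20 * Real.log n := by
      rw [← hlogy, ← Real.log_mul hν0.ne' hb0.ne']
      exact Real.log_le_log (by positivity) hνb
    have h2 : Real.log ((n : ℝ) - ν) ≤ Real.log ν + Real.log a := by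
      rw [← Real.log_mul hν0.ne' ha0.ne']
      exact Real.log_le_log hnv hνa.le
    have h3 : Real.log n - Real.log ((n : ℝ) - ν) ≤ 2 * ν / n := by
      rw [← Real.log_div hn0.ne' hnv.ne']
      refine (Real.log_le_sub_one_of_pos (by positivity)).trans ?_
      rw [div_sub_one hnv.ne', div_le_div_iff₀ hnv hn0]
      nlinarith
    linarith
  have hlo : Real.log n / 20 - 1 * ν / n ≤ ∑ e ∈ Ioc a b, 1 / (e : ℝ) := by
    refine le_trans ?_ (le_sum_inv a b hab)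
    have h1 : 21 / 20 * Real.log n ≤ Real.log ν + Real.log ((b : ℝ) + 1) := by
      rw [← hlogy, ← Real.log_mul hν0.ne' (by positivity)]
      exact Real.log_le_log (by positivity) hνb2.le
    have h2 : Real.log ν + Real.log ((a : ℝ) + 1) ≤ Real.log ((n : ℝ) + ν) := by
      rw [← Real.log_mul hν0.ne' (by positivity)]
      apply Real.log_le_log (by positivity)
      linarith
    have h3 : Real.log ((n : ℝ) + ν) - Real.log n ≤ 1 * ν / n := by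
      rw [← Real.log_div (by positivity) hn0.ne']
      refine (Real.log_le_sub_one_of_pos (by positivity)).trans ?_
      apply le_of_eq
      field_simp
      ring
    linarith
  have hh : (n.totient : ℝ) ≤ n := by exact_mod_cast Nat.totient_le n
  have hc : 0 ≤ (n.totient : ℝ) / ν := by positivity
  have hc2 : (n.totient : ℝ) / ν * (ν / n) ≤ 1 := by
    rw [div_mul_div_comm, div_le_one (by positivity)]
    nlinarith
  rw [← mul_sub, abs_le]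
  constructor
  · have h1 : -(1 * (ν : ℝ) / n) ≤ ∑ e ∈ Ioc a b, 1 / (e : ℝ) - Real.log n / 20 := by linarith
    have h2 := mul_le_mul_of_nonneg_left h1 hc
    have h3 : (n.totient : ℝ) / ν * -(1 * (ν : ℝ) / n) = -((n.totient : ℝ) / ν * (ν / n)) := by ring
    linarith
  · have h1 : ∑ e ∈ Ioc a b, 1 / (e : ℝ) - Real.log n / 20 ≤ 2 * (ν : ℝ) / n := by linarith
    have h2 := mul_le_mul_of_nonneg_left h1 hc
    have h3 : (n.totient : ℝ) / ν * (2 * (ν : ℝ) / n) = 2 * ((n.totient : ℝ) / ν * (ν / n)) := by ring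
    linarith

end Cnt

theorem cnt_bound (n ν J : ℕ) (hν : 1 ≤ ν) (hνn : 2 * ν ≤ n) (hJ : Z n ≤ 2 ^ J * (n - ν)) :
    |(cnt n ν : ℝ) - (n.totient : ℝ) / ν * (Real.log n / 20)| ≤
      20.6 * (J : ℝ) * (((n : ℝ) ^ 2 + n) / ν) ^ (1 / 3 : ℝ)
        + 62.2 * (n : ℝ) ^ (23 / 40 : ℝ) / ν + 2 := by
  have hn : 2 ≤ n := by omega
  have hn0 : (0 : ℝ) < n := by exact_mod_cast (by omega : 0 < n)
  have hν0 : (0 : ℝ) < ν := by exact_mod_cast (by omega : 0 < ν)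
  have ha : 1 ≤ n / ν := (Nat.le_div_iff_mul_le (by omega : 0 < ν)).2 (by omega)
  have hab : n / ν ≤ Z n / ν := Nat.div_le_div_right (n_le_Z n)
  have hbJ : Z n / ν ≤ 2 ^ J * (n / ν) := by
    have h1 : ν * (Z n / ν) ≤ Z n := Nat.mul_div_le (Z n) ν
    have h2 : n < ν * (n / ν + 1) := by
      have := Nat.lt_mul_div_succ n (by omega : 0 < ν)
      simpa using this
    have h3 : n - ν ≤ ν * (n / ν) := by
      rw [Nat.mul_add, Nat.mul_one] at h2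
      omega
    have h4 : ν * (Z n / ν) ≤ ν * (2 ^ J * (n / ν)) := by
      calc ν * (Z n / ν) ≤ Z n := h1
        _ ≤ 2 ^ J * (n - ν) := hJ
        _ ≤ 2 ^ J * (ν * (n / ν)) := Nat.mul_le_mul_left _ h3
        _ = ν * (2 ^ J * (n / ν)) := by ring
    exact Nat.le_of_mul_le_mul_left h4 (by omega)
  have hh : (n.totient : ℝ) ≤ n := by exact_mod_cast Nat.totient_le n
  have hht : (0 : ℝ) ≤ n.totient := Nat.cast_nonneg _
  have hX : (0 : ℝ) ≤ ((n : ℝ) ^ 2 + n) / ν := by positivity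
  have key : ∀ α : ℝ, (n : ℝ) ^ 2 / ν ≤ α → α ≤ ((n : ℝ) ^ 2 + n) / ν →
      |∑ e ∈ Ioc (n / ν) (Z n / ν), psi1 (α / e)| ≤
        10.3 * (J : ℝ) * (((n : ℝ) ^ 2 + n) / ν) ^ (1 / 3 : ℝ)
          + 31.1 * ((n : ℝ) ^ (23 / 40 : ℝ) / ν) := by
    intro α h1 h2
    have hα : 0 < α := lt_of_lt_of_le (by positivity) h1
    refine (psi_long (n / ν) (Z n / ν) J α ha hab hbJ hα).trans ?_
    have h3 : α ^ (1 / 3 : ℝ) ≤ (((n : ℝ) ^ 2 + n) / ν) ^ (1 / 3 : ℝ) :=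
      Real.rpow_le_rpow hα.le h2 (by norm_num)
    have h4 := Cnt.sqrt_le n ν (Z n / ν) α hν (by omega) le_rfl h1
    have h5 : 10.3 * (J : ℝ) * α ^ (1 / 3 : ℝ) ≤
        10.3 * (J : ℝ) * (((n : ℝ) ^ 2 + n) / ν) ^ (1 / 3 : ℝ) :=
      mul_le_mul_of_nonneg_left h3 (by positivity)
    linarith
  have k1 := key (((n : ℝ) ^ 2 + n.totient) / ν)
    (div_le_div_of_nonneg_right (by linarith) hν0.le)
    (div_le_div_of_nonneg_right (by linarith) hν0.le)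
  have k2 := key ((n : ℝ) ^ 2 / ν) le_rfl (div_le_div_of_nonneg_right (by linarith) hν0.le)
  have k3 := Cnt.main_term n ν hν hνn
  rw [Cnt.cnt_eq n ν hν (by omega)]
  rw [abs_le] at k1 k2 k3 ⊢
  have e1 : 62.2 * (n : ℝ) ^ (23 / 40 : ℝ) / ν = 2 * (31.1 * ((n : ℝ) ^ (23 / 40 : ℝ) / ν)) := by
    ring
  rw [e1]
  constructor <;> linarith [k1.1, k1.2, k2.1, k2.2, k3.1, k3.2]

end Pool.Agent.Helper19.LPF
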