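import Pool.Agent.Helper19.LPF.ZBasic

/-!
# LPF-3: third and higher powers

Let `x = n ^ 2 + n`. For `j ≥ 3` and `p ∈ exc n j` we have `p ^ j ≤ h ≤ x` or `p ^ j ≤ m ≤ x`, so `p ^ j ≤ x`.
* `j = 3`: `p ≤ x ^ (1/3)`, the sum is at most `θ(x ^ (1/3))`.
* `j ≥ 4` (exchange the sums): `p ^ 4 ≤ p ^ j ≤ x`, so `p ≤ x ^ (1/4)`; for a fixed prime `p` the number `N` of
  `j ≥ 4` with `p ^ j ≤ x` satisfies `N log p ≤ log x` (if `N > 0`, the largest such `j` is `≥ N` and
  `p ^ j ≤ x`). So the total is at most `#{p ≤ x ^ (1/4)} * log x`, and the number of primes `≤ y` is at most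
  `(y + 1) / 2` for `y ≥ 1` (map `2` to `1`; all images are odd numbers `≤ y`).
-/

set_option autoImplicit false
open Finset

namespace Pool.Agent.Helper19.LPF

theorem cubes_pow_le {n j p : ℕ} (hn : 2 ≤ n) (hp : p ∈ exc n j) : p.Prime ∧ p ^ j ≤ n ^ 2 + n := by
  unfold exc at hp
  rw [mem_filter] at hp
  obtain ⟨_, hpr, h⟩ := hp
  refine ⟨hpr, ?_⟩
  rcases h with h | ⟨m, hm, hd⟩
  · have := Nat.totient_le n
    nlinarith
  · have h1 := W_le hm
    have h2 := Nat.le_of_dvd (by omega) hd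
    omega

theorem cubes_primes_card (Y : ℕ) (hY : 1 ≤ Y) :
    ((Finset.range (Y + 1)).filter Nat.Prime).card ≤ (Y + 1) / 2 := by
  rw [← Finset.card_range ((Y + 1) / 2)]
  refine Finset.card_le_card_of_injOn (fun p => if p = 2 then 0 else p / 2) ?_ ?_
  · intro p hp
    simp only [Finset.coe_filter, Finset.mem_range, Set.mem_setOf_eq] at hp
    simp only [Finset.coe_range, Set.mem_Iio]
    split_ifs with h
    · omega
    · have := hp.2.eq_two_or_odd
      omega
  · intro p hp q hq hpq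
    simp only [Finset.coe_filter, Finset.mem_range, Set.mem_setOf_eq] at hp hq
    have h1 := hp.2.eq_two_or_odd
    have h2 := hq.2.eq_two_or_odd
    have h3 := hp.2.two_le
    have h4 := hq.2.two_le
    simp only at hpq
    split_ifs at hpq <;> omega

theorem cubes_le_root {x p k : ℕ} (hk : 0 < k) (h : p ^ k ≤ x) :
    (p : ℝ) ≤ (x : ℝ) ^ (1 / (k : ℝ)) := by
  have h0 : (0 : ℝ) ≤ p := Nat.cast_nonneg p
  have h1 : ((p : ℝ) ^ k) ≤ x := by exact_mod_cast h
  have h2 : ((p : ℝ) ^ k) ^ (1 / (k : ℝ)) ≤ (x : ℝ) ^ (1 / (k : ℝ)) :=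
    Real.rpow_le_rpow (by positivity) h1 (by positivity)
  rwa [one_div, Real.pow_rpow_inv_natCast h0 hk.ne', ← one_div] at h2

theorem exc_high (n : ℕ) (hn : 2 ≤ n) :
    ∑ j ∈ Icc 3 (Nat.log 2 (n ^ 2 + n)), ∑ p ∈ exc n j, Real.log p ≤
      Chebyshev.theta (((n : ℝ) ^ 2 + n) ^ (1 / 3 : ℝ)) +
        ((((n : ℝ) ^ 2 + n) ^ (1 / 4 : ℝ) + 1) / 2) * Real.log ((n : ℝ) ^ 2 + n) := by
  classical
  set x : ℕ := n ^ 2 + n with hx
  have hxR : (n : ℝ) ^ 2 + n = (x : ℝ) := by rw [hx]; push_cast; ring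
  rw [hxR]
  have hx6 : 6 ≤ x := by nlinarith
  have hx1 : (1 : ℝ) ≤ x := by exact_mod_cast (by omega : 1 ≤ x)
  have hlogx : 0 ≤ Real.log x := Real.log_nonneg hx1
  set K := Nat.log 2 x with hK
  have hthree : ∑ p ∈ exc n 3, Real.log p ≤ Chebyshev.theta ((x : ℝ) ^ (1 / 3 : ℝ)) := by
    unfold Chebyshev.theta
    apply Finset.sum_le_sum_of_subset_of_nonneg
    · intro p hp
      obtain ⟨h1, h2⟩ := cubes_pow_le hn hp
      have h3 := cubes_le_root (k := 3) (by norm_num) h2
      simp only [Finset.mem_filter, Finset.mem_Ioc]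
      refine ⟨⟨h1.pos, ?_⟩, h1⟩
      apply Nat.le_floor
      exact_mod_cast h3
    · intro p hp _
      simp only [Finset.mem_filter, Finset.mem_Ioc] at hp
      exact Real.log_nonneg (by exact_mod_cast hp.2.one_le)
  set Y : ℕ := ⌊(x : ℝ) ^ (1 / 4 : ℝ)⌋₊ with hY
  have hY1 : 1 ≤ Y := by
    apply Nat.le_floor
    simpa using Real.one_le_rpow hx1 (by norm_num : (0 : ℝ) ≤ 1 / 4)
  have hfour : ∑ j ∈ Icc 4 K, ∑ p ∈ exc n j, Real.log p ≤
      (((x : ℝ) ^ (1 / 4 : ℝ) + 1) / 2) * Real.log x := by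
    have h1 : ∑ j ∈ Icc 4 K, ∑ p ∈ exc n j, Real.log p ≤
        ∑ j ∈ Icc 4 K, ∑ p ∈ (Finset.range (Y + 1)).filter Nat.Prime,
          if p ^ j ≤ x then Real.log p else 0 := by
      apply Finset.sum_le_sum
      intro j hj
      rw [Finset.mem_Icc] at hj
      rw [← Finset.sum_filter]
      apply Finset.sum_le_sum_of_subset_of_nonneg
      · intro p hp
        obtain ⟨h1, h2⟩ := cubes_pow_le hn hp
        have h3 : p ^ 4 ≤ x := (Nat.pow_le_pow_right h1.pos hj.1).trans h2
        have h4 := cubes_le_root (k := 4) (by norm_num) h3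
        simp only [Finset.mem_filter, Finset.mem_range]
        refine ⟨⟨?_, h1⟩, h2⟩
        rw [Nat.lt_succ_iff]
        apply Nat.le_floor
        exact_mod_cast h4
      · intro p hp _
        simp only [Finset.mem_filter, Finset.mem_range] at hp
        exact Real.log_nonneg (by exact_mod_cast hp.1.2.one_le)
    rw [Finset.sum_comm] at h1
    have h2 : ∀ p ∈ (Finset.range (Y + 1)).filter Nat.Prime,
        (∑ j ∈ Icc 4 K, if p ^ j ≤ x then Real.log p else 0) ≤ Real.log x := by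
      intro p hp
      simp only [Finset.mem_filter, Finset.mem_range] at hp
      have hp2 := hp.2.two_le
      have hlp : 0 ≤ Real.log p := Real.log_nonneg (by exact_mod_cast hp.2.one_le)
      rw [← Finset.sum_filter, Finset.sum_const, nsmul_eq_mul]
      have hcard : ((Icc 4 K).filter (fun j => p ^ j ≤ x)).card ≤ Nat.log p x := by
        have : (Icc 4 K).filter (fun j => p ^ j ≤ x) ⊆ Finset.Icc 1 (Nat.log p x) := by
          intro j hj
          simp only [Finset.mem_filter, Finset.mem_Icc] at hj ⊢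
          refine ⟨by omega, ?_⟩
          exact Nat.le_log_of_pow_le (by omega) hj.2
        have h3 := Finset.card_le_card this
        simpa using h3
      have h4 : ((Nat.log p x : ℕ) : ℝ) * Real.log p ≤ Real.log x := by
        rw [← Real.log_pow]
        apply Real.log_le_log
        · have : (0 : ℝ) < p := by exact_mod_cast hp.2.pos
          positivity
        · exact_mod_cast Nat.pow_log_le_self p (by omega)
      refine le_trans ?_ h4
      apply mul_le_mul_of_nonneg_right _ hlp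
      exact_mod_cast hcard
    have h3 := Finset.sum_le_sum h2
    rw [Finset.sum_const, nsmul_eq_mul] at h3
    refine h1.trans (h3.trans ?_)
    apply mul_le_mul_of_nonneg_right _ hlogx
    have h4 := cubes_primes_card Y hY1
    have h5 : ((((Finset.range (Y + 1)).filter Nat.Prime).card : ℕ) : ℝ) ≤ ((Y : ℝ) + 1) / 2 := by
      have h6 : 2 * ((Finset.range (Y + 1)).filter Nat.Prime).card ≤ Y + 1 := by omega
      have h7 : (2 : ℝ) * ((((Finset.range (Y + 1)).filter Nat.Prime).card : ℕ) : ℝ) ≤ (Y : ℝ) + 1 := by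
        exact_mod_cast h6
      linarith
    have h6 : (Y : ℝ) ≤ (x : ℝ) ^ (1 / 4 : ℝ) := Nat.floor_le (by positivity)
    linarith
  have hsplit : ∑ j ∈ Icc 3 K, ∑ p ∈ exc n j, Real.log p ≤
      ∑ p ∈ exc n 3, Real.log p + ∑ j ∈ Icc 4 K, ∑ p ∈ exc n j, Real.log p := by
    by_cases h3 : 3 ≤ K
    · have : Icc 3 K = insert 3 (Icc 4 K) := by
        ext j
        simp only [Finset.mem_Icc, Finset.mem_insert]
        omega
      rw [this, Finset.sum_insert (by simp)]
    · rw [Finset.Icc_eq_empty h3, Finset.Icc_eq_empty (by omega)]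
      simp only [Finset.sum_empty, add_zero]
      apply Finset.sum_nonneg
      intro p hp
      obtain ⟨h1, _⟩ := cubes_pow_le hn hp
      exact Real.log_nonneg (by exact_mod_cast h1.one_le)
  linarith

end Pool.Agent.Helper19.LPF
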