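import Pool.Agent.Helper19.LPF.ZBasic

/-!
# LPF-2: primes and squares of primes dividing elements of the window

`exc_one`: `exc n 1` consists of primes `p ≤ Z`, `p ≤ h` or `p` divides some element of `W`. Those with `p ≤ n`
contribute at most `θ(n)`. Those with `p > n > h` divide an element of the window and are in `SP n`.

`exc_two`: let `p ∈ exc n 2`. If `p ≤ n / √K` it is counted by `θ(n / √K)`. Otherwise `p ^ 2 > n ^ 2 / K ≥ n > h`
(as `K ≤ n`), so some `m ∈ W` has `m = k p ^ 2`, and `k = m / p ^ 2 < K (n ^ 2 + h) / n ^ 2 < K + 1` (since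
`K h ≤ n h < n ^ 2`), i.e. `1 ≤ k ≤ K`. The map `p ↦ k` (for a choice of `m`) is injective: if `p < p'` had the same
`k`, then `k p ^ 2 > n ^ 2` and `k p' ^ 2 ≤ n ^ 2 + h` give `k (p' ^ 2 - p ^ 2) < h`, but
`k (p' ^ 2 - p ^ 2) ≥ k (2 p + 1) > 2 k p` and `(k p) ^ 2 ≥ k p ^ 2 > n ^ 2`, so `2 k p > 2 n > h`, a contradiction.
So there are at most `K` such primes, and for each `p ^ 2 ≤ m ≤ n ^ 2 + n < (n + 1) ^ 2` gives `p ≤ n`,
`log p ≤ log n`.
-/

set_option autoImplicit false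
open Finset

namespace Pool.Agent.Helper19.LPF

theorem squares_sum_le_theta (s : Finset ℕ) (x : ℝ) (hs : ∀ p ∈ s, p.Prime ∧ (p : ℝ) ≤ x) :
    ∑ p ∈ s, Real.log p ≤ Chebyshev.theta x := by
  unfold Chebyshev.theta
  refine sum_le_sum_of_subset_of_nonneg ?_ ?_
  · intro p hp
    obtain ⟨h1, h2⟩ := hs p hp
    rw [mem_filter, mem_Ioc]
    exact ⟨⟨h1.pos, Nat.le_floor h2⟩, h1⟩
  · intro p _ _
    exact Real.log_natCast_nonneg p

theorem exc_one (n : ℕ) (hn : 2 ≤ n) :
    ∑ p ∈ exc n 1, Real.log p ≤ Chebyshev.theta n + S n := by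
  classical
  rw [← sum_filter_add_sum_filter_not (exc n 1) (fun p => p ≤ n)]
  refine add_le_add ?_ ?_
  · refine squares_sum_le_theta _ _ ?_
    intro p hp
    rw [mem_filter] at hp
    unfold exc at hp
    rw [mem_filter] at hp
    exact ⟨hp.1.2.1, by exact_mod_cast hp.2⟩
  · unfold S
    refine sum_le_sum_of_subset_of_nonneg ?_ ?_
    · intro p hp
      rw [mem_filter] at hp
      obtain ⟨hp1, hp2⟩ := hp
      unfold exc at hp1
      rw [mem_filter, mem_range] at hp1
      unfold SP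
      rw [mem_filter, mem_Ioc]
      have h1 := totient_lt hn
      refine ⟨⟨by omega, by omega⟩, hp1.2.1, ?_⟩
      rcases hp1.2.2 with h | ⟨m, hm, hd⟩
      · rw [pow_one] at h; omega
      · exact ⟨m, hm, by rwa [pow_one] at hd⟩
    · intro p _ _
      exact Real.log_natCast_nonneg p

theorem squares_key {n K p : ℕ} (hn : 2 ≤ n) (hKn : K ≤ n)
    (hpK : n ^ 2 < K * p ^ 2) (hd : p ^ 2 ≤ n.totient ∨ ∃ m ∈ W n, p ^ 2 ∣ m) :
    p ≤ n ∧ ∃ k, 1 ≤ k ∧ k ≤ K ∧ n ^ 2 < k * p ^ 2 ∧ k * p ^ 2 ≤ n ^ 2 + n.totient := by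
  have ht := totient_lt hn
  have h0 : n < p ^ 2 := by
    by_contra h
    have h1 : K * p ^ 2 ≤ n * n := Nat.mul_le_mul hKn (by omega)
    nlinarith
  rcases hd with h | ⟨m, hm, k, hk⟩
  · omega
  · obtain ⟨h1, h2, h3⟩ := W_le hm
    have hk1 : 1 ≤ k := by
      rcases Nat.eq_zero_or_pos k with rfl | hk0
      · rw [mul_zero] at hk; omega
      · exact hk0
    have hm' : m = k * p ^ 2 := by rw [hk, mul_comm]
    refine ⟨?_, k, hk1, ?_, by rw [← hm']; exact h1, by rw [← hm']; exact h2⟩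
    · by_contra hc
      have h4 : n + 1 ≤ p := by omega
      have h5 : (n + 1) ^ 2 ≤ p ^ 2 := Nat.pow_le_pow_left h4 2
      have h6 : p ^ 2 ≤ k * p ^ 2 := Nat.le_mul_of_pos_left _ (by omega)
      nlinarith
    · by_contra hc
      have h4 : (K + 1) * p ^ 2 ≤ k * p ^ 2 := Nat.mul_le_mul_right _ (by omega)
      nlinarith

theorem exc_two (n K : ℕ) (hn : 2 ≤ n) (hK : 1 ≤ K) (hKn : K ≤ n) :
    ∑ p ∈ exc n 2, Real.log p ≤ Chebyshev.theta ((n : ℝ) / √(K : ℝ)) + (K : ℝ) * Real.log n := by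
  classical
  rw [← sum_filter_add_sum_filter_not (exc n 2) (fun p : ℕ => (p : ℝ) ≤ (n : ℝ) / √(K : ℝ))]
  refine add_le_add ?_ ?_
  · refine squares_sum_le_theta _ _ ?_
    intro p hp
    rw [mem_filter] at hp
    unfold exc at hp
    rw [mem_filter] at hp
    exact ⟨hp.1.2.1, hp.2⟩
  · set B : Finset ℕ := (exc n 2).filter (fun p : ℕ => ¬ ((p : ℕ) : ℝ) ≤ (n : ℝ) / √(K : ℝ)) with hB
    have hKpos : (0 : ℝ) < √(K : ℝ) := Real.sqrt_pos.mpr (by exact_mod_cast (by omega : 0 < K))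
    have key : ∀ p ∈ B, p ≤ n ∧ p.Prime ∧ ∃ k, 1 ≤ k ∧ k ≤ K ∧ n ^ 2 < k * p ^ 2 ∧
        k * p ^ 2 ≤ n ^ 2 + n.totient := by
      intro p hp
      rw [hB, mem_filter] at hp
      obtain ⟨hp1, hp2⟩ := hp
      unfold exc at hp1
      rw [mem_filter] at hp1
      obtain ⟨_, hpp, hd⟩ := hp1
      rw [not_le, div_lt_iff₀ hKpos] at hp2
      have h1 : (n : ℝ) ^ 2 < (K : ℝ) * (p : ℝ) ^ 2 := by
        have h2 : (n : ℝ) ^ 2 < ((p : ℝ) * √(K : ℝ)) ^ 2 :=
          pow_lt_pow_left₀ hp2 (Nat.cast_nonneg n) (by norm_num)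
        rw [mul_pow, Real.sq_sqrt (Nat.cast_nonneg K)] at h2
        linarith
      have h3 : n ^ 2 < K * p ^ 2 := by exact_mod_cast h1
      obtain ⟨h4, h5⟩ := squares_key hn hKn h3 hd
      exact ⟨h4, hpp, h5⟩
    choose! f hf using fun p (hp : p ∈ B) => (key p hp).2.2
    have hcard : B.card ≤ K := by
      have h1 : B.card ≤ (Icc 1 K).card := by
        refine card_le_card_of_injOn f ?_ ?_
        · intro p hp
          obtain ⟨h1, h2, _⟩ := hf p hp
          rw [coe_Icc, Set.mem_Icc]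
          exact ⟨h1, h2⟩
        · have aux : ∀ p ∈ B, ∀ q ∈ B, f p = f q → ¬ p < q := by
            intro p hp q hq hfe hlt
            obtain ⟨h1, _, h2, _⟩ := hf p hp
            obtain ⟨_, _, _, h3⟩ := hf q hq
            rw [← hfe] at h3
            have ht := totient_lt hn
            have h4 : n < f p * p := by
              have h5 : f p * p ^ 2 ≤ (f p * p) ^ 2 := by
                rw [mul_pow]
                exact Nat.mul_le_mul_right _ (by nlinarith)
              have h6 : n ^ 2 < (f p * p) ^ 2 := by omega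
              exact lt_of_pow_lt_pow_left₀ 2 (Nat.zero_le _) h6
            have h5 : f p * (p + 1) ^ 2 ≤ f p * q ^ 2 :=
              Nat.mul_le_mul_left _ (Nat.pow_le_pow_left (by omega) 2)
            nlinarith
          intro p hp q hq hfe
          have h1 := aux p hp q hq hfe
          have h2 := aux q hq p hp hfe.symm
          omega
      rw [Nat.card_Icc] at h1
      omega
    have h1 : ∑ p ∈ B, Real.log p ≤ B.card • Real.log n := by
      refine sum_le_card_nsmul _ _ _ ?_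
      intro p hp
      obtain ⟨h2, h3, _⟩ := key p hp
      exact Real.log_le_log (by exact_mod_cast h3.pos) (by exact_mod_cast h2)
    rw [nsmul_eq_mul] at h1
    refine h1.trans (mul_le_mul_of_nonneg_right (by exact_mod_cast hcard) (Real.log_natCast_nonneg n))

end Pool.Agent.Helper19.LPF
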