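import Pool.Agent.Helper19.LPF.PrimePowers
import Pool.Agent.Helper19.LPF.Squares
import Pool.Agent.Helper19.LPF.Cubes
import Pool.Agent.Helper77.KB.PsiFinal

/-!
# LPF-4: the main inequality

Suppose `n ≥ 5000`, `n ≤ ρ h` (`h = φ(n)`, `ρ ≥ 1`) and `20 * card (good n) < h`. Write `L = log n`,
`x = n ^ 2 + n`; `log x ≤ 2 L + 1 / n`. By `window_log` and `card * log x ≤ (h / 20) (2 L + 1 / n) ≤ h L / 10 + 1/20`:
  `1.9 h L ≤ 0.05 + log (h !) + E`, `E` the double sum over `j` and `p ∈ exc n j`.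
With `log (h !) ≤ h log h - h + log h + 1` (from `h ! ≤ e h (h / e) ^ h`; easy induction, or
`Real.log_factorial`-type lemmas / Stirling in Mathlib; for `h ≥ 1`) we get
  `f(h) := h (1.9 L - log h + 1) ≤ E + log h + 1.05`.
`f` is monotone for `log h ≤ 1.9 L`: with `h0 = n / ρ ≤ h`, `f(h) ≥ f(h0) = (n / ρ) (0.9 L + log ρ + 1)`. [Elementary:
`f(h) - f(h0) = (h - h0)(1.9 L + 1 - log h) - h0 (log h - log h0) ≥ (h - h0) (1.9 L + 1 - log h) - (h - h0)`, using
`log (h / h0) ≤ h / h0 - 1`, and `log h ≤ L`.]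
`E` is split as `j = 1`, `j = 2`, `j ≥ 3` (`Nat.log 2 x ≥ 2`), bounded by `exc_one`, `exc_two` with
`K = ⌊n ^ (2/3) / 8⌋` (so `36 ≤ K ≤ n`, as `n ^ (2/3) ≥ 292`), `exc_high`; and `θ(y) ≤ ψ(y) ≤ 1.04 y` for `y ≥ 1`
(`Chebyshev.theta_le_psi`, `Pool.Agent.Helper77.KB.psi_le_uniform`).
* `K ≥ n ^ (2/3) / 8 - 1 ≥ 0.972 n ^ (2/3) / 8`, so `n / √K ≤ 2.87 n ^ (2/3)` and `θ(n / √K) ≤ 2.99 n ^ (2/3)`
  (`√(8 / 0.972) ≤ 2.869`, `1.04 * 2.869 ≤ 2.984`);
* `K L ≤ n ^ (2/3) L / 8`;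
* `θ(x ^ (1/3)) ≤ 1.04 x ^ (1/3) ≤ 1.041 n ^ (2/3)` (`(1 + 1/n) ^ (1/3) ≤ 1 + 1/(3n)` or any crude bound);
  total of the coefficients of `n ^ (2/3)`: `2.984 + 1.041 ≤ 4.05`;
* `x ^ (1/4) ≤ 1.0001 √n` and `log x ≤ 2 L + 1/n`: `((x ^ (1/4) + 1) / 2) log x ≤ 1.0001 √n L + L + 0.01`.
* remaining: `log h + 1.05 + 0.01 + 1.0001 √n L + L ≤ 1.02 √n L + L + 2`, because
  `log h ≤ L ≤ 0.0199 * √n * L` (`√n ≥ 70`).
-/

set_option autoImplicit false
open Finset

namespace Pool.Agent.Helper19.LPF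

theorem core_log_factorial (h : ℕ) (hh : 1 ≤ h) :
    Real.log (h.factorial) ≤ (h : ℝ) * Real.log h - h + Real.log h + 1 := by
  induction h, hh using Nat.le_induction with
  | base => simp
  | succ h hh ih =>
    have h0 : (0 : ℝ) < h := by exact_mod_cast hh
    have h1 : (0 : ℝ) < (h : ℝ) + 1 := by linarith
    rw [Nat.factorial_succ, Nat.cast_mul, Real.log_mul (by positivity) (by positivity)]
    push_cast
    have h2 := Real.one_sub_inv_le_log_of_pos (x := ((h : ℝ) + 1) / h) (by positivity)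
    rw [Real.log_div h1.ne' h0.ne', inv_div] at h2
    have h3 : ((h : ℝ) + 1) * (1 - (h : ℝ) / (h + 1)) = 1 := by
      field_simp
      ring
    have h4 := mul_le_mul_of_nonneg_left h2 h1.le
    rw [h3] at h4
    nlinarith

theorem core_f_mono {L h h0 : ℝ} (hh0 : 0 < h0) (hle : h0 ≤ h) (hL : Real.log h ≤ L) (hL0 : 0 ≤ L) :
    h0 * (19 / 10 * L - Real.log h0 + 1) ≤ h * (19 / 10 * L - Real.log h + 1) := by
  have hh : 0 < h := hh0.trans_le hle
  have h1 : Real.log h - Real.log h0 ≤ h / h0 - 1 := by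
    rw [← Real.log_div hh.ne' hh0.ne']
    have := Real.log_le_sub_one_of_pos (div_pos hh hh0)
    exact this
  have h2 : h0 * (Real.log h - Real.log h0) ≤ h - h0 := by
    have h3 := mul_le_mul_of_nonneg_left h1 hh0.le
    have h4 : h0 * (h / h0 - 1) = h - h0 := by
      field_simp
    linarith
  have h5 : 0 ≤ (h - h0) * (19 / 10 * L - Real.log h) :=
    mul_nonneg (by linarith) (by linarith)
  nlinarith

theorem core_theta_le {x y : ℝ} (hxy : x ≤ y) (hy : 1 ≤ y) : Chebyshev.theta x ≤ 1.04 * y :=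
  ((Chebyshev.theta_mono hxy).trans (Chebyshev.theta_le_psi y)).trans
    (KB.psi_le_uniform hy)

theorem core_sum_split {J : ℕ} (hJ : 2 ≤ J) (f : ℕ → ℝ) :
    ∑ j ∈ Icc 1 J, f j = f 1 + f 2 + ∑ j ∈ Icc 3 J, f j := by
  have h1 : Icc 1 J = insert 1 (insert 2 (Icc 3 J)) := by
    ext a
    simp only [mem_Icc, mem_insert]
    omega
  rw [h1, sum_insert (by simp), sum_insert (by simp)]
  ring

theorem core (n : ℕ) (ρ : ℝ) (hn : 5000 ≤ n) (hρ : 1 ≤ ρ) (h : (n : ℝ) ≤ ρ * n.totient)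
    (hg : 20 * (good n).card < n.totient) :
    ((n : ℝ) / ρ) * (9 / 10 * Real.log n + Real.log ρ + 1) ≤
      Chebyshev.theta n + S n + (n : ℝ) ^ (2 / 3 : ℝ) * (4.05 + Real.log n / 8)
        + 1.02 * √(n : ℝ) * Real.log n + Real.log n + 2 := by
  have hnR : (5000 : ℝ) ≤ n := by exact_mod_cast hn
  have hn0 : (0 : ℝ) < n := by linarith
  have hρ0 : 0 < ρ := by linarith
  set L := Real.log n with hLdef
  have hL1 : 1 ≤ L := by
    rw [hLdef, Real.le_log_iff_exp_le hn0]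
    have := Real.exp_one_lt_d9
    linarith
  have hh1 : 1 ≤ n.totient := Nat.totient_pos.2 (by omega)
  have hhR : (1 : ℝ) ≤ n.totient := by exact_mod_cast hh1
  have hh0 : (0 : ℝ) < n.totient := by linarith
  have hhn : (n.totient : ℝ) ≤ n := by exact_mod_cast Nat.totient_le n
  have hlogh : Real.log n.totient ≤ L := Real.log_le_log hh0 hhn
  have hlogh0 : 0 ≤ Real.log n.totient := Real.log_nonneg hhR
  -- the logarithm of `x`
  have hX0 : (0 : ℝ) < (n : ℝ) ^ 2 + n := by positivity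
  have hXe : (n : ℝ) ^ 2 + n = (n : ℝ) ^ 2 * (1 + 1 / n) := by
    field_simp
  have h1n : 1 / (n : ℝ) ≤ 1 / 5000 := one_div_le_one_div_of_le (by norm_num) hnR
  have hlogX : Real.log ((n : ℝ) ^ 2 + n) ≤ 2 * L + 1 / n := by
    rw [hXe, Real.log_mul (by positivity) (by positivity), Real.log_pow]
    have := Real.log_le_sub_one_of_pos (x := 1 + 1 / (n : ℝ)) (by positivity)
    push_cast
    linarith
  have hlogX0 : 0 ≤ Real.log ((n : ℝ) ^ 2 + n) := Real.log_nonneg (by nlinarith)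
  -- the main inequality
  have hw := window_log n (by omega)
  have hJ : 2 ≤ Nat.log 2 (n ^ 2 + n) := by
    apply Nat.le_log_of_pow_le (by norm_num)
    nlinarith
  rw [core_sum_split hJ] at hw
  have hf := core_log_factorial n.totient hh1
  have hgR : 20 * ((good n).card : ℝ) ≤ n.totient := by exact_mod_cast hg.le
  have hcard : ((good n).card : ℝ) * Real.log ((n : ℝ) ^ 2 + n) ≤
      (n.totient : ℝ) * L / 10 + 1 / 20 := by
    have h1 : ((good n).card : ℝ) * Real.log ((n : ℝ) ^ 2 + n) ≤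
        ((n.totient : ℝ) / 20) * (2 * L + 1 / n) :=
      mul_le_mul (by linarith) hlogX hlogX0 (by positivity)
    have h2 : ((n.totient : ℝ) / 20) * (1 / n) ≤ 1 / 20 := by
      rw [div_mul_div_comm, div_le_div_iff₀ (by positivity) (by norm_num)]
      linarith
    nlinarith
  -- the function `f`
  have hmono := core_f_mono (L := L) (h := n.totient) (h0 := (n : ℝ) / ρ) (by positivity)
    (by rw [div_le_iff₀ hρ0]; linarith) hlogh (by linarith)
  rw [Real.log_div hn0.ne' hρ0.ne'] at hmono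
  -- the cut `K`
  set y := (n : ℝ) ^ (2 / 3 : ℝ) with hydef
  have hy0 : 0 < y := by positivity
  have hy3 : y ^ 3 = (n : ℝ) ^ 2 := by
    rw [hydef, ← Real.rpow_natCast, ← Real.rpow_mul hn0.le, ← Real.rpow_natCast]
    norm_num
  have hy292 : 292 ≤ y := by
    by_contra hlt
    push Not at hlt
    have : y ^ 3 < 292 ^ 3 := pow_lt_pow_left₀ hlt hy0.le (by norm_num)
    rw [hy3] at this
    nlinarith
  have hyn : y ≤ n := by
    have : y ^ 3 ≤ (n : ℝ) ^ 3 := by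
      rw [hy3]
      nlinarith
    exact le_of_pow_le_pow_left₀ (by norm_num) hn0.le this
  set K := ⌊y / 8⌋₊ with hKdef
  have hK1 : (K : ℝ) ≤ y / 8 := Nat.floor_le (by positivity)
  have hK2 : y / 8 - 1 < K := by
    have := Nat.lt_floor_add_one (y / 8)
    linarith
  have hK3 : 0.1215 * y ≤ K := by linarith
  have hK0 : (0 : ℝ) < K := by linarith
  have hKnat : 1 ≤ K := by exact_mod_cast hK0
  have hKn : K ≤ n := by
    have : (K : ℝ) ≤ n := by linarith
    exact_mod_cast this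
  have h1 := exc_one n (by omega)
  have h2 := exc_two n K (by omega) hKnat hKn
  have h3 := exc_high n (by omega)
  have ht2 : Chebyshev.theta ((n : ℝ) / √(K : ℝ)) ≤ 1.04 * (2.869 * y) := by
    apply core_theta_le _ (by linarith)
    rw [div_le_iff₀ (Real.sqrt_pos.2 hK0)]
    have hs : √(K : ℝ) ^ 2 = K := Real.sq_sqrt hK0.le
    apply le_of_pow_le_pow_left₀ (n := 2) (by norm_num) (by positivity)
    rw [mul_pow, hs, ← hy3]
    have : (2.869 * y) ^ 2 * (0.1215 * y) ≤ (2.869 * y) ^ 2 * K :=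
      mul_le_mul_of_nonneg_left hK3 (by positivity)
    have hy3' : 0 < y ^ 3 := by positivity
    nlinarith
  have hX13 : ((n : ℝ) ^ 2 + n) ^ (1 / 3 : ℝ) ≤ 1.001 * y := by
    apply le_of_pow_le_pow_left₀ (n := 3) (by norm_num) (by positivity)
    rw [mul_pow, hy3, ← Real.rpow_natCast, ← Real.rpow_mul hX0.le]
    norm_num
    nlinarith
  have ht3 : Chebyshev.theta (((n : ℝ) ^ 2 + n) ^ (1 / 3 : ℝ)) ≤ 1.04 * (1.001 * y) :=
    core_theta_le hX13 (by linarith)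
  have hs0 : 0 < √(n : ℝ) := Real.sqrt_pos.2 hn0
  have hss : √(n : ℝ) ^ 2 = n := Real.sq_sqrt hn0.le
  have hs70 : 70 ≤ √(n : ℝ) := by
    rw [Real.le_sqrt (by norm_num) hn0.le]
    linarith
  have hX14 : ((n : ℝ) ^ 2 + n) ^ (1 / 4 : ℝ) ≤ 1.0001 * √(n : ℝ) := by
    apply le_of_pow_le_pow_left₀ (n := 4) (by norm_num) (by positivity)
    have h4 : √(n : ℝ) ^ 4 = (n : ℝ) ^ 2 := by
      rw [show (4 : ℕ) = 2 * 2 from rfl, pow_mul, hss]
    rw [mul_pow, h4, ← Real.rpow_natCast, ← Real.rpow_mul hX0.le]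
    norm_num
    nlinarith
  have hhigh : ((((n : ℝ) ^ 2 + n) ^ (1 / 4 : ℝ) + 1) / 2) * Real.log ((n : ℝ) ^ 2 + n) ≤
      1.0001 * √(n : ℝ) * L + L + 0.01 := by
    have h5 : ((((n : ℝ) ^ 2 + n) ^ (1 / 4 : ℝ) + 1) / 2) * Real.log ((n : ℝ) ^ 2 + n) ≤
        ((1.0001 * √(n : ℝ) + 1) / 2) * (2 * L + 1 / n) :=
      mul_le_mul (by linarith) hlogX hlogX0 (by positivity)
    have h6 : ((1.0001 * √(n : ℝ) + 1) / 2) * (1 / n) ≤ 0.01 := by
      rw [div_mul_div_comm, mul_one, div_le_iff₀ (by positivity)]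
      nlinarith
    nlinarith
  have hKL : (K : ℝ) * L ≤ y / 8 * L := mul_le_mul_of_nonneg_right hK1 (by linarith)
  have hsL : L ≤ 0.0199 * (√(n : ℝ) * L) := by nlinarith
  nlinarith

end Pool.Agent.Helper19.LPF
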