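import Mathlib

/-!
# Project LPF (MP_36c81c_nt): definitions

For every `n ≥ 1` at least `φ(n)/20` of the integers `m` in the window `(n², n² + φ(n)]` have a prime factor
`p > n ^ (21/20)`.

In all files: `h = φ(n)`, `L = log n`, `x = n² + n`.
-/

set_option autoImplicit false
open Finset

namespace Pool.Agent.Helper19.LPF

/-- the window `(n², n² + φ(n)]` -/
def W (n : ℕ) : Finset ℕ := Ioc (n ^ 2) (n ^ 2 + n.totient)

open Classical in
/-- the good elements of the window -/
noncomputable def good (n : ℕ) : Finset ℕ :=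
  (W n).filter (fun m => ∃ p, p.Prime ∧ p ∣ m ∧ n ^ 21 < p ^ 20)

/-- integer part of `n ^ (21/20)` -/
noncomputable def Z (n : ℕ) : ℕ := ⌊(n : ℝ) ^ (21 / 20 : ℝ)⌋₊

open Classical in
/-- the primes `p ∈ (n, Z]` which divide an element of the window -/
noncomputable def SP (n : ℕ) : Finset ℕ :=
  (Ioc n (Z n)).filter (fun p => p.Prime ∧ ∃ m ∈ W n, p ∣ m)

/-- the sum of the logarithms of the elements of `SP n` -/
noncomputable def S (n : ℕ) : ℝ := ∑ p ∈ SP n, Real.log p

open Classical in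
/-- the primes `p ≤ Z` such that `p ^ j ≤ h` or `p ^ j` divides an element of the window -/
noncomputable def exc (n j : ℕ) : Finset ℕ :=
  (range (Z n + 1)).filter (fun p => p.Prime ∧ (p ^ j ≤ n.totient ∨ ∃ m ∈ W n, p ^ j ∣ m))

/-- number of pairs `(d, m)`, `n < d ≤ Z`, `ν ∣ d`, `m ∈ W n`, `d ∣ m` -/
noncomputable def cnt (n ν : ℕ) : ℕ :=
  ∑ d ∈ (Ioc n (Z n)).filter (fun d => ν ∣ d), ((W n).filter (fun m => d ∣ m)).card

end Pool.Agent.Helper19.LPF
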