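import Pool.Agent.Helper64.QRH.Vdc

/-!
# LPF-7: the exponential sum `Σ e(β / e)` over a dyadic block

Proof of `exp_sum`. `N = b - a ≤ a`. Put `lam = β / (4 a ^ 3)`.
* If `√lam > 1/4`: `√(β / a) = a √(β / a ^ 3) = 2 a √lam > a / 2`, and the sum is trivially `≤ N ≤ a ≤ 20 √(β / a)`.
* If `√lam ≤ 1/4`: use `Pool.Agent.Helper64.QRH.seq_bound` with `A = 8`, `z m = ee (f (a + 1 + m))`,
  `f(t) = β / t`, `δ m = f (a + m + 2) - f (a + m + 1)`. Then `z (m+1) = z m * ee (δ m)` (`ee_add`) and for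
  `m + 1 < N`, with `e = a + 1 + m` (so `a + 1 ≤ e`, `e + 1 ≤ b ≤ 2 a`),
  `δ (m+1) - δ m = β (1/(e+2) - 2/(e+1) + 1/e) = 2 β / (e (e+1) (e+2))`;
  since `e (e + 1) (e + 2) ≤ (e + 1) ^ 3 ≤ (2 a) ^ 3` this is `≥ 2 β / (8 a ^ 3) = lam`, and since
  `e (e+1) (e+2) ≥ a ^ 3` it is `≤ 2 β / a ^ 3 = 8 lam`. The bound is
  `(8 lam N + 2) (5 / √lam) = 40 N √lam + 10 / √lam ≤ 20 √(β / a) + 20 √(a ^ 3 / β)`,
  because `√lam = √(β / a ^ 3) / 2`, `a √(β / a ^ 3) = √(β / a)`.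
  (For general `b` when `N` is small the conditions are empty; `N = 0` is trivial.)
-/

set_option autoImplicit false
open Finset

namespace Pool.Agent.Helper19.LPF

open Pool.Agent.Helper10.QRH

theorem expSum_sqrt_lam (a β : ℝ) : √(β / (4 * a ^ 3)) = √(β / a ^ 3) / 2 := by
  have h1 : β / (4 * a ^ 3) = β / a ^ 3 / 4 := by
    rw [div_div, mul_comm]
  rw [h1, Real.sqrt_div' _ (by norm_num : (0 : ℝ) ≤ 4)]
  have h2 : √(4 : ℝ) = 2 := by
    rw [show (4 : ℝ) = 2 ^ 2 by norm_num]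
    exact Real.sqrt_sq (by norm_num)
  rw [h2]

theorem expSum_mul_sqrt {a β : ℝ} (ha : 0 < a) : a * √(β / a ^ 3) = √(β / a) := by
  have h1 : β / a = a ^ 2 * (β / a ^ 3) := by
    field_simp
  rw [h1, Real.sqrt_mul (by positivity), Real.sqrt_sq ha.le]

theorem expSum_inv_sqrt {a β : ℝ} (ha : 0 < a) (hβ : 0 < β) :
    1 / √(β / a ^ 3) = √(a ^ 3 / β) := by
  rw [one_div, ← Real.sqrt_inv, inv_div]

theorem expSum_diff {e β : ℝ} (he : 0 < e) :
    (β / (e + 2) - β / (e + 1)) - (β / (e + 1) - β / e) = 2 * β / (e * (e + 1) * (e + 2)) := by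
  have h1 : e + 1 ≠ 0 := by positivity
  have h2 : e + 2 ≠ 0 := by positivity
  field_simp
  ring

theorem exp_sum (a b : ℕ) (β : ℝ) (ha : 1 ≤ a) (hab : a ≤ b) (hb : b ≤ 2 * a) (hβ : 0 < β) :
    ‖∑ e ∈ Ioc a b, ee (β / e)‖ ≤ 20 * √(β / a) + 21 * √((a : ℝ) ^ 3 / β) := by
  have haR : (1 : ℝ) ≤ (a : ℝ) := by exact_mod_cast ha
  have ha0 : (0 : ℝ) < (a : ℝ) := by linarith
  obtain ⟨N, hN⟩ : ∃ N, N = b - a := ⟨_, rfl⟩
  have hNa : N ≤ a := by omega
  have hNaR : (N : ℝ) ≤ (a : ℝ) := by exact_mod_cast hNa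
  have hsum : ∑ e ∈ Ioc a b, ee (β / e) =
      ∑ m ∈ range N, ee (β / ((a : ℝ) + 1 + m)) := by
    have hIco : Ioc a b = Ico (a + 1) (b + 1) := by
      ext x
      simp only [mem_Ioc, mem_Ico]
      omega
    rw [hIco, Finset.sum_Ico_eq_sum_range]
    have h1 : b + 1 - (a + 1) = N := by omega
    rw [h1]
    refine Finset.sum_congr rfl fun m _ => ?_
    push_cast
    rfl
  rw [hsum]
  have hs1 : 0 ≤ √(β / (a : ℝ)) := Real.sqrt_nonneg _
  have hs2 : 0 ≤ √((a : ℝ) ^ 3 / β) := Real.sqrt_nonneg _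
  have hr0 : 0 < √(β / (a : ℝ) ^ 3) := Real.sqrt_pos.2 (by positivity)
  have hr1 : (a : ℝ) * √(β / (a : ℝ) ^ 3) = √(β / a) := expSum_mul_sqrt ha0
  have hr2 : 1 / √(β / (a : ℝ) ^ 3) = √((a : ℝ) ^ 3 / β) := expSum_inv_sqrt ha0 hβ
  have hlam : √(β / (4 * (a : ℝ) ^ 3)) = √(β / (a : ℝ) ^ 3) / 2 := expSum_sqrt_lam a β
  by_cases hcase : √(β / (4 * (a : ℝ) ^ 3)) ≤ 1 / 4
  · have hl : 0 < β / (4 * (a : ℝ) ^ 3) := by positivity
    have key := Pool.Agent.Helper64.QRH.seq_bound (N := N) (lam := β / (4 * (a : ℝ) ^ 3)) (A := 8)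
      (z := fun m => ee (β / ((a : ℝ) + 1 + m)))
      (δ := fun m => β / ((a : ℝ) + m + 2) - β / ((a : ℝ) + 1 + m)) hl (by norm_num)
      (fun n => (Pool.Agent.Helper64.QRH.norm_ee _).le)
      (by
        intro n _
        have h1 : β / ((a : ℝ) + 1 + ((n + 1 : ℕ) : ℝ)) =
            β / ((a : ℝ) + 1 + n) + (β / ((a : ℝ) + n + 2) - β / ((a : ℝ) + 1 + n)) := by
          push_cast
          have : (a : ℝ) + 1 + ((n : ℝ) + 1) = (a : ℝ) + n + 2 := by ring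
          rw [this]
          ring
        show ee (β / ((a : ℝ) + 1 + ((n + 1 : ℕ) : ℝ))) = _
        rw [h1, Pool.Agent.Helper64.QRH.ee_add])
      (by
        intro n hn
        obtain ⟨e, he⟩ : ∃ e : ℝ, e = (a : ℝ) + 1 + n := ⟨_, rfl⟩
        have hn0 : (0 : ℝ) ≤ (n : ℝ) := Nat.cast_nonneg _
        have he0 : 0 < e := by rw [he]; linarith
        have hd : (β / ((a : ℝ) + ((n + 1 : ℕ) : ℝ) + 2) - β / ((a : ℝ) + 1 + ((n + 1 : ℕ) : ℝ))) -
            (β / ((a : ℝ) + n + 2) - β / ((a : ℝ) + 1 + n)) =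
            2 * β / (e * (e + 1) * (e + 2)) := by
          rw [← expSum_diff he0]
          push_cast
          have e1 : (a : ℝ) + ((n : ℝ) + 1) + 2 = e + 2 := by rw [he]; ring
          have e2 : (a : ℝ) + 1 + ((n : ℝ) + 1) = e + 1 := by rw [he]; ring
          have e3 : (a : ℝ) + (n : ℝ) + 2 = e + 1 := by rw [he]; ring
          rw [e1, e2, e3, ← he]
        show β / (4 * (a : ℝ) ^ 3) ≤
          (β / ((a : ℝ) + ((n + 1 : ℕ) : ℝ) + 2) - β / ((a : ℝ) + 1 + ((n + 1 : ℕ) : ℝ))) -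
            (β / ((a : ℝ) + n + 2) - β / ((a : ℝ) + 1 + n))
        rw [hd]
        have he2 : e + 1 ≤ 2 * (a : ℝ) := by
          have h1 : a + n + 2 ≤ 2 * a := by omega
          have h2 : (a : ℝ) + n + 2 ≤ 2 * a := by exact_mod_cast h1
          rw [he]
          linarith
        have hprod : e * (e + 1) * (e + 2) ≤ 8 * (a : ℝ) ^ 3 := by
          calc e * (e + 1) * (e + 2) ≤ (e + 1) ^ 3 := by nlinarith
            _ ≤ (2 * (a : ℝ)) ^ 3 := pow_le_pow_left₀ (by linarith) he2 3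
            _ = 8 * (a : ℝ) ^ 3 := by ring
        rw [div_le_div_iff₀ (by positivity) (by positivity)]
        nlinarith)
      (by
        intro n hn
        obtain ⟨e, he⟩ : ∃ e : ℝ, e = (a : ℝ) + 1 + n := ⟨_, rfl⟩
        have hn0 : (0 : ℝ) ≤ (n : ℝ) := Nat.cast_nonneg _
        have he0 : 0 < e := by rw [he]; linarith
        have hea : (a : ℝ) ≤ e := by rw [he]; linarith
        have hd : (β / ((a : ℝ) + ((n + 1 : ℕ) : ℝ) + 2) - β / ((a : ℝ) + 1 + ((n + 1 : ℕ) : ℝ))) -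
            (β / ((a : ℝ) + n + 2) - β / ((a : ℝ) + 1 + n)) =
            2 * β / (e * (e + 1) * (e + 2)) := by
          rw [← expSum_diff he0]
          push_cast
          have e1 : (a : ℝ) + ((n : ℝ) + 1) + 2 = e + 2 := by rw [he]; ring
          have e2 : (a : ℝ) + 1 + ((n : ℝ) + 1) = e + 1 := by rw [he]; ring
          have e3 : (a : ℝ) + (n : ℝ) + 2 = e + 1 := by rw [he]; ring
          rw [e1, e2, e3, ← he]
        show (β / ((a : ℝ) + ((n + 1 : ℕ) : ℝ) + 2) - β / ((a : ℝ) + 1 + ((n + 1 : ℕ) : ℝ))) -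
            (β / ((a : ℝ) + n + 2) - β / ((a : ℝ) + 1 + n)) ≤ 8 * (β / (4 * (a : ℝ) ^ 3))
        rw [hd]
        have hprod : (a : ℝ) ^ 3 ≤ e * (e + 1) * (e + 2) := by
          calc (a : ℝ) ^ 3 ≤ e ^ 3 := pow_le_pow_left₀ ha0.le hea 3
            _ ≤ e * (e + 1) * (e + 2) := by nlinarith [sq_nonneg e]
        have h3 : 8 * (β / (4 * (a : ℝ) ^ 3)) = 2 * β / (a : ℝ) ^ 3 := by
          field_simp
          ring
        rw [h3]
        exact div_le_div_of_nonneg_left (by positivity) (by positivity) hprod)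
      hcase
    refine key.trans ?_
    rw [hlam]
    have h1 : (8 * (β / (4 * (a : ℝ) ^ 3)) * N + 2) * (5 / (√(β / (a : ℝ) ^ 3) / 2)) =
        20 * (N * √(β / (a : ℝ) ^ 3)) + 20 * (1 / √(β / (a : ℝ) ^ 3)) := by
      have hsq : β / (a : ℝ) ^ 3 = √(β / (a : ℝ) ^ 3) ^ 2 := (Real.sq_sqrt (by positivity)).symm
      have h4 : 8 * (β / (4 * (a : ℝ) ^ 3)) = 2 * √(β / (a : ℝ) ^ 3) ^ 2 := by
        rw [← hsq]
        field_simp
        ring
      rw [h4]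
      field_simp
      ring
    rw [h1, hr2]
    have h2 : (N : ℝ) * √(β / (a : ℝ) ^ 3) ≤ (a : ℝ) * √(β / (a : ℝ) ^ 3) :=
      mul_le_mul_of_nonneg_right hNaR hr0.le
    rw [hr1] at h2
    linarith
  · push Not at hcase
    rw [hlam] at hcase
    have h1 : ‖∑ m ∈ range N, ee (β / ((a : ℝ) + 1 + m))‖ ≤ (N : ℝ) := by
      refine (norm_sum_le _ _).trans ?_
      rw [Finset.sum_congr rfl (fun m _ => Pool.Agent.Helper64.QRH.norm_ee _)]
      simp
    have h2 : (a : ℝ) ≤ 2 * √(β / a) := by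
      rw [← hr1]
      nlinarith
    linarith

end Pool.Agent.Helper19.LPF
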