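import Pool.Agent.Helper19.LPF.Cnt

/-!
# LPF-12: Legendre sieve by 2, 3, 5, 7

`S n = Σ_{p ∈ SP n} log p ≤ (21/20) L * card (SP n)` (`log_Z_le`), `L = log n`.
`card (SP n) ≤ Σ_{d ∈ (n, Z], gcd(d, 210) = 1} #{m ∈ W n : d ∣ m}` (each `p ∈ SP n` is a prime `> n > 7`, so coprime
to `210`, and divides at least one element of the window)
`= Σ_{ν ∣ 210} μ(ν) cnt n ν`.
`cnt_bound` for the 16 divisors `ν` of `210` (`ν ≤ 210`, so `Z n ≤ 2 ^ J (n - 210) ≤ 2 ^ J (n - ν)`):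
* main term `h (L/20) Σ_{ν ∣ 210} μ(ν) / ν = h (L/20) (48/210)`;
* errors: `Σ_{ν ∣ 210} ν ^ (-1/3) = ∏ (1 + p ^ (-1/3)) ≤ 1.7938 * 1.6934 * 1.5849 * 1.5228 ≤ 7.3315`, and
  `20.6 * 7.3315 ≤ 151.1`; `Σ 1/ν = 96/35 ≤ 2.7429`, `62.2 * 2.7429 ≤ 171`; `16 * 2 = 32`.
-/

set_option autoImplicit false
open Finset

namespace Pool.Agent.Helper19.LPF

/-- the divisors of `210` -/
def legD : Finset ℕ := {1, 2, 3, 5, 6, 7, 10, 14, 15, 21, 30, 35, 42, 70, 105, 210}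

/-- the Moebius function on the divisors of `210` -/
def legS (ν : ℕ) : ℤ := if ν ∈ ({2, 3, 5, 7, 30, 42, 70, 105} : Finset ℕ) then -1 else 1

theorem leg_dvd : ∀ ν ∈ legD, ν ∣ 210 := by decide +kernel

theorem leg_key : ∀ r : ℕ, r < 210 →
    ∑ ν ∈ legD, legS ν * (if ν ∣ r then 1 else 0) = if Nat.Coprime r 210 then 1 else 0 := by
  decide +kernel

theorem leg_ind (d : ℕ) :
    ∑ ν ∈ legD, legS ν * (if ν ∣ d then 1 else 0) = if Nat.Coprime d 210 then 1 else 0 := by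
  have h1 : Nat.Coprime d 210 ↔ Nat.Coprime (d % 210) 210 := by
    unfold Nat.Coprime
    rw [Nat.gcd_comm d 210, Nat.gcd_rec 210 d]
  have h0 : (if Nat.Coprime d 210 then (1 : ℤ) else 0) = if Nat.Coprime (d % 210) 210 then 1 else 0 := by
    by_cases h : Nat.Coprime d 210
    · rw [if_pos h, if_pos (h1.1 h)]
    · rw [if_neg h, if_neg (fun h3 => h (h1.2 h3))]
  rw [h0, ← leg_key (d % 210) (Nat.mod_lt _ (by norm_num))]
  refine Finset.sum_congr rfl fun ν hν => ?_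
  have h2 : ν ∣ d ↔ ν ∣ d % 210 := (Nat.dvd_mod_iff (leg_dvd ν hν)).symm
  by_cases h : ν ∣ d
  · rw [if_pos h, if_pos (h2.1 h)]
  · rw [if_neg h, if_neg (fun h3 => h (h2.2 h3))]

theorem leg_coprime {p : ℕ} (hp : p.Prime) (h7 : 7 < p) : Nat.Coprime p 210 := by
  have h : Nat.Coprime p 210 := by
    rw [Nat.Prime.coprime_iff_not_dvd hp]
    intro h1
    have h2 : p ∣ 2 * 3 * 5 * 7 := by norm_num; exact h1
    rcases (Nat.Prime.dvd_mul hp).1 h2 with h3 | h3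
    · rcases (Nat.Prime.dvd_mul hp).1 h3 with h4 | h4
      · rcases (Nat.Prime.dvd_mul hp).1 h4 with h5 | h5
        · exact absurd (Nat.le_of_dvd (by norm_num) h5) (by omega)
        · exact absurd (Nat.le_of_dvd (by norm_num) h5) (by omega)
      · exact absurd (Nat.le_of_dvd (by norm_num) h4) (by omega)
    · exact absurd (Nat.le_of_dvd (by norm_num) h3) (by omega)
  exact h

theorem leg_card (n : ℕ) (hn : 7 ≤ n) :
    ((SP n).card : ℤ) ≤ ∑ ν ∈ legD, legS ν * (cnt n ν : ℤ) := by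
  have h1 : ∀ ν, (cnt n ν : ℤ) = ∑ d ∈ Ioc n (Z n),
      (((W n).filter (fun m => d ∣ m)).card : ℤ) * (if ν ∣ d then 1 else 0) := by
    intro ν
    unfold cnt
    rw [Finset.sum_filter]
    push_cast
    refine Finset.sum_congr rfl fun d _ => ?_
    split_ifs <;> simp
  have h2 : ∑ ν ∈ legD, legS ν * (cnt n ν : ℤ) = ∑ d ∈ Ioc n (Z n),
      (((W n).filter (fun m => d ∣ m)).card : ℤ) * (if Nat.Coprime d 210 then 1 else 0) := by
    simp_rw [h1, Finset.mul_sum]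
    rw [Finset.sum_comm]
    refine Finset.sum_congr rfl fun d _ => ?_
    rw [← leg_ind d, Finset.mul_sum]
    refine Finset.sum_congr rfl fun ν _ => ?_
    ring
  rw [h2]
  have h3 : ((SP n).card : ℤ) = ∑ p ∈ SP n, (1 : ℤ) := by simp
  rw [h3]
  have hsub : SP n ⊆ Ioc n (Z n) := Finset.filter_subset _ _
  refine le_trans (Finset.sum_le_sum (g := fun d =>
    (((W n).filter (fun m => d ∣ m)).card : ℤ) * (if Nat.Coprime d 210 then 1 else 0)) ?_)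
    (Finset.sum_le_sum_of_subset_of_nonneg hsub ?_)
  · intro p hp
    unfold SP at hp
    rw [Finset.mem_filter, Finset.mem_Ioc] at hp
    obtain ⟨⟨hp1, _⟩, hp2, m, hm, hpm⟩ := hp
    rw [if_pos (leg_coprime hp2 (by omega)), mul_one]
    have h4 : 0 < ((W n).filter (fun m => p ∣ m)).card :=
      Finset.card_pos.2 ⟨m, Finset.mem_filter.2 ⟨hm, hpm⟩⟩
    exact_mod_cast h4
  · intro d _ _
    split_ifs
    · simp
    · simp

/-- upper bounds for `ν ^ (-1/3)` -/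
theorem leg_root {ν : ℕ} {c x : ℝ} (hν : 1 ≤ ν) (hx : 0 ≤ x) (hc : 0 ≤ c) (h : 1 ≤ c ^ 3 * ν) :
    (x / ν) ^ (1 / 3 : ℝ) ≤ c * x ^ (1 / 3 : ℝ) := by
  have hν' : (0 : ℝ) < ν := by exact_mod_cast hν
  have h1 : x / ν ≤ c ^ 3 * x := by
    rw [div_le_iff₀ hν']
    nlinarith
  have h2 : (x / ν) ^ (1 / 3 : ℝ) ≤ (c ^ 3 * x) ^ (1 / 3 : ℝ) :=
    Real.rpow_le_rpow (by positivity) h1 (by norm_num)
  have h3 : (c ^ 3 * x) ^ (1 / 3 : ℝ) = c * x ^ (1 / 3 : ℝ) := by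
    rw [Real.mul_rpow (by positivity) hx, ← Real.rpow_natCast c 3, ← Real.rpow_mul hc]
    norm_num
  rw [h3] at h2
  exact h2

theorem leg_sum (n J : ℕ) (hn : 1000 ≤ n) (hJ : Z n ≤ 2 ^ J * (n - 210)) :
    ∑ ν ∈ legD, (legS ν : ℝ) * (cnt n ν : ℝ) ≤
      48 / 210 * n.totient * (Real.log n / 20) + 151.1 * (J : ℝ) * ((n : ℝ) ^ 2 + n) ^ (1 / 3 : ℝ)
        + 171 * (n : ℝ) ^ (23 / 40 : ℝ) + 32 := by
  have hb : ∀ (ν : ℕ) (c : ℝ), 1 ≤ ν → ν ≤ 210 → 0 ≤ c → 1 ≤ c ^ 3 * ν →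
      |(cnt n ν : ℝ) - (n.totient : ℝ) / ν * (Real.log n / 20)| ≤
      20.6 * (J : ℝ) * (c * ((n : ℝ) ^ 2 + n) ^ (1 / 3 : ℝ))
        + 62.2 * (n : ℝ) ^ (23 / 40 : ℝ) / ν + 2 := by
    intro ν c hν1 hν2 hc h1
    have h2 := cnt_bound n ν J hν1 (by omega)
      (hJ.trans (Nat.mul_le_mul_left _ (by omega)))
    have h3 := leg_root (x := (n : ℝ) ^ 2 + n) hν1 (by positivity) hc h1
    have h4 : 20.6 * (J : ℝ) * (((n : ℝ) ^ 2 + n) / ν) ^ (1 / 3 : ℝ) ≤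
        20.6 * (J : ℝ) * (c * ((n : ℝ) ^ 2 + n) ^ (1 / 3 : ℝ)) :=
      mul_le_mul_of_nonneg_left h3 (mul_nonneg (by norm_num) (Nat.cast_nonneg J))
    linarith
  obtain ⟨X, hX⟩ : ∃ X, X = ((n : ℝ) ^ 2 + n) ^ (1 / 3 : ℝ) := ⟨_, rfl⟩
  obtain ⟨Y, hY⟩ : ∃ Y, Y = (n : ℝ) ^ (23 / 40 : ℝ) := ⟨_, rfl⟩
  obtain ⟨T, hT⟩ : ∃ T, T = (n.totient : ℝ) * (Real.log n / 20) := ⟨_, rfl⟩
  have hX0 : 0 ≤ X := by rw [hX]; positivity
  have hY0 : 0 ≤ Y := by rw [hY]; positivity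
  rw [← hX, ← hY]
  simp only [← hX, ← hY] at hb
  have b1 := hb 1 1 (by norm_num) (by norm_num) (by norm_num) (by norm_num)
  have b2 := hb 2 0.7938 (by norm_num) (by norm_num) (by norm_num) (by norm_num)
  have b3 := hb 3 0.6934 (by norm_num) (by norm_num) (by norm_num) (by norm_num)
  have b5 := hb 5 0.5849 (by norm_num) (by norm_num) (by norm_num) (by norm_num)
  have b6 := hb 6 0.5504 (by norm_num) (by norm_num) (by norm_num) (by norm_num)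
  have b7 := hb 7 0.5228 (by norm_num) (by norm_num) (by norm_num) (by norm_num)
  have b10 := hb 10 0.4642 (by norm_num) (by norm_num) (by norm_num) (by norm_num)
  have b14 := hb 14 0.4150 (by norm_num) (by norm_num) (by norm_num) (by norm_num)
  have b15 := hb 15 0.4055 (by norm_num) (by norm_num) (by norm_num) (by norm_num)
  have b21 := hb 21 0.3625 (by norm_num) (by norm_num) (by norm_num) (by norm_num)
  have b30 := hb 30 0.3219 (by norm_num) (by norm_num) (by norm_num) (by norm_num)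
  have b35 := hb 35 0.3058 (by norm_num) (by norm_num) (by norm_num) (by norm_num)
  have b42 := hb 42 0.2877 (by norm_num) (by norm_num) (by norm_num) (by norm_num)
  have b70 := hb 70 0.2427 (by norm_num) (by norm_num) (by norm_num) (by norm_num)
  have b105 := hb 105 0.2120 (by norm_num) (by norm_num) (by norm_num) (by norm_num)
  have b210 := hb 210 0.1683 (by norm_num) (by norm_num) (by norm_num) (by norm_num)
  have hJX : 0 ≤ (J : ℝ) * X := mul_nonneg (Nat.cast_nonneg J) hX0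
  have hsum : ∑ ν ∈ legD, (legS ν : ℝ) * (cnt n ν : ℝ) =
      (cnt n 1 : ℝ) - cnt n 2 - cnt n 3 - cnt n 5 + cnt n 6 - cnt n 7 + cnt n 10 + cnt n 14
        + cnt n 15 + cnt n 21 - cnt n 30 + cnt n 35 - cnt n 42 - cnt n 70 - cnt n 105
        + cnt n 210 := by
    simp [legD, legS]
    ring
  rw [hsum]
  have hTe : ∀ ν : ℝ, (n.totient : ℝ) / ν * (Real.log n / 20) = T / ν := by
    intro ν
    rw [hT]
    ring
  simp only [hTe] at b1 b2 b3 b5 b6 b7 b10 b14 b15 b21 b30 b35 b42 b70 b105 b210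
  have hTf : 48 / 210 * (n.totient : ℝ) * (Real.log n / 20) = 48 / 210 * T := by
    rw [hT]
    ring
  rw [hTf]
  have hm : ∀ c : ℝ, 20.6 * (J : ℝ) * (c * X) = 20.6 * c * ((J : ℝ) * X) := by
    intro c
    ring
  rw [hm] at b1 b2 b3 b5 b6 b7 b10 b14 b15 b21 b30 b35 b42 b70 b105 b210
  have hm' : 151.1 * (J : ℝ) * X = 151.1 * ((J : ℝ) * X) := by ring
  rw [hm']
  push_cast at b1 b2 b3 b5 b6 b7 b10 b14 b15 b21 b30 b35 b42 b70 b105 b210
  rw [abs_le] at b1 b2 b3 b5 b6 b7 b10 b14 b15 b21 b30 b35 b42 b70 b105 b210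
  generalize (J : ℝ) * X = Q at *
  obtain ⟨b1, -, b1'⟩ := And.intro b1.1 b1
  obtain ⟨b2, -⟩ := b2
  obtain ⟨b3, -⟩ := b3
  obtain ⟨b5, -⟩ := b5
  obtain ⟨-, b6⟩ := b6
  obtain ⟨b7, -⟩ := b7
  obtain ⟨-, b10⟩ := b10
  obtain ⟨-, b14⟩ := b14
  obtain ⟨-, b15⟩ := b15
  obtain ⟨-, b21⟩ := b21
  obtain ⟨b30, -⟩ := b30
  obtain ⟨-, b35⟩ := b35
  obtain ⟨b42, -⟩ := b42
  obtain ⟨b70, -⟩ := b70
  obtain ⟨b105, -⟩ := b105
  obtain ⟨-, b210⟩ := b210
  linarith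

theorem leg (n J : ℕ) (hn : 1000 ≤ n) (hJ : Z n ≤ 2 ^ J * (n - 210)) :
    S n ≤ 21 / 20 * Real.log n *
      (48 / 210 * n.totient * (Real.log n / 20) + 151.1 * (J : ℝ) * ((n : ℝ) ^ 2 + n) ^ (1 / 3 : ℝ)
        + 171 * (n : ℝ) ^ (23 / 40 : ℝ) + 32) := by
  have hL : 0 ≤ Real.log n := Real.log_natCast_nonneg n
  have h1 : S n ≤ ((SP n).card : ℝ) * (21 / 20 * Real.log n) := by
    unfold S
    rw [← nsmul_eq_mul]
    refine Finset.sum_le_card_nsmul _ _ _ fun p hp => ?_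
    unfold SP at hp
    rw [Finset.mem_filter, Finset.mem_Ioc] at hp
    have h2 : (0 : ℝ) < p := by
      have := hp.1.1
      exact_mod_cast (by omega : 0 < p)
    have h3 : (p : ℝ) ≤ Z n := by exact_mod_cast hp.1.2
    exact (Real.log_le_log h2 h3).trans (log_Z_le (by omega))
  have h2 : ((SP n).card : ℝ) ≤ ∑ ν ∈ legD, (legS ν : ℝ) * (cnt n ν : ℝ) := by
    have := leg_card n (by omega)
    exact_mod_cast this
  have h3 := leg_sum n J hn hJ
  calc S n ≤ ((SP n).card : ℝ) * (21 / 20 * Real.log n) := h1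
    _ ≤ _ := by
        rw [mul_comm]
        exact mul_le_mul_of_nonneg_left (h2.trans h3) (by positivity)

end Pool.Agent.Helper19.LPF
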