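import Mathlib

/-!
# LPF-15: numerical inequality, `5000 ≤ x ≤ 10 ^ 12`

Divide by `x`; with `L = log x` the claim is `g(L) - δ(L) > 0`, where
  `g(L) = (9/10 L + log ρ + 1) / ρ - 1.04 exp(L / 20)`,
  `δ(L) = exp(-L/3) (4.05 + L/8) + 1.02 L exp(-L/2) + (L + 2) exp(-L)`.
`δ` is decreasing for `L ≥ 3` (each of the three terms; e.g. `L exp(-L/2)` is decreasing for `L ≥ 2`), so on a range
`x0 ≤ x ≤ x1` it is at most its value at `x0`; and by convexity of `exp` (`convexOn_exp`), `exp(L/20)` is below its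
chord on `[log x0, log x1]`, so `g` is at least the minimum of its values at the two end points. Values
(range; ρ; g at left end; g at right end; δ at left end):
  [5000, 30030]: 4.8125; 0.5350; 0.7209; 0.4241
  [30030, 510510]: 5.2136; 0.5468; 0.7709; 0.2329
  [510510, 9699690]: 5.5394; 0.6185; 0.7786; 0.0900
  [9699690, 223092870]: 5.8472; 0.6245; 0.7126; 0.0337
  [223092870, 6469693230]: 6.1130; 0.5706; 0.5677; 0.0120
  [6469693230, 200560490130]: 6.3313; 0.4427; 0.3281; 0.0040
  [200560490130, 10 ^ 12]: 6.5423; 0.1993; 0.1007; 0.0013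
The smallest margin is 0.099 (right end) and 0.1109 (left end of the first range); everything else is > 0.3.
Convenient: replace `L` by rational enclosures of the logarithms of the end points (`log 5000 ∈ [8.517, 8.518]`,
`log 30030 ∈ [10.309, 10.311]`, `log 510510 ∈ [13.143, 13.144]`, `log 9699690 ∈ [16.087, 16.088]`,
`log 223092870 ∈ [19.223, 19.224]`, `log 6469693230 ∈ [22.590, 22.591]`, `log 200560490130 ∈ [26.024, 26.025]`,
`log (10 ^ 12) ∈ [27.631, 27.632]`), or work with `t = x ^ (1/20)` and `log t`.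
-/

set_option autoImplicit false

namespace Pool.Agent.Helper19.LPF

private lemma numA_e_lt : Real.exp 1 < 2.7182818286 := Real.exp_one_lt_d9
private lemma numA_e_gt : 2.7182818283 < Real.exp 1 := Real.exp_one_gt_d9

private lemma numA_exp_pow (y : ℝ) (p k : ℕ) (h : y * k = p) :
    Real.exp y ^ k = Real.exp 1 ^ p := by
  rw [← Real.exp_nat_mul, ← Real.exp_nat_mul]
  congr 1
  rw [mul_one, mul_comm, h]

private lemma numA_exp_le (y E : ℝ) (p k : ℕ) (hk : k ≠ 0) (h : y * k = p) (hE : 0 ≤ E)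
    (h2 : (2.7182818286 : ℝ) ^ p ≤ E ^ k) : Real.exp y ≤ E := by
  rw [← pow_le_pow_iff_left₀ (Real.exp_pos y).le hE hk, numA_exp_pow y p k h]
  exact le_trans (pow_le_pow_left₀ (Real.exp_pos 1).le numA_e_lt.le p) h2

private lemma numA_le_exp (y E : ℝ) (p k : ℕ) (hk : k ≠ 0) (h : y * k = p) (hE : 0 ≤ E)
    (h2 : E ^ k ≤ (2.7182818283 : ℝ) ^ p) : E ≤ Real.exp y := by
  rw [← pow_le_pow_iff_left₀ hE (Real.exp_pos y).le hk, numA_exp_pow y p k h]
  exact le_trans h2 (pow_le_pow_left₀ (by norm_num) numA_e_gt.le p)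

private lemma numA_exp_neg_le (y F : ℝ) (p k : ℕ) (hk : k ≠ 0) (h : y * k = p) (hF : 0 < F)
    (h2 : (F⁻¹) ^ k ≤ (2.7182818283 : ℝ) ^ p) : Real.exp (-y) ≤ F := by
  rw [Real.exp_neg]
  have h3 := numA_le_exp y F⁻¹ p k hk h (by positivity) h2
  exact inv_le_of_inv_le₀ hF h3

private lemma numA_core (x ρ a b E0 E1 F1 F2 F3 lr : ℝ) (hx : 0 < x) (ha : a ≤ Real.log x)
    (hb : Real.log x ≤ b) (hab : a < b) (ha2 : 2 ≤ a) (hE0 : Real.exp (a / 20) ≤ E0)
    (hE1 : Real.exp (b / 20) ≤ E1) (hF1 : Real.exp (-(a / 3)) ≤ F1)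
    (hF2 : Real.exp (-(a / 2)) ≤ F2) (hF3 : Real.exp (-a) ≤ F3) (hρ : 0 < ρ)
    (hlr : lr ≤ Real.log ρ)
    (c0 : 1.04 * E0 + F1 * (4.05 + a / 8) + 1.02 * (a * F2) + (a + 2) * F3 <
      (0.9 * a + lr + 1) / ρ)
    (c1 : 1.04 * E1 + F1 * (4.05 + a / 8) + 1.02 * (a * F2) + (a + 2) * F3 <
      (0.9 * b + lr + 1) / ρ) :
    1.04 * x ^ (21 / 20 : ℝ) + x ^ (2 / 3 : ℝ) * (4.05 + Real.log x / 8)
        + 1.02 * √x * Real.log x + Real.log x + 2 <
      x / ρ * (9 / 10 * Real.log x + Real.log ρ + 1) := by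
  obtain ⟨L, hL⟩ : ∃ L, L = Real.log x := ⟨_, rfl⟩
  rw [← hL] at ha hb ⊢
  have hxL : x = Real.exp L := by rw [hL, Real.exp_log hx]
  -- powers of x
  have e1 : x ^ (21 / 20 : ℝ) = x * Real.exp (L / 20) := by
    rw [Real.rpow_def_of_pos hx, ← hL, show L * (21 / 20 : ℝ) = L + L / 20 by ring, Real.exp_add,
      ← hxL]
  have e2 : x ^ (2 / 3 : ℝ) = x * Real.exp (-(L / 3)) := by
    rw [Real.rpow_def_of_pos hx, ← hL, show L * (2 / 3 : ℝ) = L + -(L / 3) by ring, Real.exp_add,
      ← hxL]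
  have e3 : √x = x * Real.exp (-(L / 2)) := by
    rw [Real.sqrt_eq_rpow, Real.rpow_def_of_pos hx, ← hL,
      show L * (1 / 2 : ℝ) = L + -(L / 2) by ring, Real.exp_add, ← hxL]
  have e4 : (1 : ℝ) = x * Real.exp (-L) := by
    nth_rewrite 1 [hxL]
    rw [← Real.exp_add]; simp
  -- upper bounds
  have hba : 0 < b - a := by linarith
  have u1 : Real.exp (L / 20) ≤ ((b - L) / (b - a)) * E0 + ((L - a) / (b - a)) * E1 := by
    have hc := convexOn_exp.2 (Set.mem_univ (a / 20)) (Set.mem_univ (b / 20))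
      (div_nonneg (by linarith) hba.le : 0 ≤ (b - L) / (b - a))
      (div_nonneg (by linarith) hba.le : 0 ≤ (L - a) / (b - a))
      (by field_simp; ring)
    simp only [smul_eq_mul] at hc
    have e5 : (b - L) / (b - a) * (a / 20) + (L - a) / (b - a) * (b / 20) = L / 20 := by
      field_simp; ring
    rw [e5] at hc
    refine hc.trans (add_le_add (mul_le_mul_of_nonneg_left hE0 ?_) (mul_le_mul_of_nonneg_left hE1 ?_))
    · exact div_nonneg (by linarith) hba.le
    · exact div_nonneg (by linarith) hba.le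
  have dec : ∀ (c : ℝ) (m : ℝ) (F : ℝ), 0 < m → Real.exp (-(a / m)) ≤ F → 0 ≤ c →
      Real.exp (-(L / m)) * (1 + (L - a) / m) ≤ F := by
    intro c m F hm hF _
    have h1 : (L - a) / m + 1 ≤ Real.exp ((L - a) / m) := Real.add_one_le_exp _
    have h2 : Real.exp (-(L / m)) * Real.exp ((L - a) / m) = Real.exp (-(a / m)) := by
      rw [← Real.exp_add]; congr 1; field_simp; ring
    calc Real.exp (-(L / m)) * (1 + (L - a) / m) ≤ Real.exp (-(L / m)) * Real.exp ((L - a) / m) := by
          apply mul_le_mul_of_nonneg_left _ (Real.exp_pos _).le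
          linarith
      _ = Real.exp (-(a / m)) := h2
      _ ≤ F := hF
  have u2 : Real.exp (-(L / 3)) * (4.05 + L / 8) ≤ F1 * (4.05 + a / 8) := by
    have h1 := dec 0 3 F1 (by norm_num) hF1 le_rfl
    have h2 : 4.05 + L / 8 ≤ (1 + (L - a) / 3) * (4.05 + a / 8) := by nlinarith
    calc Real.exp (-(L / 3)) * (4.05 + L / 8)
        ≤ Real.exp (-(L / 3)) * ((1 + (L - a) / 3) * (4.05 + a / 8)) :=
          mul_le_mul_of_nonneg_left h2 (Real.exp_pos _).le
      _ = (Real.exp (-(L / 3)) * (1 + (L - a) / 3)) * (4.05 + a / 8) := by ring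
      _ ≤ F1 * (4.05 + a / 8) := mul_le_mul_of_nonneg_right h1 (by linarith)
  have u3 : Real.exp (-(L / 2)) * L ≤ a * F2 := by
    have h1 := dec 0 2 F2 (by norm_num) hF2 le_rfl
    have h2 : L ≤ (1 + (L - a) / 2) * a := by nlinarith
    calc Real.exp (-(L / 2)) * L
        ≤ Real.exp (-(L / 2)) * ((1 + (L - a) / 2) * a) :=
          mul_le_mul_of_nonneg_left h2 (Real.exp_pos _).le
      _ = (Real.exp (-(L / 2)) * (1 + (L - a) / 2)) * a := by ring
      _ ≤ F2 * a := mul_le_mul_of_nonneg_right h1 (by linarith)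
      _ = a * F2 := mul_comm _ _
  have u4 : Real.exp (-L) * (L + 2) ≤ (a + 2) * F3 := by
    have h1 := dec 0 1 F3 (by norm_num) (by simpa using hF3) le_rfl
    simp only [div_one] at h1
    have h2 : L + 2 ≤ (1 + (L - a)) * (a + 2) := by nlinarith
    calc Real.exp (-L) * (L + 2)
        ≤ Real.exp (-L) * ((1 + (L - a)) * (a + 2)) :=
          mul_le_mul_of_nonneg_left h2 (Real.exp_pos _).le
      _ = (Real.exp (-L) * (1 + (L - a))) * (a + 2) := by ring
      _ ≤ F3 * (a + 2) := mul_le_mul_of_nonneg_right h1 (by linarith)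
      _ = (a + 2) * F3 := mul_comm _ _
  -- the linear inequality
  have lin : 1.04 * (((b - L) / (b - a)) * E0 + ((L - a) / (b - a)) * E1) + F1 * (4.05 + a / 8)
      + 1.02 * (a * F2) + (a + 2) * F3 < (0.9 * L + lr + 1) / ρ := by
    obtain ⟨t, ht⟩ : ∃ t, t = (L - a) / (b - a) := ⟨_, rfl⟩
    have ht0 : 0 ≤ t := by rw [ht]; exact div_nonneg (by linarith) hba.le
    have ht1 : (b - L) / (b - a) = 1 - t := by rw [ht]; field_simp; ring
    have ht2 : 0 ≤ 1 - t := by rw [← ht1]; exact div_nonneg (by linarith) hba.le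
    have hLt : L = (1 - t) * a + t * b := by rw [ht]; field_simp; ring
    rw [ht1, ← ht]
    have hr : (0.9 * L + lr + 1) / ρ =
        (1 - t) * ((0.9 * a + lr + 1) / ρ) + t * ((0.9 * b + lr + 1) / ρ) := by
      rw [hLt]; field_simp; ring
    rw [hr]
    have k0 := mul_nonneg ht2 (sub_pos.2 c0).le
    have k1 := mul_nonneg ht0 (sub_pos.2 c1).le
    rcases lt_or_ge t (1 / 2) with h | h
    · have k2 : 0 < (1 - t) * ((0.9 * a + lr + 1) / ρ -
          (1.04 * E0 + F1 * (4.05 + a / 8) + 1.02 * (a * F2) + (a + 2) * F3)) :=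
        mul_pos (by linarith) (sub_pos.2 c0)
      linarith
    · have k2 : 0 < t * ((0.9 * b + lr + 1) / ρ -
          (1.04 * E1 + F1 * (4.05 + a / 8) + 1.02 * (a * F2) + (a + 2) * F3)) :=
        mul_pos (by linarith) (sub_pos.2 c1)
      linarith
  have lin2 : (0.9 * L + lr + 1) / ρ ≤ (9 / 10 * L + Real.log ρ + 1) / ρ := by
    apply div_le_div_of_nonneg_right _ hρ.le
    linarith
  have tot : 1.04 * Real.exp (L / 20) + Real.exp (-(L / 3)) * (4.05 + L / 8)
      + 1.02 * (Real.exp (-(L / 2)) * L) + Real.exp (-L) * (L + 2) <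
      (9 / 10 * L + Real.log ρ + 1) / ρ := by linarith
  have key := mul_lt_mul_of_pos_left tot hx
  have lhs : 1.04 * x ^ (21 / 20 : ℝ) + x ^ (2 / 3 : ℝ) * (4.05 + L / 8)
        + 1.02 * √x * L + L + 2 = x * (1.04 * Real.exp (L / 20) +
          Real.exp (-(L / 3)) * (4.05 + L / 8)
      + 1.02 * (Real.exp (-(L / 2)) * L) + Real.exp (-L) * (L + 2)) := by
    rw [e1, e2, e3]
    have : L + 2 = x * Real.exp (-L) * (L + 2) := by rw [← e4, one_mul]
    linear_combination this
  rw [lhs]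
  refine key.trans_eq ?_
  ring

private lemma numA_log_ge (x a X : ℝ) (p : ℕ) (hx : X ≤ x) (hX : 0 < X) (ha : a * 4 = p)
    (h2 : (2.7182818286 : ℝ) ^ p ≤ X ^ 4) : a ≤ Real.log x := by
  rw [Real.le_log_iff_exp_le (lt_of_lt_of_le hX hx)]
  exact (numA_exp_le a X p 4 (by norm_num) (by exact_mod_cast ha) hX.le h2).trans hx

private lemma numA_log_le (x b X : ℝ) (p : ℕ) (hx : x ≤ X) (hX : 0 < x) (hb : b * 4 = p)
    (h2 : X ^ 4 ≤ (2.7182818283 : ℝ) ^ p) : Real.log x ≤ b := by
  rw [Real.log_le_iff_le_exp hX]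
  exact hx.trans (numA_le_exp b X p 4 (by norm_num) (by exact_mod_cast hb) (hX.le.trans hx) h2)

theorem num_A (x ρ : ℝ) (h1 : 5000 ≤ x) (h2 : x ≤ 10 ^ 12)
    (hρ : (x ≤ 30030 ∧ ρ = 4.8125) ∨ (30030 ≤ x ∧ x ≤ 510510 ∧ ρ = 5.2136) ∨
      (510510 ≤ x ∧ x ≤ 9699690 ∧ ρ = 5.5394) ∨ (9699690 ≤ x ∧ x ≤ 223092870 ∧ ρ = 5.8472) ∨
      (223092870 ≤ x ∧ x ≤ 6469693230 ∧ ρ = 6.1130) ∨
      (6469693230 ≤ x ∧ x ≤ 200560490130 ∧ ρ = 6.3313) ∨ (200560490130 ≤ x ∧ ρ = 6.5423)) :
    1.04 * x ^ (21 / 20 : ℝ) + x ^ (2 / 3 : ℝ) * (4.05 + Real.log x / 8)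
        + 1.02 * √x * Real.log x + Real.log x + 2 <
      x / ρ * (9 / 10 * Real.log x + Real.log ρ + 1) := by
  have hx : 0 < x := by linarith
  rcases hρ with ⟨g2, rfl⟩ | ⟨g1, g2, rfl⟩ | ⟨g1, g2, rfl⟩ | ⟨g1, g2, rfl⟩ | ⟨g1, g2, rfl⟩ | ⟨g1, g2, rfl⟩ | ⟨g1, rfl⟩
  · refine numA_core x _ 8.5 10.5 1.5296 1.6905 0.0589 0.0143 0.0003 1.5 hx
      (numA_log_ge x 8.5 5000 34 h1 (by norm_num) (by norm_num) (by norm_num))
      (numA_log_le x 10.5 30030 42 g2 hx (by norm_num) (by norm_num)) (by norm_num) (by norm_num)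
      (numA_exp_le _ _ 34 80 (by norm_num) (by norm_num) (by norm_num) (by norm_num))
      (numA_exp_le _ _ 42 80 (by norm_num) (by norm_num) (by norm_num) (by norm_num))
      (numA_exp_neg_le _ _ 34 12 (by norm_num) (by norm_num) (by norm_num) (by norm_num))
      (numA_exp_neg_le _ _ 34 8 (by norm_num) (by norm_num) (by norm_num) (by norm_num))
      (numA_exp_neg_le _ _ 34 4 (by norm_num) (by norm_num) (by norm_num) (by norm_num))
      (by norm_num) ?_ (by norm_num) (by norm_num)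
    rw [Real.le_log_iff_exp_le (by norm_num)]
    exact numA_exp_le _ _ 6 4 (by norm_num) (by norm_num) (by norm_num) (by norm_num)
  · refine numA_core x _ 10.25 13.25 1.6695 1.9397 0.0329 0.006 0.0001 1.5 hx
      (numA_log_ge x 10.25 30030 41 g1 (by norm_num) (by norm_num) (by norm_num))
      (numA_log_le x 13.25 510510 53 g2 hx (by norm_num) (by norm_num)) (by norm_num) (by norm_num)
      (numA_exp_le _ _ 41 80 (by norm_num) (by norm_num) (by norm_num) (by norm_num))
      (numA_exp_le _ _ 53 80 (by norm_num) (by norm_num) (by norm_num) (by norm_num))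
      (numA_exp_neg_le _ _ 41 12 (by norm_num) (by norm_num) (by norm_num) (by norm_num))
      (numA_exp_neg_le _ _ 41 8 (by norm_num) (by norm_num) (by norm_num) (by norm_num))
      (numA_exp_neg_le _ _ 41 4 (by norm_num) (by norm_num) (by norm_num) (by norm_num))
      (by norm_num) ?_ (by norm_num) (by norm_num)
    rw [Real.le_log_iff_exp_le (by norm_num)]
    exact numA_exp_le _ _ 6 4 (by norm_num) (by norm_num) (by norm_num) (by norm_num)
  · refine numA_core x _ 13 16.25 1.9156 2.2536 0.0132 0.0016 0.0001 1.5 hx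
      (numA_log_ge x 13 510510 52 g1 (by norm_num) (by norm_num) (by norm_num))
      (numA_log_le x 16.25 9699690 65 g2 hx (by norm_num) (by norm_num)) (by norm_num) (by norm_num)
      (numA_exp_le _ _ 52 80 (by norm_num) (by norm_num) (by norm_num) (by norm_num))
      (numA_exp_le _ _ 65 80 (by norm_num) (by norm_num) (by norm_num) (by norm_num))
      (numA_exp_neg_le _ _ 52 12 (by norm_num) (by norm_num) (by norm_num) (by norm_num))
      (numA_exp_neg_le _ _ 52 8 (by norm_num) (by norm_num) (by norm_num) (by norm_num))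
      (numA_exp_neg_le _ _ 52 4 (by norm_num) (by norm_num) (by norm_num) (by norm_num))
      (by norm_num) ?_ (by norm_num) (by norm_num)
    rw [Real.le_log_iff_exp_le (by norm_num)]
    exact numA_exp_le _ _ 6 4 (by norm_num) (by norm_num) (by norm_num) (by norm_num)
  · refine numA_core x _ 16 19.25 2.2256 2.6183 0.0049 0.0004 0.0001 1.75 hx
      (numA_log_ge x 16 9699690 64 g1 (by norm_num) (by norm_num) (by norm_num))
      (numA_log_le x 19.25 223092870 77 g2 hx (by norm_num) (by norm_num)) (by norm_num) (by norm_num)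
      (numA_exp_le _ _ 64 80 (by norm_num) (by norm_num) (by norm_num) (by norm_num))
      (numA_exp_le _ _ 77 80 (by norm_num) (by norm_num) (by norm_num) (by norm_num))
      (numA_exp_neg_le _ _ 64 12 (by norm_num) (by norm_num) (by norm_num) (by norm_num))
      (numA_exp_neg_le _ _ 64 8 (by norm_num) (by norm_num) (by norm_num) (by norm_num))
      (numA_exp_neg_le _ _ 64 4 (by norm_num) (by norm_num) (by norm_num) (by norm_num))
      (by norm_num) ?_ (by norm_num) (by norm_num)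
    rw [Real.le_log_iff_exp_le (by norm_num)]
    exact numA_exp_le _ _ 7 4 (by norm_num) (by norm_num) (by norm_num) (by norm_num)
  · refine numA_core x _ 19 22.75 2.5858 3.119 0.0018 0.0001 0.0001 1.75 hx
      (numA_log_ge x 19 223092870 76 g1 (by norm_num) (by norm_num) (by norm_num))
      (numA_log_le x 22.75 6469693230 91 g2 hx (by norm_num) (by norm_num)) (by norm_num) (by norm_num)
      (numA_exp_le _ _ 76 80 (by norm_num) (by norm_num) (by norm_num) (by norm_num))
      (numA_exp_le _ _ 91 80 (by norm_num) (by norm_num) (by norm_num) (by norm_num))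
      (numA_exp_neg_le _ _ 76 12 (by norm_num) (by norm_num) (by norm_num) (by norm_num))
      (numA_exp_neg_le _ _ 76 8 (by norm_num) (by norm_num) (by norm_num) (by norm_num))
      (numA_exp_neg_le _ _ 76 4 (by norm_num) (by norm_num) (by norm_num) (by norm_num))
      (by norm_num) ?_ (by norm_num) (by norm_num)
    rw [Real.le_log_iff_exp_le (by norm_num)]
    exact numA_exp_le _ _ 7 4 (by norm_num) (by norm_num) (by norm_num) (by norm_num)
  · refine numA_core x _ 22.5 26.25 3.0803 3.7155 0.0006 0.0001 0.0001 1.75 hx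
      (numA_log_ge x 22.5 6469693230 90 g1 (by norm_num) (by norm_num) (by norm_num))
      (numA_log_le x 26.25 200560490130 105 g2 hx (by norm_num) (by norm_num)) (by norm_num) (by norm_num)
      (numA_exp_le _ _ 90 80 (by norm_num) (by norm_num) (by norm_num) (by norm_num))
      (numA_exp_le _ _ 105 80 (by norm_num) (by norm_num) (by norm_num) (by norm_num))
      (numA_exp_neg_le _ _ 90 12 (by norm_num) (by norm_num) (by norm_num) (by norm_num))
      (numA_exp_neg_le _ _ 90 8 (by norm_num) (by norm_num) (by norm_num) (by norm_num))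
      (numA_exp_neg_le _ _ 90 4 (by norm_num) (by norm_num) (by norm_num) (by norm_num))
      (by norm_num) ?_ (by norm_num) (by norm_num)
    rw [Real.le_log_iff_exp_le (by norm_num)]
    exact numA_exp_le _ _ 7 4 (by norm_num) (by norm_num) (by norm_num) (by norm_num)
  · refine numA_core x _ 26 27.75 3.6693 4.0049 0.0002 0.0001 0.0001 1.75 hx
      (numA_log_ge x 26 200560490130 104 g1 (by norm_num) (by norm_num) (by norm_num))
      (numA_log_le x 27.75 (10 ^ 12) 111 h2 hx (by norm_num) (by norm_num)) (by norm_num) (by norm_num)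
      (numA_exp_le _ _ 104 80 (by norm_num) (by norm_num) (by norm_num) (by norm_num))
      (numA_exp_le _ _ 111 80 (by norm_num) (by norm_num) (by norm_num) (by norm_num))
      (numA_exp_neg_le _ _ 104 12 (by norm_num) (by norm_num) (by norm_num) (by norm_num))
      (numA_exp_neg_le _ _ 104 8 (by norm_num) (by norm_num) (by norm_num) (by norm_num))
      (numA_exp_neg_le _ _ 104 4 (by norm_num) (by norm_num) (by norm_num) (by norm_num))
      (by norm_num) ?_ (by norm_num) (by norm_num)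
    rw [Real.le_log_iff_exp_le (by norm_num)]
    exact numA_exp_le _ _ 7 4 (by norm_num) (by norm_num) (by norm_num) (by norm_num)

end Pool.Agent.Helper19.LPF
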