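import Mathlib

/-!
# LPF-16: numerical inequality, `10 ^ 12 ≤ x ≤ 10 ^ 28`

Multiply by `ρ / x`, `L = log x`. The claim is
  `9/10 L + log ρ + 1 > 1.04 ρ + (21/20)(48/210) L ^ 2 / 20 + (ρ / x) * small`, where
  `small = (21/20) L (151.1 J (x ^ 2 + x) ^ (1/3) + 171 x ^ (23/40) + 32) + x ^ (2/3) (4.05 + L/8) + 1.02 √x L + L + 2`.
`(21/20)(48/210)/20 = 0.012`. `log ρ - 1.04 ρ` is decreasing for `ρ ≥ 1`, so the worst case is the largest `ρ`.
(In Lean: `log (ρ1 / ρ) ≤ ρ1 / ρ - 1 ≤ ρ1 - ρ`, so `log ρ - ρ ≥ log ρ1 - ρ1` for `1 ≤ ρ ≤ ρ1`; and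
`0.04 ρ ≤ 0.04 ρ1`, `ρ * small ≤ ρ1 * small`.)

`num_B1`: `J = 3`, `ρ ≤ 7.21`, `27.63 ≤ L ≤ 41.45`. `log 7.21 ≥ 1.975`, `1.04 * 7.21 ≤ 7.4985`.
`0.9 L - 0.012 L ^ 2` is concave: values `24.87 - 9.162` and `37.30 - 20.62` at the ends, minimum `> 15.70`.
`(ρ / x) small` is decreasing in `x` (each term `L ^ k x ^ (-c)`), its value at `10 ^ 12` is `< 9.80`
(main part `1.05 * 27.632 * 453.3 * 7.21 * 10 ^ (-4) * (1 + 10 ^ (-12)) < 9.49`, then
`1.05 * 27.632 * 171 * 7.21 * 10 ^ (-5.1) < 0.29`, rest `< 0.01`). Total margin `1.975 + 1 - 7.4985 + 15.70 - 9.80 > 1.3`.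

`num_B2`: `J = 5`, `ρ ≤ 7.83`, `41.446 ≤ L ≤ 64.473`: `log 7.83 ≥ 2.058`, `1.04 * 7.83 ≤ 8.1433`,
`0.9 L - 0.012 L ^ 2 ≥ min(37.30 - 20.62, 58.02 - 49.89) ≥ 8.13`, `(ρ / x) small ≤ 0.28` at `x = 10 ^ 18`.
Margin `> 2.7`.
-/

set_option autoImplicit false

namespace Pool.Agent.Helper19.LPF

theorem numB_log10_lo : 2.30249 ≤ Real.log 10 := by
  have h1 : Real.log (1000 / 1024) = 3 * Real.log 10 - 10 * Real.log 2 := by
    rw [Real.log_div (by norm_num) (by norm_num)]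
    have e1 : (1000 : ℝ) = 10 ^ 3 := by norm_num
    have e2 : (1024 : ℝ) = 2 ^ 10 := by norm_num
    rw [e1, e2, Real.log_pow, Real.log_pow]
    norm_num
  have h2 := Real.one_sub_inv_le_log_of_pos (show (0 : ℝ) < 1000 / 1024 by norm_num)
  have h3 := Real.log_two_gt_d9
  rw [h1] at h2
  norm_num at h2
  linarith

theorem numB_log10_hi : Real.log 10 ≤ 2.30268 := by
  have h1 : Real.log (1000 / 1024) = 3 * Real.log 10 - 10 * Real.log 2 := by
    rw [Real.log_div (by norm_num) (by norm_num)]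
    have e1 : (1000 : ℝ) = 10 ^ 3 := by norm_num
    have e2 : (1024 : ℝ) = 2 ^ 10 := by norm_num
    rw [e1, e2, Real.log_pow, Real.log_pow]
    norm_num
  have h2 := Real.log_le_sub_one_of_pos (show (0 : ℝ) < 1000 / 1024 by norm_num)
  have h3 := Real.log_two_lt_d9
  rw [h1] at h2
  norm_num at h2
  linarith

theorem numB_anti (x x0 c B Y : ℝ) (hc : 0 < c) (h0 : 0 < x0) (hx : x0 ≤ x)
    (h1 : 1 / c ≤ Real.log x0) (hB : Real.log x0 ≤ B) (hY : 0 < Y) (hY2 : Y ≤ x0 ^ c) :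
    Real.log x / x ^ c ≤ B / Y := by
  have h2 : Real.exp c⁻¹ ≤ x0 := by
    rw [← one_div]
    calc Real.exp (1 / c) ≤ Real.exp (Real.log x0) := Real.exp_le_exp.mpr h1
      _ = x0 := Real.exp_log h0
  have h3 := Real.log_div_self_rpow_antitoneOn hc (show x0 ∈ _ from h2)
    (show x ∈ _ from h2.trans hx) hx
  have h4 : Real.log x / x ^ c ≤ Real.log x0 / x0 ^ c := h3
  have h5 : 0 ≤ Real.log x0 := le_trans (by positivity) h1
  refine h4.trans ?_
  exact div_le_div₀ (h5.trans hB) hB hY hY2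

/-- the main reduction -/
theorem numB_red (x ρ L c1 s ρ1 l1 : ℝ) (J : ℝ) (hx : 0 < x) (hρ1 : 1 ≤ ρ) (hρ2 : ρ ≤ ρ1)
    (hl : l1 ≤ Real.log ρ1) (hs0 : 0 ≤ s)
    (hs : 21 / 20 * L * (151.1 * J * c1 + 171 * x ^ (23 / 40 : ℝ) + 32)
        + x ^ (2 / 3 : ℝ) * (4.05 + L / 8) + 1.02 * √x * L + L + 2 ≤ x * s)
    (hm : (1.04 + s) * ρ1 + 0.012 * L ^ 2 < 0.9 * L + l1 + 1) :
    1.04 * x + 21 / 20 * L *
        (48 / 210 * (x / ρ) * (L / 20) + 151.1 * J * c1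
          + 171 * x ^ (23 / 40 : ℝ) + 32)
        + x ^ (2 / 3 : ℝ) * (4.05 + L / 8) + 1.02 * √x * L + L + 2 <
      x / ρ * (9 / 10 * L + Real.log ρ + 1) := by
  have hρ : 0 < ρ := by linarith
  have hρ1' : 0 < ρ1 := by linarith
  have h1 : Real.log ρ1 - Real.log ρ ≤ ρ1 - ρ := by
    rw [← Real.log_div hρ1'.ne' hρ.ne']
    have h2 := Real.log_le_sub_one_of_pos (show 0 < ρ1 / ρ by positivity)
    have h3 : ρ1 / ρ - 1 ≤ ρ1 - ρ := by
      rw [div_sub_one hρ.ne', div_le_iff₀ hρ]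
      nlinarith
    linarith
  have h4 : (1.04 + s) * ρ + 0.012 * L ^ 2 < 0.9 * L + Real.log ρ + 1 := by
    nlinarith
  have h5 : x / ρ * ((1.04 + s) * ρ + 0.012 * L ^ 2) < x / ρ * (0.9 * L + Real.log ρ + 1) :=
    mul_lt_mul_of_pos_left h4 (by positivity)
  have h6 : x / ρ * ((1.04 + s) * ρ + 0.012 * L ^ 2) = 1.04 * x + x * s + 0.012 * (x / ρ) * L ^ 2 := by
    field_simp
  have h7 : (9 / 10 : ℝ) = 0.9 := by norm_num
  rw [h7]
  have h8 : 1.04 * x + 21 / 20 * L *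
        (48 / 210 * (x / ρ) * (L / 20) + 151.1 * J * c1
          + 171 * x ^ (23 / 40 : ℝ) + 32)
        + x ^ (2 / 3 : ℝ) * (4.05 + L / 8) + 1.02 * √x * L + L + 2 =
      1.04 * x + 0.012 * (x / ρ) * L ^ 2 + (21 / 20 * L * (151.1 * J * c1 + 171 * x ^ (23 / 40 : ℝ) + 32)
        + x ^ (2 / 3 : ℝ) * (4.05 + L / 8) + 1.02 * √x * L + L + 2) := by ring
  rw [h8]
  linarith

theorem numB_small (x x0 B Y1 Y2 J s : ℝ) (hx0 : 10 ^ 12 ≤ x0) (hx : x0 ≤ x)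
    (hlo : 10 ≤ Real.log x0) (hB : Real.log x0 ≤ B) (hY1 : 0 < Y1) (hY1' : Y1 ≤ x0 ^ (1 / 3 : ℝ))
    (hY2 : 0 < Y2) (hY2' : Y2 ≤ x0 ^ (17 / 40 : ℝ)) (hJ : 0 ≤ J)
    (hs : 21 / 20 * (151.1 * J * (1 + 10⁻¹ ^ 12) * (B / Y1) + 171 * (B / Y2) + 32 * (B / 10 ^ 12))
        + (4.05 / Y1 + (B / Y1) / 8) + 1.02 * (B / 10 ^ 6) + B / 10 ^ 12 + 2 / 10 ^ 12 ≤ s) :
    21 / 20 * Real.log x * (151.1 * J * (x ^ 2 + x) ^ (1 / 3 : ℝ) + 171 * x ^ (23 / 40 : ℝ) + 32)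
        + x ^ (2 / 3 : ℝ) * (4.05 + Real.log x / 8) + 1.02 * √x * Real.log x + Real.log x + 2 ≤ x * s := by
  have hx0' : 0 < x0 := by linarith
  have hxp : 0 < x := by linarith
  have hL0 : 0 < Real.log x := by
    have := Real.log_le_log hx0' hx
    linarith
  have a1 := numB_anti x x0 (1 / 3) B Y1 (by norm_num) hx0' hx (by norm_num; linarith) hB hY1 hY1'
  have a2 := numB_anti x x0 (17 / 40) B Y2 (by norm_num) hx0' hx (by norm_num; linarith) hB hY2 hY2'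
  have a3 := numB_anti x x0 1 B (10 ^ 12) (by norm_num) hx0' hx (by norm_num; linarith) hB
    (by norm_num) (by rw [Real.rpow_one]; exact hx0)
  have a4 := numB_anti x x0 (1 / 2) B (10 ^ 6) (by norm_num) hx0' hx (by norm_num; linarith) hB
    (by norm_num) (by
      rw [← Real.sqrt_eq_rpow]
      apply Real.le_sqrt_of_sq_le
      linarith)
  rw [Real.rpow_one] at a3
  have b1 : x ^ (2 / 3 : ℝ) = x / x ^ (1 / 3 : ℝ) := by
    rw [eq_div_iff (by positivity), ← Real.rpow_add hxp]; norm_num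
  have b2 : x ^ (23 / 40 : ℝ) = x / x ^ (17 / 40 : ℝ) := by
    rw [eq_div_iff (by positivity), ← Real.rpow_add hxp]; norm_num
  have b4 : √x = x / x ^ (1 / 2 : ℝ) := by
    rw [eq_div_iff (by positivity), ← Real.sqrt_eq_rpow]; exact Real.mul_self_sqrt hxp.le
  have b3 : (x ^ 2 + x) ^ (1 / 3 : ℝ) ≤ x / x ^ (1 / 3 : ℝ) * (1 + 10⁻¹ ^ 12) := by
    have e1 : x ^ 2 + x ≤ x ^ (2 : ℝ) * (1 + 10⁻¹ ^ 12) ^ (3 : ℝ) := by
      have e2 : x ^ (2 : ℝ) = x ^ 2 := by exact_mod_cast Real.rpow_natCast x 2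
      have e3 : ((1 : ℝ) + 10⁻¹ ^ 12) ^ (3 : ℝ) = (1 + 10⁻¹ ^ 12) ^ 3 := by
        rw [← Real.rpow_natCast]; norm_num
      rw [e2, e3]
      have e4 : (1 : ℝ) + 10⁻¹ ^ 12 ≤ (1 + 10⁻¹ ^ 12) ^ 3 := by norm_num
      have e5 : x * 1 ≤ x * (x * 10⁻¹ ^ 12) := by
        apply mul_le_mul_of_nonneg_left _ hxp.le
        have : (10 : ℝ) ^ 12 * 10⁻¹ ^ 12 ≤ x * 10⁻¹ ^ 12 := by
          apply mul_le_mul_of_nonneg_right (by linarith) (by positivity)
        calc (1 : ℝ) = (10 : ℝ) ^ 12 * 10⁻¹ ^ 12 := by norm_num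
          _ ≤ _ := this
      calc x ^ 2 + x ≤ x ^ 2 * (1 + 10⁻¹ ^ 12) := by nlinarith
        _ ≤ _ := mul_le_mul_of_nonneg_left e4 (by positivity)
    calc (x ^ 2 + x) ^ (1 / 3 : ℝ) ≤ (x ^ (2 : ℝ) * (1 + 10⁻¹ ^ 12) ^ (3 : ℝ)) ^ (1 / 3 : ℝ) :=
          Real.rpow_le_rpow (by positivity) e1 (by norm_num)
      _ = x ^ (2 / 3 : ℝ) * (1 + 10⁻¹ ^ 12) := by
          rw [Real.mul_rpow (by positivity) (by positivity), ← Real.rpow_mul hxp.le,
            ← Real.rpow_mul (by positivity)]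
          norm_num
      _ = _ := by rw [b1]
  have c1 : (1 : ℝ) / x ^ (1 / 3 : ℝ) ≤ 1 / Y1 := by
    apply one_div_le_one_div_of_le hY1
    exact hY1'.trans (Real.rpow_le_rpow hx0'.le hx (by norm_num))
  have c2 : (2 : ℝ) / x ≤ 2 / 10 ^ 12 := by
    apply div_le_div_of_nonneg_left (by norm_num) (by norm_num)
    linarith
  have hJ' : 0 ≤ 151.1 * J := by positivity
  have d1 : 21 / 20 * Real.log x * (151.1 * J * (x ^ 2 + x) ^ (1 / 3 : ℝ)) ≤
      x * (21 / 20 * (151.1 * J * (1 + 10⁻¹ ^ 12) * (B / Y1))) := by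
    calc 21 / 20 * Real.log x * (151.1 * J * (x ^ 2 + x) ^ (1 / 3 : ℝ)) ≤
        21 / 20 * Real.log x * (151.1 * J * (x / x ^ (1 / 3 : ℝ) * (1 + 10⁻¹ ^ 12))) := by gcongr
      _ = x * (21 / 20 * (151.1 * J * (1 + 10⁻¹ ^ 12) * (Real.log x / x ^ (1 / 3 : ℝ)))) := by ring
      _ ≤ _ := by gcongr
  have d2 : 21 / 20 * Real.log x * (171 * x ^ (23 / 40 : ℝ)) ≤ x * (21 / 20 * (171 * (B / Y2))) := by
    rw [b2]
    calc 21 / 20 * Real.log x * (171 * (x / x ^ (17 / 40 : ℝ))) =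
        x * (21 / 20 * (171 * (Real.log x / x ^ (17 / 40 : ℝ)))) := by ring
      _ ≤ _ := by gcongr
  have d3 : Real.log x = x * (Real.log x / x) := by field_simp
  have d4 : x ^ (2 / 3 : ℝ) * (4.05 + Real.log x / 8) ≤ x * (4.05 / Y1 + (B / Y1) / 8) := by
    rw [b1]
    calc x / x ^ (1 / 3 : ℝ) * (4.05 + Real.log x / 8) =
        x * (4.05 * (1 / x ^ (1 / 3 : ℝ)) + (Real.log x / x ^ (1 / 3 : ℝ)) / 8) := by ring
      _ ≤ x * (4.05 * (1 / Y1) + (B / Y1) / 8) := by gcongr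
      _ = _ := by ring
  have d5 : 1.02 * √x * Real.log x ≤ x * (1.02 * (B / 10 ^ 6)) := by
    rw [b4]
    calc 1.02 * (x / x ^ (1 / 2 : ℝ)) * Real.log x = x * (1.02 * (Real.log x / x ^ (1 / 2 : ℝ))) := by ring
      _ ≤ _ := by gcongr
  have d6 : Real.log x ≤ x * (B / 10 ^ 12) := by
    calc Real.log x = x * (Real.log x / x) := d3
      _ ≤ _ := by gcongr
  have d7 : (2 : ℝ) ≤ x * (2 / 10 ^ 12) := by
    calc (2 : ℝ) = x * (2 / x) := by field_simp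
      _ ≤ _ := by gcongr
  have d8 := mul_le_mul_of_nonneg_left hs hxp.le
  nlinarith [d1, d2, d4, d5, d6, d7, d8]

theorem num_B1 (x ρ : ℝ) (h1 : 10 ^ 12 ≤ x) (h2 : x ≤ 10 ^ 18) (hρ1 : 1 ≤ ρ) (hρ2 : ρ ≤ 7.21) :
    1.04 * x + 21 / 20 * Real.log x *
        (48 / 210 * (x / ρ) * (Real.log x / 20) + 151.1 * 3 * (x ^ 2 + x) ^ (1 / 3 : ℝ)
          + 171 * x ^ (23 / 40 : ℝ) + 32)
        + x ^ (2 / 3 : ℝ) * (4.05 + Real.log x / 8) + 1.02 * √x * Real.log x + Real.log x + 2 <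
      x / ρ * (9 / 10 * Real.log x + Real.log ρ + 1) := by
  have g1 := numB_log10_lo
  have g2 := numB_log10_hi
  have e1 : Real.log (10 ^ 12) = 12 * Real.log 10 := by rw [Real.log_pow]; norm_num
  have e2 : Real.log (10 ^ 18) = 18 * Real.log 10 := by rw [Real.log_pow]; norm_num
  have hx : 0 < x := by linarith
  have l1 : 27.6298 ≤ Real.log x := by
    have := Real.log_le_log (by norm_num) h1
    linarith
  have l2 : Real.log x ≤ 41.4484 := by
    have := Real.log_le_log hx h2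
    linarith
  have hu : Real.log (10 ^ 12) ≤ 27.6322 := by rw [e1]; linarith
  have hsm := numB_small x (10 ^ 12) 27.6322 (10 ^ 4) 125000 3 1.359 (by norm_num) h1
    (by linarith) hu (by norm_num) (by
      have : ((10 : ℝ) ^ 12) ^ (1 / 3 : ℝ) = 10 ^ 4 := by
        rw [← Real.rpow_natCast, ← Real.rpow_mul (by norm_num), ← Real.rpow_natCast]
        norm_num
      rw [this]) (by norm_num) (by
      have : ((10 : ℝ) ^ 12) ^ (17 / 40 : ℝ) = ((10 : ℝ) ^ 51) ^ (1 / 10 : ℝ) := by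
        rw [← Real.rpow_natCast, ← Real.rpow_mul (by norm_num), ← Real.rpow_natCast,
          ← Real.rpow_mul (by norm_num)]
        norm_num
      rw [this]
      have h : (125000 : ℝ) = ((125000 : ℝ) ^ 10) ^ (1 / 10 : ℝ) := by
        rw [← Real.rpow_natCast, ← Real.rpow_mul (by norm_num)]
        norm_num
      rw [h]
      apply Real.rpow_le_rpow (by positivity) (by norm_num) (by norm_num)) (by norm_num)
      (by norm_num)
  have hlog : (1.969 : ℝ) ≤ Real.log 7.21 := by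
    have h3 := Real.log_two_gt_d9
    have h4 : Real.log 7.21 = 3 * Real.log 2 + Real.log (7.21 / 8) := by
      rw [Real.log_div (by norm_num) (by norm_num)]
      have : (8 : ℝ) = 2 ^ 3 := by norm_num
      rw [this, Real.log_pow]
      norm_num
    have h5 := Real.one_sub_inv_le_log_of_pos (show (0 : ℝ) < 7.21 / 8 by norm_num)
    rw [h4]
    norm_num at h5 ⊢
    linarith
  refine numB_red x ρ (Real.log x) _ 1.359 7.21 1.969 3 hx hρ1 hρ2 hlog (by norm_num) hsm ?_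
  nlinarith [mul_nonneg (sub_nonneg.mpr (show (27.62 : ℝ) ≤ Real.log x by linarith))
    (sub_nonneg.mpr (show Real.log x ≤ 41.45 by linarith))]

theorem num_B2 (x ρ : ℝ) (h1 : 10 ^ 18 ≤ x) (h2 : x ≤ 10 ^ 28) (hρ1 : 1 ≤ ρ) (hρ2 : ρ ≤ 7.83) :
    1.04 * x + 21 / 20 * Real.log x *
        (48 / 210 * (x / ρ) * (Real.log x / 20) + 151.1 * 5 * (x ^ 2 + x) ^ (1 / 3 : ℝ)
          + 171 * x ^ (23 / 40 : ℝ) + 32)
        + x ^ (2 / 3 : ℝ) * (4.05 + Real.log x / 8) + 1.02 * √x * Real.log x + Real.log x + 2 <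
      x / ρ * (9 / 10 * Real.log x + Real.log ρ + 1) := by
  have g1 := numB_log10_lo
  have g2 := numB_log10_hi
  have e1 : Real.log (10 ^ 18) = 18 * Real.log 10 := by rw [Real.log_pow]; norm_num
  have e2 : Real.log (10 ^ 28) = 28 * Real.log 10 := by rw [Real.log_pow]; norm_num
  have hx : 0 < x := by linarith
  have l1 : 41.4448 ≤ Real.log x := by
    have := Real.log_le_log (by norm_num) h1
    linarith
  have l2 : Real.log x ≤ 64.4751 := by
    have := Real.log_le_log hx h2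
    linarith
  have hu : Real.log (10 ^ 18) ≤ 41.4484 := by rw [e1]; linarith
  have hsm := numB_small x (10 ^ 18) 41.4484 (10 ^ 6) (4 * 10 ^ 7) 5 0.0335 (by norm_num) h1
    (by linarith) hu (by norm_num) (by
      have : ((10 : ℝ) ^ 18) ^ (1 / 3 : ℝ) = 10 ^ 6 := by
        rw [← Real.rpow_natCast, ← Real.rpow_mul (by norm_num), ← Real.rpow_natCast]
        norm_num
      rw [this]) (by norm_num) (by
      have : ((10 : ℝ) ^ 18) ^ (17 / 40 : ℝ) = ((10 : ℝ) ^ 153) ^ (1 / 20 : ℝ) := by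
        rw [← Real.rpow_natCast, ← Real.rpow_mul (by norm_num), ← Real.rpow_natCast,
          ← Real.rpow_mul (by norm_num)]
        norm_num
      rw [this]
      have h : (4 * 10 ^ 7 : ℝ) = ((4 * 10 ^ 7 : ℝ) ^ 20) ^ (1 / 20 : ℝ) := by
        rw [← Real.rpow_natCast (4 * 10 ^ 7 : ℝ) 20, ← Real.rpow_mul (by norm_num)]
        norm_num
      rw [h]
      apply Real.rpow_le_rpow (by positivity) (by norm_num) (by norm_num)) (by norm_num)
      (by norm_num)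
  have hlog : (2.057 : ℝ) ≤ Real.log 7.83 := by
    have h3 := Real.log_two_gt_d9
    have h4 : Real.log 7.83 = 3 * Real.log 2 + Real.log (7.83 / 8) := by
      rw [Real.log_div (by norm_num) (by norm_num)]
      have : (8 : ℝ) = 2 ^ 3 := by norm_num
      rw [this, Real.log_pow]
      norm_num
    have h5 := Real.one_sub_inv_le_log_of_pos (show (0 : ℝ) < 7.83 / 8 by norm_num)
    rw [h4]
    norm_num at h5 ⊢
    linarith
  refine numB_red x ρ (Real.log x) _ 0.0335 7.83 2.057 5 hx hρ1 hρ2 hlog (by norm_num) hsm ?_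
  nlinarith [mul_nonneg (sub_nonneg.mpr (show (41.44 : ℝ) ≤ Real.log x by linarith))
    (sub_nonneg.mpr (show Real.log x ≤ 64.48 by linarith))]

end Pool.Agent.Helper19.LPF
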