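import Mathlib

/-!
# LPF-17: numerical inequality, `x ≥ 10 ^ 28`

Multiply by `ρ / x`, `L = log x ≥ 64.47`. The claim is
  `9/10 L + log ρ + 1 > 1.04 ρ + (63/100) L + (ρ / x) * small`,
  `small = (21/20) L x ^ (1/6) (20.6 (L/13.8 + 1) (x ^ 2 + x) ^ (1/3) + 62.2 x ^ (23/40) + 2) + x ^ (2/3) (4.05 + L/8)
     + 1.02 √x L + L + 2`.
For `1 ≤ ρ ≤ ρ1 := 5.2136 √(1 + L / 21.2)`: `log ρ ≥ 0`, so it is enough that
  `0.27 L + 1 > 1.04 ρ1 + (ρ1 / x) small`.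
`√(1 + L/21.2) ≤ (1 + L/21.2 + 4) / 4 = 1.25 + L / 84.8` (AM-GM), so `1.04 ρ1 ≤ 6.778 + 0.0640 L`; so it remains
  `0.206 L > 5.778 + (ρ1 / x) small`; `0.206 L ≥ 13.28`, and `(ρ1 / x) small < 1.9` at `x = 10 ^ 28`, and it is
decreasing in `x` (main part `≤ 5.42 (1.25 + L/84.8) * 21.63 L (L/13.8 + 1) x ^ (-1/6)`; for instance
`x ^ (-1/6) = exp(-L/6)` and `L ^ 3 exp(-L/6)` is decreasing for `L ≥ 18`). The margin is large (`> 5.5`), crude
estimates suffice.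
-/

set_option autoImplicit false

namespace Pool.Agent.Helper19.LPF

private theorem numC_log10 : (2.3 : ℝ) ≤ Real.log 10 := by
  rw [Real.le_log_iff_exp_le (by norm_num)]
  have h1 : (Real.exp 2.3) ^ 10 ≤ (10 : ℝ) ^ 10 := by
    rw [← Real.exp_nat_mul]
    have h2 : ((10 : ℕ) : ℝ) * 2.3 = ((23 : ℕ) : ℝ) * 1 := by norm_num
    rw [h2, Real.exp_nat_mul]
    have h3 := Real.exp_one_lt_d9
    calc (Real.exp 1) ^ 23 ≤ (2.7182818286 : ℝ) ^ 23 :=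
          pow_le_pow_left₀ (Real.exp_pos 1).le h3.le 23
      _ ≤ (10 : ℝ) ^ 10 := by norm_num
  exact le_of_pow_le_pow_left₀ (by norm_num) (by norm_num) h1

private theorem numC_logx (x : ℝ) (h1 : 10 ^ 28 ≤ x) : 64.4 ≤ Real.log x := by
  have h2 : Real.log ((10 : ℝ) ^ 28) ≤ Real.log x := Real.log_le_log (by norm_num) h1
  rw [Real.log_pow] at h2
  have h3 := numC_log10
  push_cast at h2
  linarith

private theorem numC_exp0 : (45000 : ℝ) ≤ Real.exp (64.4 / 6) := by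
  have h1 : (45000 : ℝ) ^ 15 ≤ (Real.exp (64.4 / 6)) ^ 15 := by
    rw [← Real.exp_nat_mul]
    have h2 : ((15 : ℕ) : ℝ) * (64.4 / 6) = ((161 : ℕ) : ℝ) * 1 := by norm_num
    rw [h2, Real.exp_nat_mul]
    have h3 := Real.exp_one_gt_d9
    calc (45000 : ℝ) ^ 15 ≤ (2.718 : ℝ) ^ 161 := by norm_num
      _ ≤ (Real.exp 1) ^ 161 :=
          pow_le_pow_left₀ (by norm_num) (by linarith) 161
  exact le_of_pow_le_pow_left₀ (by norm_num) (Real.exp_pos _).le h1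

private theorem numC_exp (L : ℝ) (hL : 64.4 ≤ L) :
    45000 * (1 + (L - 64.4) / 18) ^ 3 ≤ Real.exp (L / 6) := by
  have h1 : Real.exp (L / 6) = Real.exp (64.4 / 6) * Real.exp ((L - 64.4) / 18) ^ 3 := by
    rw [← Real.exp_nat_mul, ← Real.exp_add]
    congr 1
    push_cast
    ring
  rw [h1]
  have h2 : 1 + (L - 64.4) / 18 ≤ Real.exp ((L - 64.4) / 18) := by
    have := Real.add_one_le_exp ((L - 64.4) / 18)
    linarith
  have h3 : 0 ≤ 1 + (L - 64.4) / 18 := by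
    have : 0 ≤ (L - 64.4) / 18 := div_nonneg (by linarith) (by norm_num)
    linarith
  have h4 : (1 + (L - 64.4) / 18) ^ 3 ≤ Real.exp ((L - 64.4) / 18) ^ 3 :=
    pow_le_pow_left₀ h3 h2 3
  exact mul_le_mul numC_exp0 h4 (pow_nonneg h3 3) (Real.exp_pos _).le

private theorem numC_poly (L : ℝ) (hL : 64.4 ≤ L) :
    5.2136 * (1.25 + L / 84.8) * (1.59 * L ^ 2 + 87.5 * L) ≤
      4 * (45000 * (1 + (L - 64.4) / 18) ^ 3) := by
  obtain ⟨t, ht, rfl⟩ : ∃ t : ℝ, 0 ≤ t ∧ L = 64.4 + t := ⟨L - 64.4, by linarith, by ring⟩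
  have h2 : 0 ≤ 4 * (45000 * (1 + (64.4 + t - 64.4) / 18) ^ 3) -
      5.2136 * (1.25 + (64.4 + t) / 84.8) * (1.59 * (64.4 + t) ^ 2 + 87.5 * (64.4 + t)) := by
    ring_nf
    positivity
  linarith

theorem num_C (x ρ : ℝ) (h1 : 10 ^ 28 ≤ x) (hρ1 : 1 ≤ ρ)
    (hρ2 : ρ ≤ 5.2136 * √(1 + Real.log x / 21.2)) :
    1.04 * x + 21 / 20 * Real.log x *
        (3 / 5 * (x / ρ) + x ^ (1 / 6 : ℝ) *
          (20.6 * (Real.log x / 13.8 + 1) * (x ^ 2 + x) ^ (1 / 3 : ℝ)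
            + 62.2 * x ^ (23 / 40 : ℝ) + 2))
        + x ^ (2 / 3 : ℝ) * (4.05 + Real.log x / 8) + 1.02 * √x * Real.log x + Real.log x + 2 <
      x / ρ * (9 / 10 * Real.log x + Real.log ρ + 1) := by
  have hx0 : 0 < x := lt_of_lt_of_le (by norm_num) h1
  have hx1 : 1 ≤ x := le_trans (by norm_num) h1
  have hL : 64.4 ≤ Real.log x := numC_logx x h1
  have hρ0 : 0 < ρ := by linarith
  have hlogρ : 0 ≤ Real.log ρ := Real.log_nonneg hρ1
  obtain ⟨w, hw⟩ : ∃ w : ℝ, w = x ^ (1 / 6 : ℝ) := ⟨_, rfl⟩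
  have hwpos : 0 < w := by rw [hw]; exact Real.rpow_pos_of_pos hx0 _
  have hw6 : w ^ 6 = x := by
    rw [hw, ← Real.rpow_natCast, ← Real.rpow_mul hx0.le]
    norm_num
  have hx23 : x ^ (2 / 3 : ℝ) = w ^ 4 := by
    rw [hw, ← Real.rpow_natCast, ← Real.rpow_mul hx0.le]
    norm_num
  have hsq : √x = w ^ 3 := by
    rw [← hw6]
    have : w ^ 6 = (w ^ 3) ^ 2 := by ring
    rw [this, Real.sqrt_sq (by positivity)]
  have h2340 : x ^ (23 / 40 : ℝ) ≤ w ^ 4 := by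
    rw [← hx23]
    exact Real.rpow_le_rpow_of_exponent_le hx1 (by norm_num)
  have hcube : (x ^ 2 + x) ^ (1 / 3 : ℝ) ≤ 1.01 * w ^ 4 := by
    have h3 : x ^ 2 + x ≤ (1.01 * w ^ 4) ^ 3 := by
      have h4 : (1.01 * w ^ 4) ^ 3 = 1.030301 * x ^ 2 := by
        rw [← hw6]; ring
      rw [h4]
      have h5 : (100 : ℝ) ≤ x := le_trans (by norm_num) h1
      have h6 : 100 * x ≤ x * x := mul_le_mul_of_nonneg_right h5 hx0.le
      have h7 : x ^ 2 = x * x := sq x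
      rw [h7]
      linarith
    calc (x ^ 2 + x) ^ (1 / 3 : ℝ) ≤ ((1.01 * w ^ 4) ^ 3) ^ (1 / 3 : ℝ) :=
          Real.rpow_le_rpow (by positivity) h3 (by norm_num)
      _ = 1.01 * w ^ 4 := by
          rw [← Real.rpow_natCast, ← Real.rpow_mul (by positivity)]
          norm_num
  have hwexp : w = Real.exp (Real.log x / 6) := by
    rw [hw, Real.rpow_def_of_pos hx0]
    congr 1
    ring
  rw [hx23, hsq, ← hw]
  generalize hA : (x ^ 2 + x) ^ (1 / 3 : ℝ) = A at hcube ⊢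
  generalize hB : x ^ (23 / 40 : ℝ) = B at h2340 ⊢
  generalize Real.log x = L at hL hρ2 hwexp ⊢
  have hwlow : 45000 * (1 + (L - 64.4) / 18) ^ 3 ≤ w := by
    rw [hwexp]; exact numC_exp L hL
  have hwbig : 45000 ≤ w := by
    have h3 : (1 : ℝ) ≤ (1 + (L - 64.4) / 18) ^ 3 := by
      apply one_le_pow₀
      have : 0 ≤ (L - 64.4) / 18 := div_nonneg (by linarith) (by norm_num)
      linarith
    linarith
  have hL0 : 0 < L := by linarith
  -- the small part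
  have hs1 : 21 / 20 * L * (w * (20.6 * (L / 13.8 + 1) * A + 62.2 * B + 2)) ≤
      21 / 20 * L * (w * (20.6 * (L / 13.8 + 1) * (1.01 * w ^ 4) + 62.2 * w ^ 4 + 2)) := by
    apply mul_le_mul_of_nonneg_left _ (by positivity)
    apply mul_le_mul_of_nonneg_left _ hwpos.le
    have h3 : 20.6 * (L / 13.8 + 1) * A ≤ 20.6 * (L / 13.8 + 1) * (1.01 * w ^ 4) :=
      mul_le_mul_of_nonneg_left hcube (by positivity)
    linarith
  have hw5 : 0 < w ^ 5 := by positivity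
  have hb1 : w ^ 4 * 45000 ≤ w ^ 5 := by
    have : w ^ 5 = w ^ 4 * w := by ring
    rw [this]
    exact mul_le_mul_of_nonneg_left hwbig (by positivity)
  have hb2 : w ^ 3 ≤ w ^ 4 := pow_le_pow_right₀ (by linarith) (by norm_num)
  have hb3 : w ≤ w ^ 4 := by
    calc w = w ^ 1 := (pow_one w).symm
      _ ≤ w ^ 4 := pow_le_pow_right₀ (by linarith) (by norm_num)
  have hb4 : 1 ≤ w ^ 4 := one_le_pow₀ (by linarith)
  have hs2 : 21 / 20 * L * (w * (20.6 * (L / 13.8 + 1) * (1.01 * w ^ 4) + 62.2 * w ^ 4 + 2)) +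
      w ^ 4 * (4.05 + L / 8) + 1.02 * w ^ 3 * L + L + 2 ≤
      w ^ 5 * (1.59 * L ^ 2 + 87.5 * L) := by
    have h3 : 21 / 20 * L * (w * (20.6 * (L / 13.8 + 1) * (1.01 * w ^ 4) + 62.2 * w ^ 4 + 2)) =
        w ^ 5 * (21 / 20 * (20.6 * 1.01) / 13.8 * L ^ 2 + 21 / 20 * (20.6 * 1.01 + 62.2) * L)
          + 21 / 10 * (L * w) := by ring
    have h4 : L * w ≤ L * w ^ 4 := mul_le_mul_of_nonneg_left hb3 hL0.le
    have h5 : w ^ 3 * L ≤ w ^ 4 * L := mul_le_mul_of_nonneg_right hb2 hL0.le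
    have h6 : L ≤ L * w ^ 4 := le_mul_of_one_le_right hL0.le hb4
    have h7 : (2 : ℝ) ≤ L * w ^ 4 := le_trans (by linarith) h6
    have h8 : w ^ 4 * (4.05 + L / 8) ≤ L * w ^ 4 := by
      rw [mul_comm L (w ^ 4)]
      exact mul_le_mul_of_nonneg_left (by linarith) (by linarith)
    have h9 : L * w ^ 4 * 45000 ≤ L * w ^ 5 := by
      rw [mul_assoc]
      exact mul_le_mul_of_nonneg_left hb1 hL0.le
    have h10 : 0 ≤ w ^ 5 * L ^ 2 := by positivity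
    rw [h3]
    have h11 : w ^ 5 * (21 / 20 * (20.6 * 1.01) / 13.8 * L ^ 2 +
        21 / 20 * (20.6 * 1.01 + 62.2) * L) =
        (21 / 20 * (20.6 * 1.01) / 13.8) * (w ^ 5 * L ^ 2) +
        (21 / 20 * (20.6 * 1.01 + 62.2)) * (L * w ^ 5) := by ring
    have h12 : w ^ 5 * (1.59 * L ^ 2 + 87.5 * L) = 1.59 * (w ^ 5 * L ^ 2) + 87.5 * (L * w ^ 5) := by
      ring
    rw [h11, h12]
    have h13 : 0 ≤ L * w ^ 5 := by positivity
    have h14 : 1.02 * w ^ 3 * L = 1.02 * (w ^ 3 * L) := by ring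
    rw [h14]
    have h15 : w ^ 4 * L = L * w ^ 4 := by ring
    rw [h15] at h5
    norm_num
    linarith
  -- the factor of `ρ`
  have hsqrt : √(1 + L / 21.2) ≤ 1.25 + L / 84.8 := by
    have h3 : 0 ≤ 1 + L / 21.2 := by positivity
    have h4 := Real.sq_sqrt h3
    have h5 := sq_nonneg (√(1 + L / 21.2) - 2)
    have h6 : L / 84.8 = (L / 21.2) / 4 := by ring
    have h7 : (√(1 + L / 21.2) - 2) ^ 2 = √(1 + L / 21.2) ^ 2 - 4 * √(1 + L / 21.2) + 4 := by ring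
    rw [h7, h4] at h5
    rw [h6]
    linarith
  have hρ3 : ρ ≤ 5.2136 * (1.25 + L / 84.8) := by
    refine hρ2.trans ?_
    exact mul_le_mul_of_nonneg_left hsqrt (by norm_num)
  have hP := numC_poly L hL
  have hkey : ρ * (1.59 * L ^ 2 + 87.5 * L) ≤ 4 * w := by
    calc ρ * (1.59 * L ^ 2 + 87.5 * L) ≤
          5.2136 * (1.25 + L / 84.8) * (1.59 * L ^ 2 + 87.5 * L) :=
          mul_le_mul_of_nonneg_right hρ3 (by positivity)
      _ ≤ 4 * (45000 * (1 + (L - 64.4) / 18) ^ 3) := hP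
      _ ≤ 4 * w := by linarith
  have hfin : 1.04 * ρ + 4 < 27 / 100 * L + 1 := by
    have h3 : L / 84.8 = (1 / 84.8) * L := by ring
    rw [h3] at hρ3
    norm_num at hρ3 hL ⊢
    linarith
  -- put everything over `x / ρ`
  have hq : 0 < x / ρ := div_pos hx0 hρ0
  have e1 : 1.04 * x = x / ρ * (1.04 * ρ) := by
    field_simp
  have e2 : w ^ 5 * (1.59 * L ^ 2 + 87.5 * L) ≤ x / ρ * 4 := by
    rw [div_mul_eq_mul_div, le_div_iff₀ hρ0]
    calc w ^ 5 * (1.59 * L ^ 2 + 87.5 * L) * ρ = w ^ 5 * (ρ * (1.59 * L ^ 2 + 87.5 * L)) := by ring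
      _ ≤ w ^ 5 * (4 * w) := mul_le_mul_of_nonneg_left hkey hw5.le
      _ = w ^ 6 * 4 := by ring
      _ = x * 4 := by rw [hw6]
  have e3 : x / ρ * (1.04 * ρ + 4) < x / ρ * (27 / 100 * L + 1) :=
    mul_lt_mul_of_pos_left hfin hq
  have e4 : 0 ≤ x / ρ * Real.log ρ := mul_nonneg hq.le hlogρ
  have e5 : 21 / 20 * L * (3 / 5 * (x / ρ) + w * (20.6 * (L / 13.8 + 1) * A + 62.2 * B + 2)) =
      x / ρ * (63 / 100 * L) +
      21 / 20 * L * (w * (20.6 * (L / 13.8 + 1) * A + 62.2 * B + 2)) := by ring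
  have e6 : x / ρ * (9 / 10 * L + Real.log ρ + 1) =
      x / ρ * (63 / 100 * L) + x / ρ * (27 / 100 * L + 1) + x / ρ * Real.log ρ := by ring
  have e7 : x / ρ * (1.04 * ρ + 4) = x / ρ * (1.04 * ρ) + x / ρ * 4 := by ring
  rw [e5, e6, e1]
  rw [e7] at e3
  linarith

end Pool.Agent.Helper19.LPF
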