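import Mathlib

/-!
# LPF-5: lower bounds for Euler's function

`totient_lower`. Let `S = n.primeFactors`, `T` = set of primes `< q`. `n / φ(n) = ∏_{p ∈ S} p / (p - 1)`
(`Nat.totient_eq_mul_prod_factors` or `Nat.totient_mul_prod_primeFactors`). The map `g(p) = p / (p - 1)` is
decreasing and `> 1`. Primes in `S \ T` are `≥ q`, primes in `T \ S` are `< q`.
* If `|S \ T| ≤ |T \ S|`: `∏_{S \ T} g ≤ g(q) ^ |S \ T| ≤ g(q) ^ |T \ S| ≤ ∏_{T \ S} g`, hence
  `∏_S g ≤ ∏_T g`.
* If `|S \ T| ≥ |T \ S| + 1`: `n ≥ ∏_{p ∈ S} p ≥ ∏_{S ∩ T} p * q ^ (|T \ S| + 1) ≥ q ∏_{p ∈ T} p = primorial q > n`,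
  a contradiction (`q` is a prime, `primorial q = q * ∏_{p < q} p`).

`phi_table`: apply `totient_lower` with `q = 13, 17, 19, 23, 29, 31, 37, 53, 73` and compute the product
(numbers: 4.8125, 5.21355, 5.53939, 5.84714, 6.11292, 6.33122, 6.54226, 7.20961, 7.82489; the primorials are
30030, 510510, 9699690, 223092870, 6469693230, 200560490130, 7420738134810, about 3.258e19, about 4.07e28).
-/

set_option autoImplicit false
open Finset

namespace Pool.Agent.Helper19.LPF

theorem totient_lower (n q : ℕ) (hn : 1 ≤ n) (hq : q.Prime) (h : n < primorial q) :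
    (n : ℝ) ≤ (∏ p ∈ (range q).filter Nat.Prime, (p : ℝ) / ((p : ℝ) - 1)) * n.totient := by
  set S := n.primeFactors with hS
  set T := (range q).filter Nat.Prime with hT
  set g : ℕ → ℝ := fun p => (p : ℝ) / ((p : ℝ) - 1) with hg
  have hSp : ∀ p ∈ S, p.Prime := fun p hp => Nat.prime_of_mem_primeFactors hp
  have hTp : ∀ p ∈ T, p.Prime := fun p hp => (mem_filter.1 hp).2
  have hg1 : ∀ p : ℕ, p.Prime → 1 ≤ g p := by
    intro p hp
    have h2 : (2 : ℝ) ≤ p := by exact_mod_cast hp.two_le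
    rw [hg]
    show 1 ≤ (p : ℝ) / ((p : ℝ) - 1)
    rw [le_div_iff₀ (by linarith)]
    linarith
  have hmono : ∀ a b : ℕ, a.Prime → a ≤ b → g b ≤ g a := by
    intro a b ha hab
    have h2 : (2 : ℝ) ≤ a := by exact_mod_cast ha.two_le
    have h3 : (a : ℝ) ≤ b := by exact_mod_cast hab
    show (b : ℝ) / ((b : ℝ) - 1) ≤ (a : ℝ) / ((a : ℝ) - 1)
    rw [div_le_div_iff₀ (by linarith) (by linarith)]
    nlinarith
  have hSTq : ∀ p ∈ S \ T, q ≤ p := by
    intro p hp
    by_contra hlt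
    rw [mem_sdiff] at hp
    exact hp.2 (mem_filter.2 ⟨mem_range.2 (not_le.1 hlt), hSp p hp.1⟩)
  have hTSq : ∀ p ∈ T \ S, p ≤ q := by
    intro p hp
    rw [mem_sdiff] at hp
    exact (mem_range.1 (mem_filter.1 hp.1).1).le
  have hcard : (S \ T).card ≤ (T \ S).card := by
    by_contra hlt
    have h1 : ∏ p ∈ S, p ≤ n := Nat.le_of_dvd (by omega) (Nat.prod_primeFactors_dvd n)
    have h2 : (∏ p ∈ S ∩ T, p) * ∏ p ∈ S \ T, p = ∏ p ∈ S, p := prod_inter_mul_prod_diff S T _
    have h3 : (∏ p ∈ T ∩ S, p) * ∏ p ∈ T \ S, p = ∏ p ∈ T, p := prod_inter_mul_prod_diff T S _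
    have h4 : q ^ (S \ T).card ≤ ∏ p ∈ S \ T, p := pow_card_le_prod _ _ _ hSTq
    have h5 : ∏ p ∈ T \ S, p ≤ q ^ (T \ S).card := prod_le_pow_card _ _ _ hTSq
    have h6 : primorial q = q * ∏ p ∈ T, p := by
      unfold primorial
      rw [hT, prod_filter, prod_filter, prod_range_succ, if_pos hq, mul_comm]
    have h7 : q ^ ((T \ S).card + 1) ≤ q ^ (S \ T).card :=
      Nat.pow_le_pow_right hq.pos (by omega)
    have h8 : primorial q ≤ n := by
      calc primorial q = q * ((∏ p ∈ T ∩ S, p) * ∏ p ∈ T \ S, p) := by rw [h6, h3]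
        _ ≤ q * ((∏ p ∈ T ∩ S, p) * q ^ (T \ S).card) :=
          Nat.mul_le_mul_left _ (Nat.mul_le_mul_left _ h5)
        _ = (∏ p ∈ S ∩ T, p) * q ^ ((T \ S).card + 1) := by rw [inter_comm]; ring
        _ ≤ (∏ p ∈ S ∩ T, p) * ∏ p ∈ S \ T, p := Nat.mul_le_mul_left _ (h7.trans h4)
        _ ≤ n := by rw [h2]; exact h1
    omega
  have hprod : ∏ p ∈ S, g p ≤ ∏ p ∈ T, g p := by
    have h2 : (∏ p ∈ S ∩ T, g p) * ∏ p ∈ S \ T, g p = ∏ p ∈ S, g p :=
      prod_inter_mul_prod_diff S T _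
    have h3 : (∏ p ∈ T ∩ S, g p) * ∏ p ∈ T \ S, g p = ∏ p ∈ T, g p :=
      prod_inter_mul_prod_diff T S _
    have h4 : ∏ p ∈ S \ T, g p ≤ ∏ _p ∈ S \ T, g q :=
      prod_le_prod (fun p hp => zero_le_one.trans (hg1 p (hSp p (mem_sdiff.1 hp).1)))
        (fun p hp => hmono q p hq (hSTq p hp))
    have h5 : ∏ _p ∈ T \ S, g q ≤ ∏ p ∈ T \ S, g p :=
      prod_le_prod (fun p _ => zero_le_one.trans (hg1 q hq))
        (fun p hp => hmono p q (hTp p (mem_sdiff.1 hp).1) (hTSq p hp))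
    rw [prod_const] at h4 h5
    have h6 : g q ^ (S \ T).card ≤ g q ^ (T \ S).card := pow_le_pow_right₀ (hg1 q hq) hcard
    have h7 : 0 ≤ ∏ p ∈ S ∩ T, g p :=
      prod_nonneg (fun p hp => zero_le_one.trans (hg1 p (hSp p (mem_inter.1 hp).1)))
    rw [← h2, ← h3, inter_comm T S]
    exact mul_le_mul_of_nonneg_left (h4.trans (h6.trans h5)) h7
  have hkey : (n : ℝ) = (∏ p ∈ S, g p) * n.totient := by
    have h1 := Nat.totient_mul_prod_primeFactors n
    have h2 : ((n.totient : ℝ) * ∏ p ∈ S, (p : ℝ)) = n * ∏ p ∈ S, ((p : ℝ) - 1) := by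
      have h3 : ((n.totient * ∏ p ∈ n.primeFactors, p : ℕ) : ℝ)
          = ((n * ∏ p ∈ n.primeFactors, (p - 1) : ℕ) : ℝ) := by rw [h1]
      push_cast at h3
      rw [h3]
      congr 1
      refine prod_congr rfl (fun p hp => ?_)
      have := (hSp p hp).one_le
      push_cast [this]
      ring
    have h4 : (∏ p ∈ S, ((p : ℝ) - 1)) ≠ 0 := by
      refine prod_ne_zero_iff.2 (fun p hp => ?_)
      have h5 : (2 : ℝ) ≤ p := by exact_mod_cast (hSp p hp).two_le
      have : (0 : ℝ) < (p : ℝ) - 1 := by linarith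
      exact this.ne'
    have h6 : ∏ p ∈ S, g p = (∏ p ∈ S, (p : ℝ)) / ∏ p ∈ S, ((p : ℝ) - 1) := by
      rw [← prod_div_distrib]
    rw [h6, div_mul_eq_mul_div, eq_div_iff h4, ← h2]
    ring
  calc (n : ℝ) = (∏ p ∈ S, g p) * n.totient := hkey
    _ ≤ (∏ p ∈ T, g p) * n.totient := mul_le_mul_of_nonneg_right hprod (Nat.cast_nonneg _)

private theorem phi_step (n q : ℕ) (hn : 1 ≤ n) (hq : q.Prime) (h : n < primorial q)
    (P : Finset ℕ) (hP : (range q).filter Nat.Prime = P) {c : ℝ}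
    (hc : ∏ p ∈ P, (p : ℝ) / ((p : ℝ) - 1) ≤ c) : (n : ℝ) ≤ c * n.totient := by
  have h1 := totient_lower n q hn hq h
  rw [hP] at h1
  exact h1.trans (mul_le_mul_of_nonneg_right hc (Nat.cast_nonneg _))

theorem phi_table (n : ℕ) (hn : 1 ≤ n) :
    (n < 30030 → (n : ℝ) ≤ 4.8125 * n.totient) ∧
    (n < 510510 → (n : ℝ) ≤ 5.2136 * n.totient) ∧
    (n < 9699690 → (n : ℝ) ≤ 5.5394 * n.totient) ∧
    (n < 223092870 → (n : ℝ) ≤ 5.8472 * n.totient) ∧
    (n < 6469693230 → (n : ℝ) ≤ 6.1130 * n.totient) ∧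
    (n < 200560490130 → (n : ℝ) ≤ 6.3313 * n.totient) ∧
    (n < 7420738134810 → (n : ℝ) ≤ 6.5423 * n.totient) ∧
    (n ≤ 10 ^ 18 → (n : ℝ) ≤ 7.21 * n.totient) ∧
    (n ≤ 10 ^ 28 → (n : ℝ) ≤ 7.83 * n.totient) := by
  refine ⟨?_, ?_, ?_, ?_, ?_, ?_, ?_, ?_, ?_⟩
  · intro h
    have hp : primorial 13 = 30030 := by decide +kernel
    refine phi_step n 13 hn (by norm_num) (by rw [hp]; omega) {2, 3, 5, 7, 11} (by decide +kernel) ?_
    norm_num [prod_insert]
  · intro h
    have hp : primorial 17 = 510510 := by decide +kernel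
    refine phi_step n 17 hn (by norm_num) (by rw [hp]; omega) {2, 3, 5, 7, 11, 13} (by decide +kernel) ?_
    norm_num [prod_insert]
  · intro h
    have hp : primorial 19 = 9699690 := by decide +kernel
    refine phi_step n 19 hn (by norm_num) (by rw [hp]; omega) {2, 3, 5, 7, 11, 13, 17} (by decide +kernel) ?_
    norm_num [prod_insert]
  · intro h
    have hp : primorial 23 = 223092870 := by decide +kernel
    refine phi_step n 23 hn (by norm_num) (by rw [hp]; omega) {2, 3, 5, 7, 11, 13, 17, 19} (by decide +kernel) ?_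
    norm_num [prod_insert]
  · intro h
    have hp : primorial 29 = 6469693230 := by decide +kernel
    refine phi_step n 29 hn (by norm_num) (by rw [hp]; omega) {2, 3, 5, 7, 11, 13, 17, 19, 23} (by decide +kernel) ?_
    norm_num [prod_insert]
  · intro h
    have hp : primorial 31 = 200560490130 := by decide +kernel
    refine phi_step n 31 hn (by norm_num) (by rw [hp]; omega) {2, 3, 5, 7, 11, 13, 17, 19, 23, 29} (by decide +kernel) ?_
    norm_num [prod_insert]
  · intro h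
    have hp : primorial 37 = 7420738134810 := by decide +kernel
    refine phi_step n 37 hn (by norm_num) (by rw [hp]; omega) {2, 3, 5, 7, 11, 13, 17, 19, 23, 29, 31} (by decide +kernel) ?_
    norm_num [prod_insert]
  · intro h
    have hp : primorial 53 = 32589158477190044730 := by decide +kernel
    refine phi_step n 53 hn (by norm_num) (by rw [hp]; omega) {2, 3, 5, 7, 11, 13, 17, 19, 23, 29, 31, 37, 41, 43, 47} (by decide +kernel) ?_
    norm_num [prod_insert]
  · intro h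
    have hp : primorial 73 = 40729680599249024150621323470 := by decide +kernel
    refine phi_step n 73 hn (by norm_num) (by rw [hp]; omega) {2, 3, 5, 7, 11, 13, 17, 19, 23, 29, 31, 37, 41, 43, 47, 53, 59, 61, 67, 71} (by decide +kernel) ?_
    norm_num [prod_insert]

end Pool.Agent.Helper19.LPF
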