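import Mathlib

/-!
# LPF-6: a lower bound for Euler's function for large arguments

Proof. `n / φ(n) = ∏_{p ∣ n} p / (p - 1)`. The primes `p ≤ 13` contribute at most
`2 * (3/2) * (5/4) * (7/6) * (11/10) * (13/12) = 30030 / 5760 = 5.21354...` (a product over a subset of
`{2, 3, 5, 7, 11, 13}` of factors `> 1`). Let `P` be the set of prime factors `≥ 17` of `n`, `k = |P|`.
They are distinct odd numbers `≥ 17`. For a finite set `P` of odd numbers `≥ 17` one has
`∏_{p ∈ P} (p / (p - 1)) ^ 2 ≤ (15 + 2 k) / 15`: induction on `k`, removing the largest element `p ≥ 17 + 2 (k - 1)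
= 15 + 2 k`: `(p / (p - 1)) ^ 2 ≤ p / (p - 2) ≤ (15 + 2 k) / (13 + 2 k)`.
Also `17 ^ k ≤ ∏_{p ∈ P} p ≤ n` gives `k ≤ log n / log 17` and `log 17 ≥ 2.8333 - 0.0002 = 2.8331`,
`2 / (15 * 2.8331) ≤ 1 / 21.2` (needs only `log 17 ≥ 2.8267`). So
`∏_{p ∈ P} p / (p - 1) ≤ √(1 + 2 k / 15) ≤ √(1 + log n / 21.2)`.
-/

set_option autoImplicit false
open Finset

namespace Pool.Agent.Helper19.LPF

theorem phiLarge_odd (P : Finset ℕ) (hP : ∀ p ∈ P, 17 ≤ p ∧ p % 2 = 1) :
    ∏ p ∈ P, ((p : ℝ) / (p - 1)) ^ 2 ≤ (15 + 2 * (P.card : ℝ)) / 15 := by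
  induction P using Finset.induction_on_max with
  | empty => simp
  | insert a s ha ih =>
    have hnot : a ∉ s := fun h => lt_irrefl a (ha a h)
    have ih' := ih (fun p hp => hP p (mem_insert_of_mem hp))
    have ha1 := hP a (mem_insert_self a s)
    rw [prod_insert hnot, card_insert_of_notMem hnot]
    have hcard : s.card ≤ (a - 17) / 2 := by
      have h1 : s.card ≤ (range ((a - 17) / 2)).card := by
        refine card_le_card_of_injOn (fun x => (x - 17) / 2) ?_ ?_
        · intro x hx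
          have h2 := hP x (mem_insert_of_mem hx)
          have h3 := ha x hx
          simp only [coe_range, Set.mem_Iio]
          omega
        · intro x hx y hy hxy
          have h2 := hP x (mem_insert_of_mem hx)
          have h3 := hP y (mem_insert_of_mem hy)
          simp only at hxy
          omega
      simpa using h1
    have h4 : 17 + 2 * s.card ≤ a := by omega
    have h5 : (17 : ℝ) + 2 * (s.card : ℝ) ≤ a := by exact_mod_cast h4
    have h6 : (0 : ℝ) ≤ s.card := Nat.cast_nonneg _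
    have h7 : ((a : ℝ) / (a - 1)) ^ 2 ≤ (17 + 2 * (s.card : ℝ)) / (15 + 2 * (s.card : ℝ)) := by
      have h8 : ((a : ℝ) / (a - 1)) ^ 2 ≤ (a : ℝ) / (a - 2) := by
        rw [div_pow, div_le_div_iff₀ (by nlinarith) (by linarith)]
        nlinarith
      refine h8.trans ?_
      rw [div_le_div_iff₀ (by linarith) (by linarith)]
      nlinarith
    push_cast
    calc ((a : ℝ) / (a - 1)) ^ 2 * ∏ p ∈ s, ((p : ℝ) / (p - 1)) ^ 2
        ≤ (17 + 2 * (s.card : ℝ)) / (15 + 2 * (s.card : ℝ)) * ((15 + 2 * (s.card : ℝ)) / 15) := by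
          apply mul_le_mul h7 ih' (prod_nonneg fun i _ => sq_nonneg _) (by positivity)
      _ = (15 + 2 * ((s.card : ℝ) + 1)) / 15 := by
          field_simp
          ring

theorem phiLarge_small (P : Finset ℕ) (hP : P ⊆ {2, 3, 5, 7, 11, 13}) :
    ∏ p ∈ P, ((p : ℝ) / (p - 1)) ≤ 5.2136 := by
  have h1 : (1 : ℝ) ≤ ∏ p ∈ ({2, 3, 5, 7, 11, 13} : Finset ℕ) \ P, ((p : ℝ) / (p - 1)) := by
    have : ∀ Q : Finset ℕ, (∀ p ∈ Q, 2 ≤ p) → (1 : ℝ) ≤ ∏ p ∈ Q, ((p : ℝ) / (p - 1)) := by
      intro Q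
      induction Q using Finset.induction_on with
      | empty => simp
      | insert a s ha ih =>
        intro h
        rw [prod_insert ha]
        have h2 : (2 : ℝ) ≤ a := by exact_mod_cast h a (mem_insert_self a s)
        have h3 : (1 : ℝ) ≤ (a : ℝ) / (a - 1) := by
          rw [le_div_iff₀ (by linarith)]; linarith
        exact one_le_mul_of_one_le_of_one_le h3 (ih fun p hp => h p (mem_insert_of_mem hp))
    apply this
    intro p hp
    have := (mem_sdiff.1 hp).1
    simp only [mem_insert, mem_singleton] at this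
    omega
  have h2 := prod_sdiff (f := fun p : ℕ => (p : ℝ) / (p - 1)) hP
  have h3 : ∏ p ∈ ({2, 3, 5, 7, 11, 13} : Finset ℕ), ((p : ℝ) / (p - 1)) = 30030 / 5760 := by
    rw [prod_insert (by decide), prod_insert (by decide), prod_insert (by decide),
      prod_insert (by decide), prod_insert (by decide), prod_singleton]
    norm_num
  rw [h3] at h2
  have h4 : 0 ≤ ∏ p ∈ P, ((p : ℝ) / (p - 1)) := by
    apply prod_nonneg
    intro p hp
    have := hP hp
    simp only [mem_insert, mem_singleton] at this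
    have h5 : (2 : ℝ) ≤ p := by
      have : 2 ≤ p := by omega
      exact_mod_cast this
    apply div_nonneg <;> linarith
  have h6 : ∏ p ∈ P, ((p : ℝ) / (p - 1)) ≤ 30030 / 5760 := by
    rw [← h2]
    nlinarith
  refine h6.trans ?_
  norm_num

theorem phi_large (n : ℕ) (hn : 1 ≤ n) :
    (n : ℝ) ≤ 5.2136 * √(1 + Real.log n / 21.2) * n.totient := by
  have hφ := Nat.totient_mul_prod_primeFactors n
  have hprod : (n : ℝ) = n.totient * ∏ p ∈ n.primeFactors, ((p : ℝ) / (p - 1)) := by
    have h1 : (n.totient : ℝ) * ∏ p ∈ n.primeFactors, (p : ℝ) =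
        n * ∏ p ∈ n.primeFactors, ((p : ℝ) - 1) := by
      have h2 : ((n.totient * ∏ p ∈ n.primeFactors, p : ℕ) : ℝ) =
        ((n * ∏ p ∈ n.primeFactors, (p - 1) : ℕ) : ℝ) := by rw [hφ]
      push_cast at h2
      rw [h2]
      congr 1
      apply prod_congr rfl
      intro p hp
      have := (Nat.prime_of_mem_primeFactors hp).one_le
      rw [Nat.cast_sub this, Nat.cast_one]
    have h3 : (0 : ℝ) < ∏ p ∈ n.primeFactors, ((p : ℝ) - 1) := by
      apply prod_pos
      intro p hp
      have := (Nat.prime_of_mem_primeFactors hp).two_le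
      have : (2 : ℝ) ≤ p := by exact_mod_cast this
      linarith
    rw [prod_div_distrib, mul_div_assoc', h1, mul_div_assoc, div_self h3.ne', mul_one]
  set A := n.primeFactors.filter (fun p => p ≤ 13) with hA
  set B := n.primeFactors.filter (fun p => ¬ p ≤ 13) with hB
  have hsplit : ∏ p ∈ n.primeFactors, ((p : ℝ) / (p - 1)) =
      (∏ p ∈ A, ((p : ℝ) / (p - 1))) * ∏ p ∈ B, ((p : ℝ) / (p - 1)) := by
    rw [hA, hB, prod_filter_mul_prod_filter_not]
  have hAs : A ⊆ {2, 3, 5, 7, 11, 13} := by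
    intro p hp
    rw [hA, mem_filter] at hp
    have h1 := Nat.prime_of_mem_primeFactors hp.1
    have h2 := hp.2
    simp only [mem_insert, mem_singleton]
    interval_cases p <;> first | omega | (exfalso; revert h1; norm_num)
  have hBo : ∀ p ∈ B, 17 ≤ p ∧ p % 2 = 1 := by
    intro p hp
    rw [hB, mem_filter] at hp
    have h1 := Nat.prime_of_mem_primeFactors hp.1
    have h2 := hp.2
    have h3 : p % 2 = 1 := by
      rcases h1.eq_two_or_odd with h | h
      · omega
      · exact h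
    refine ⟨?_, h3⟩
    by_contra h4
    have h5 : p = 15 := by omega
    subst h5
    revert h1; norm_num
  have hB2 := phiLarge_odd B hBo
  have hA2 := phiLarge_small A hAs
  have h17 : (17 : ℝ) ^ B.card ≤ n := by
    have h1 : 17 ^ B.card ≤ ∏ p ∈ B, p := by
      rw [← prod_const]
      exact prod_le_prod' fun p hp => (hBo p hp).1
    have h2 : ∏ p ∈ B, p ∣ n :=
      (prod_dvd_prod_of_subset _ _ _ (filter_subset _ _)).trans (Nat.prod_primeFactors_dvd n)
    have h3 := Nat.le_of_dvd (by omega) h2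
    exact_mod_cast h1.trans h3
  have hlog : (B.card : ℝ) * Real.log 17 ≤ Real.log n := by
    rw [← Real.log_pow]
    exact Real.log_le_log (by positivity) h17
  have hl17 : (2.8267 : ℝ) ≤ Real.log 17 := by
    have h1 : Real.log 17 = 4 * Real.log 2 + Real.log (17 / 16) := by
      rw [show (4 : ℝ) * Real.log 2 = Real.log (2 ^ 4) by rw [Real.log_pow]; norm_num,
        ← Real.log_mul (by norm_num) (by norm_num)]
      norm_num
    have h2 : 1 - (17 / 16 : ℝ)⁻¹ ≤ Real.log (17 / 16) := Real.one_sub_inv_le_log_of_pos (by norm_num)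
    have h3 := Real.log_two_gt_d9
    rw [h1]
    norm_num at h2 h3 ⊢
    linarith
  have hBc : (0 : ℝ) ≤ B.card := Nat.cast_nonneg _
  have hlogn : (B.card : ℝ) * 2.8267 ≤ Real.log n :=
    (mul_le_mul_of_nonneg_left hl17 hBc).trans hlog
  have hB3 : ∏ p ∈ B, ((p : ℝ) / (p - 1)) ≤ √(1 + Real.log n / 21.2) := by
    apply Real.le_sqrt_of_sq_le
    rw [← prod_pow]
    refine hB2.trans ?_
    rw [div_le_iff₀ (by norm_num)]
    have : Real.log n / 21.2 * 21.2 = Real.log n := by norm_num
    nlinarith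
  have hA0 : 0 ≤ ∏ p ∈ A, ((p : ℝ) / (p - 1)) := by
    apply prod_nonneg
    intro p hp
    rw [hA, mem_filter] at hp
    have := (Nat.prime_of_mem_primeFactors hp.1).two_le
    have : (2 : ℝ) ≤ p := by exact_mod_cast this
    apply div_nonneg <;> linarith
  have hφ0 : (0 : ℝ) ≤ n.totient := Nat.cast_nonneg _
  calc (n : ℝ) = n.totient * ∏ p ∈ n.primeFactors, ((p : ℝ) / (p - 1)) := hprod
    _ = ((∏ p ∈ A, ((p : ℝ) / (p - 1))) * ∏ p ∈ B, ((p : ℝ) / (p - 1))) * n.totient := by
        rw [hsplit, mul_comm]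
    _ ≤ (5.2136 * √(1 + Real.log n / 21.2)) * n.totient := by
        apply mul_le_mul_of_nonneg_right _ hφ0
        calc (∏ p ∈ A, ((p : ℝ) / (p - 1))) * ∏ p ∈ B, ((p : ℝ) / (p - 1))
            ≤ (∏ p ∈ A, ((p : ℝ) / (p - 1))) * √(1 + Real.log n / 21.2) :=
              mul_le_mul_of_nonneg_left hB3 hA0
          _ ≤ 5.2136 * √(1 + Real.log n / 21.2) :=
              mul_le_mul_of_nonneg_right hA2 (Real.sqrt_nonneg _)

end Pool.Agent.Helper19.LPF
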