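import Pool.Agent.Helper19.LPF.ZBasic

/-!
# LPF-1: the logarithm of the product of the window

Proof of `window_log`. Write `h = φ(n)`, `x = n ^ 2 + n`, `J = Nat.log 2 x`.
Every `m ∈ W n` is `> n ^ 2`, so `2 h log n ≤ Σ_{m ∈ W} log m`. The good `m` contribute at most `card * log x`.
If `m ∈ W` is not good, all its prime factors `p` satisfy `p ≤ Z n` (`lt_pow_iff`), and
`log m = Σ_{p ∣ m} v_p(m) log p = Σ_{p ≤ Z, p prime} Σ_{j ∈ Icc 1 J, p ^ j ∣ m} log p`
(`p ^ j ∣ m` forces `2 ^ j ≤ m ≤ x`, i.e. `j ≤ J`). Sum over all `m ∈ W` (positive terms may be added) and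
exchange the sums: what is needed is, for a prime `p ≤ Z` and `j ≥ 1`,

  `#{m ∈ W : p ^ j ∣ m} ≤ h / p ^ j + (if p ∈ exc n j then 1 else 0)`   (natural division).

(a) In general an interval of `h` consecutive integers contains at most `h / q + 1` multiples of `q ≥ 1`;
(b) if `p ∉ exc n j` then no element of `W` is divisible by `p ^ j` (and `p ^ j > h`), so the number is `0`;
(c) if `p ∈ exc n j` use (a).
Finally `Σ_{p ≤ Z} Σ_{j ∈ Icc 1 J} (h / p ^ j) log p = log (h !)` (or `≤`): Legendre, e.g. from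
`Nat.Prime.multiplicity_factorial` / `Nat.factorization_factorial`, or simply
`log (h !) = Σ_{k ≤ h} log k = Σ_{k ≤ h} Σ_{d ∣ k} Λ(d)`; only `≤` in the direction
`Σ_p Σ_j (h / p ^ j) log p ≤ log (h !)` is used. Here `p ≤ Z` may be larger than `h`; then `h / p ^ j = 0`.
-/

set_option autoImplicit false
open Finset

namespace Pool.Agent.Helper19.LPF

/-- multiples of `q` in an interval -/
theorem PrimePowers_card_le (a h q : ℕ) (hq : 0 < q) :
    ((Ioc a (a + h)).filter (fun m => q ∣ m)).card ≤ h / q + 1 := by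
  have h1 : ((Ioc a (a + h)).filter (fun m => q ∣ m)).card ≤ (Ioc (a / q) ((a + h) / q)).card := by
    apply card_le_card_of_injOn (fun m => m / q)
    · intro m hm
      rw [mem_coe, mem_filter, mem_Ioc] at hm
      obtain ⟨⟨h1, h2⟩, k, rfl⟩ := hm
      rw [mem_coe, mem_Ioc]
      show a / q < q * k / q ∧ q * k / q ≤ (a + h) / q
      rw [Nat.mul_div_cancel_left k hq]
      refine ⟨?_, ?_⟩
      · rw [Nat.div_lt_iff_lt_mul hq, mul_comm]
        exact h1
      · rw [Nat.le_div_iff_mul_le hq, mul_comm]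
        exact h2
    · intro m hm m' hm' hmm
      rw [mem_coe, mem_filter] at hm hm'
      obtain ⟨k, rfl⟩ := hm.2
      obtain ⟨k', rfl⟩ := hm'.2
      have h2 : q * k / q = q * k' / q := hmm
      rw [Nat.mul_div_cancel_left k hq, Nat.mul_div_cancel_left k' hq] at h2
      rw [h2]
  refine h1.trans ?_
  rw [Nat.card_Ioc, Nat.add_div hq]
  have h3 : (if q ≤ a % q + h % q then 1 else 0) ≤ 1 := by split_ifs <;> norm_num
  generalize (if q ≤ a % q + h % q then 1 else 0) = t at h3 ⊢
  generalize a / q = x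
  generalize h / q = y
  omega

theorem PrimePowers_factorization {m J p : ℕ} (hm : 0 < m) (hJ : Nat.log 2 m ≤ J)
    (hp : p.Prime) :
    m.factorization p = ((Icc 1 J).filter (fun j => p ^ j ∣ m)).card := by
  have h1 : (Icc 1 J).filter (fun j => p ^ j ∣ m) = Icc 1 (m.factorization p) := by
    ext j
    rw [mem_filter, mem_Icc, mem_Icc, hp.pow_dvd_iff_le_factorization hm.ne']
    constructor
    · rintro ⟨⟨h1, -⟩, h3⟩
      exact ⟨h1, h3⟩
    · rintro ⟨h1, h2⟩
      refine ⟨⟨h1, ?_⟩, h2⟩
      refine le_trans ?_ hJ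
      apply Nat.le_log_of_pow_le (by norm_num)
      have h3 : p ^ j ∣ m := (hp.pow_dvd_iff_le_factorization hm.ne').2 h2
      exact (Nat.pow_le_pow_left hp.two_le j).trans (Nat.le_of_dvd hm h3)
  rw [h1, Nat.card_Icc]
  omega

theorem PrimePowers_log {m J : ℕ} (hm : 0 < m) (hJ : Nat.log 2 m ≤ J) (P : Finset ℕ)
    (hP : ∀ p ∈ P, p.Prime) (hmP : ∀ p, p.Prime → p ∣ m → p ∈ P) :
    Real.log m = ∑ p ∈ P, ∑ j ∈ Icc 1 J, if p ^ j ∣ m then Real.log p else 0 := by
  have h1 : Real.log m = ∑ p ∈ P, (m.factorization p : ℝ) * Real.log p := by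
    rw [Real.log_nat_eq_sum_factorization, Finsupp.sum]
    apply sum_subset
    · intro p hp
      rw [Nat.support_factorization, Nat.mem_primeFactors] at hp
      exact hmP p hp.1 hp.2.1
    · intro p _ hp
      rw [Finsupp.notMem_support_iff] at hp
      rw [hp]
      simp
  rw [h1]
  apply sum_congr rfl
  intro p hp
  rw [PrimePowers_factorization hm hJ (hP p hp), ← sum_filter, sum_const, nsmul_eq_mul]

theorem PrimePowers_fact {h J : ℕ} (hJ : Nat.log 2 h ≤ J) (P : Finset ℕ)
    (hP : ∀ p ∈ P, p.Prime) :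
    ∑ p ∈ P, ∑ j ∈ Icc 1 J, ((h / p ^ j : ℕ) : ℝ) * Real.log p ≤ Real.log (h.factorial) := by
  have h0 : ∀ p ∈ P, ∑ j ∈ Icc 1 J, ((h / p ^ j : ℕ) : ℝ) * Real.log p =
      (h.factorial.factorization p : ℝ) * Real.log p := by
    intro p hp
    have h1 : Nat.log p h < J + 1 := by
      have h2 : Nat.log p h ≤ Nat.log 2 h := Nat.log_anti_left (by norm_num) (hP p hp).two_le
      omega
    rw [Nat.factorization_factorial (hP p hp) h1, ← sum_mul, Nat.cast_sum]
    congr 1
  rw [sum_congr rfl h0, Real.log_nat_eq_sum_factorization, Finsupp.sum]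
  have h2 : ∑ p ∈ P, (h.factorial.factorization p : ℝ) * Real.log p =
      ∑ p ∈ P.filter (fun p => p ∈ h.factorial.factorization.support),
        (h.factorial.factorization p : ℝ) * Real.log p := by
    rw [sum_filter]
    apply sum_congr rfl
    intro p _
    split_ifs with h3
    · rfl
    · rw [Finsupp.notMem_support_iff] at h3
      rw [h3]
      simp
  rw [h2]
  apply sum_le_sum_of_subset_of_nonneg
  · intro p hp
    exact (mem_filter.1 hp).2
  · intro p _ _
    exact mul_nonneg (Nat.cast_nonneg _) (Real.log_natCast_nonneg _)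

theorem window_log (n : ℕ) (hn : 2 ≤ n) :
    2 * (n.totient : ℝ) * Real.log n ≤
      ((good n).card : ℝ) * Real.log ((n : ℝ) ^ 2 + n) + Real.log (n.totient.factorial)
        + ∑ j ∈ Icc 1 (Nat.log 2 (n ^ 2 + n)), ∑ p ∈ exc n j, Real.log p := by
  classical
  set h := n.totient with hh
  set J := Nat.log 2 (n ^ 2 + n) with hJdef
  set P : Finset ℕ := (range (Z n + 1)).filter (fun p => p.Prime) with hPdef
  have hP : ∀ p ∈ P, p.Prime := fun p hp => (mem_filter.1 hp).2
  have hn0 : (0 : ℝ) < n := by exact_mod_cast (by omega : 0 < n)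
  -- the terms
  have h1 : 2 * (h : ℝ) * Real.log n ≤ ∑ m ∈ W n, Real.log m := by
    have h2 : ∑ m ∈ W n, 2 * Real.log n ≤ ∑ m ∈ W n, Real.log m := by
      apply sum_le_sum
      intro m hm
      have h3 : (n : ℝ) ^ 2 ≤ m := by exact_mod_cast (W_le hm).1.le
      have h4 := Real.log_le_log (by positivity) h3
      rw [Real.log_pow] at h4
      exact_mod_cast h4
    rw [sum_const, nsmul_eq_mul] at h2
    have h5 : (W n).card = h := by
      unfold W
      rw [Nat.card_Ioc]
      omega
    rw [h5] at h2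
    linarith
  have hsplit : ∑ m ∈ W n, Real.log m =
      ∑ m ∈ good n, Real.log m + ∑ m ∈ W n \ good n, Real.log m := by
    rw [add_comm]
    exact (sum_sdiff (filter_subset _ _)).symm
  have hgood : ∑ m ∈ good n, Real.log m ≤ ((good n).card : ℝ) * Real.log ((n : ℝ) ^ 2 + n) := by
    rw [← nsmul_eq_mul]
    apply sum_le_card_nsmul
    intro m hm
    have hmW : m ∈ W n := (mem_filter.1 hm).1
    have h3 := W_le hmW
    apply Real.log_le_log
    · have : 0 < m := by omega
      exact_mod_cast this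
    · exact_mod_cast h3.2.2
  have hbad : ∑ m ∈ W n \ good n, Real.log m ≤
      ∑ m ∈ W n, ∑ p ∈ P, ∑ j ∈ Icc 1 J, if p ^ j ∣ m then Real.log p else 0 := by
    have h2 : ∑ m ∈ W n \ good n, Real.log m =
        ∑ m ∈ W n \ good n, ∑ p ∈ P, ∑ j ∈ Icc 1 J, if p ^ j ∣ m then Real.log p else 0 := by
      apply sum_congr rfl
      intro m hm
      obtain ⟨hmW, hmg⟩ := mem_sdiff.1 hm
      have h3 := W_le hmW
      apply PrimePowers_log (by omega) (Nat.log_mono_right h3.2.2) P hP
      intro p hp hpm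
      rw [hPdef, mem_filter, mem_range]
      refine ⟨?_, hp⟩
      by_contra hcon
      apply hmg
      unfold good
      rw [mem_filter]
      exact ⟨hmW, p, hp, hpm, lt_pow_iff.2 (by omega)⟩
    rw [h2]
    apply sum_le_sum_of_subset_of_nonneg sdiff_subset
    intro m _ _
    apply sum_nonneg
    intro p _
    apply sum_nonneg
    intro j _
    split_ifs
    · exact Real.log_natCast_nonneg _
    · exact le_rfl
  have hexch : ∑ m ∈ W n, ∑ p ∈ P, ∑ j ∈ Icc 1 J, (if p ^ j ∣ m then Real.log p else 0) =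
      ∑ p ∈ P, ∑ j ∈ Icc 1 J, (((W n).filter (fun m => p ^ j ∣ m)).card : ℝ) * Real.log p := by
    rw [sum_comm]
    apply sum_congr rfl
    intro p _
    rw [sum_comm]
    apply sum_congr rfl
    intro j _
    rw [← sum_filter, sum_const, nsmul_eq_mul]
  have hcount : ∀ p ∈ P, ∀ j ∈ Icc 1 J,
      (((W n).filter (fun m => p ^ j ∣ m)).card : ℝ) * Real.log p ≤
        ((h / p ^ j : ℕ) : ℝ) * Real.log p + if p ∈ exc n j then Real.log p else 0 := by
    intro p hp j _
    have hlog : 0 ≤ Real.log p := Real.log_natCast_nonneg _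
    have hpp := hP p hp
    split_ifs with he
    · have h3 := PrimePowers_card_le (n ^ 2) h (p ^ j) (pow_pos hpp.pos j)
      have h4 : (((W n).filter (fun m => p ^ j ∣ m)).card : ℝ) ≤ ((h / p ^ j : ℕ) : ℝ) + 1 := by
        exact_mod_cast h3
      nlinarith
    · have h3 : (W n).filter (fun m => p ^ j ∣ m) = ∅ := by
        rw [filter_eq_empty_iff]
        intro m hm hdvd
        apply he
        unfold exc
        rw [mem_filter]
        exact ⟨(mem_filter.1 hp).1, hpp, Or.inr ⟨m, hm, hdvd⟩⟩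
      rw [h3, card_empty, Nat.cast_zero, zero_mul, add_zero]
      positivity
  have hsum : ∑ p ∈ P, ∑ j ∈ Icc 1 J,
      (((W n).filter (fun m => p ^ j ∣ m)).card : ℝ) * Real.log p ≤
      Real.log (h.factorial) + ∑ j ∈ Icc 1 J, ∑ p ∈ exc n j, Real.log p := by
    have h3 : ∑ p ∈ P, ∑ j ∈ Icc 1 J,
        (((W n).filter (fun m => p ^ j ∣ m)).card : ℝ) * Real.log p ≤
        ∑ p ∈ P, ∑ j ∈ Icc 1 J, (((h / p ^ j : ℕ) : ℝ) * Real.log p +
          if p ∈ exc n j then Real.log p else 0) :=
      sum_le_sum fun p hp => sum_le_sum fun j hj => hcount p hp j hj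
    refine h3.trans ?_
    simp only [sum_add_distrib]
    apply add_le_add
    · apply PrimePowers_fact _ P hP
      apply Nat.log_mono_right
      have := Nat.totient_le n
      nlinarith
    · rw [sum_comm]
      apply le_of_eq
      apply sum_congr rfl
      intro j _
      rw [← sum_filter]
      apply sum_congr _ (fun _ _ => rfl)
      ext p
      rw [mem_filter]
      constructor
      · exact fun hp => hp.2
      · intro hp
        refine ⟨?_, hp⟩
        unfold exc at hp
        rw [mem_filter] at hp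
        rw [hPdef, mem_filter]
        exact ⟨hp.1, hp.2.1⟩
  rw [hsplit] at h1
  rw [hexch] at hbad
  linarith

end Pool.Agent.Helper19.LPF
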