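import Mathlib

/-!
# LPF-8: two elementary series

First series: `a_l = min 1 (t l) / l ^ 2 * √l`, i.e. `min 1 (t l) * l ^ (-3/2)` for `l ≥ 1` and `0` for `l = 0`.
Use the telescoping inequalities `1 / √l ≤ 2 (√l - √(l-1))` for `l ≥ 1` and `l ^ (-3/2) ≤ 2 (1/√(l-1) - 1/√l)` for
`l ≥ 2`.
* `t ≥ 1`: the sum is `≤ Σ l ^ (-3/2) ≤ 1 + 2 = 3 ≤ 5 √t`.
* `t < 1`: let `M = ⌊1/t⌋ ≥ 1`, `M ≤ 1/t < M + 1`. Terms `l ≤ M`: `≤ t / √l`, total `≤ 2 t √M ≤ 2 √t`.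
  Terms `l > M`: `≤ l ^ (-3/2)`, total `≤ 2 / √M`, and `M ≥ (1/t)/2` (as `M + 1 ≤ 2 M`) gives `2 / √M ≤ 2 √2 √t`.
  `2 + 2 √2 ≤ 5`.

Second series: `≤ t Σ_{l ≥ 1} l ^ (-3/2) ≤ 3 t`.
-/

set_option autoImplicit false
open Finset

namespace Pool.Agent.Helper19.LPF

private theorem sumMin_A (k : ℕ) : 1 / √((k + 1 : ℕ) : ℝ) ≤ 2 * (√((k + 1 : ℕ) : ℝ) - √(k : ℝ)) := by
  have hb : 0 ≤ √(k : ℝ) := Real.sqrt_nonneg _
  have ha : 0 < √((k + 1 : ℕ) : ℝ) := Real.sqrt_pos.mpr (by positivity)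
  have hb2 : √(k : ℝ) * √(k : ℝ) = k := Real.mul_self_sqrt (Nat.cast_nonneg k)
  have ha2 : √((k + 1 : ℕ) : ℝ) * √((k + 1 : ℕ) : ℝ) = k + 1 := by
    rw [Real.mul_self_sqrt (by positivity)]; push_cast; ring
  rw [div_le_iff₀ ha]
  nlinarith [sq_nonneg (√((k + 1 : ℕ) : ℝ) - √(k : ℝ))]

private theorem sumMin_B (k : ℕ) (hk : 1 ≤ k) :
    1 / (((k + 1 : ℕ) : ℝ) * √((k + 1 : ℕ) : ℝ)) ≤ 2 / √(k : ℝ) - 2 / √((k + 1 : ℕ) : ℝ) := by
  have hk0 : (0 : ℝ) < k := by exact_mod_cast hk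
  have hb : 0 < √(k : ℝ) := Real.sqrt_pos.mpr hk0
  have ha : 0 < √((k + 1 : ℕ) : ℝ) := Real.sqrt_pos.mpr (by positivity)
  have hA := sumMin_A k
  rw [div_le_iff₀ ha] at hA
  have hab : √(k : ℝ) ≤ √((k + 1 : ℕ) : ℝ) := Real.sqrt_le_sqrt (by push_cast; linarith)
  have ha2 : √((k + 1 : ℕ) : ℝ) * √((k + 1 : ℕ) : ℝ) = ((k + 1 : ℕ) : ℝ) :=
    Real.mul_self_sqrt (by positivity)
  have e : ((k + 1 : ℕ) : ℝ) * √((k + 1 : ℕ) : ℝ) =
      √((k + 1 : ℕ) : ℝ) * √((k + 1 : ℕ) : ℝ) * √((k + 1 : ℕ) : ℝ) := by rw [ha2]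
  rw [e, div_sub_div _ _ hb.ne' ha.ne', div_le_div_iff₀ (by positivity) (by positivity)]
  generalize √((k + 1 : ℕ) : ℝ) = a at *
  generalize √(k : ℝ) = b at *
  have h1 : b ≤ (2 * (a - b) * a) * a := by nlinarith
  have h2 : 1 * (b * a) ≤ ((2 * (a - b) * a) * a) * a := by
    rw [one_mul]; exact mul_le_mul_of_nonneg_right h1 ha.le
  calc 1 * (b * a) ≤ ((2 * (a - b) * a) * a) * a := h2
    _ = (2 * a - b * 2) * (a * a * a) := by ring

private theorem sumMin_sumA (N : ℕ) : ∑ l ∈ range (N + 1), 1 / √(l : ℝ) ≤ 2 * √(N : ℝ) := by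
  induction N with
  | zero => simp
  | succ k ih =>
    rw [sum_range_succ]
    have := sumMin_A k
    linarith

private theorem sumMin_sumB (M : ℕ) (hM : 1 ≤ M) (N : ℕ) (hN : M ≤ N) :
    ∑ l ∈ Ioc M N, 1 / ((l : ℝ) * √(l : ℝ)) ≤ 2 / √(M : ℝ) - 2 / √(N : ℝ) := by
  induction N, hN using Nat.le_induction with
  | base => simp
  | succ k hk ih =>
    rw [sum_Ioc_succ_top hk]
    have := sumMin_B k (by omega)
    linarith

private theorem sumMin_sumB' (M : ℕ) (hM : 1 ≤ M) (N : ℕ) :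
    ∑ l ∈ Ioc M N, 1 / ((l : ℝ) * √(l : ℝ)) ≤ 2 / √(M : ℝ) := by
  rcases le_total M N with h | h
  · have := sumMin_sumB M hM N h
    have h2 : 0 ≤ 2 / √(N : ℝ) := by positivity
    linarith
  · rw [Ioc_eq_empty_of_le h, sum_empty]; positivity

private theorem sumMin_sum3 (N : ℕ) : ∑ l ∈ range N, 1 / ((l : ℝ) * √(l : ℝ)) ≤ 3 := by
  have h1 : ∑ l ∈ range N, 1 / ((l : ℝ) * √(l : ℝ)) ≤
      ∑ l ∈ insert 0 (insert 1 (Ioc 1 N)), 1 / ((l : ℝ) * √(l : ℝ)) := by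
    apply sum_le_sum_of_subset_of_nonneg
    · intro l hl
      rw [mem_range] at hl
      simp only [mem_insert, mem_Ioc]
      omega
    · intros; positivity
  rw [sum_insert (by simp), sum_insert (by simp)] at h1
  have h2 := sumMin_sumB' 1 le_rfl N
  simp only [Nat.cast_zero, Nat.cast_one, Real.sqrt_one, zero_mul, div_zero, mul_one, div_one,
    zero_add] at h1 h2
  linarith

private theorem sumMin_term (t : ℝ) (ht : 0 < t) (l : ℕ) :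
    0 ≤ min 1 (t * l) / (l : ℝ) ^ 2 * √(l : ℝ) ∧
    min 1 (t * l) / (l : ℝ) ^ 2 * √(l : ℝ) ≤ t * (1 / √(l : ℝ)) ∧
    min 1 (t * l) / (l : ℝ) ^ 2 * √(l : ℝ) ≤ 1 / ((l : ℝ) * √(l : ℝ)) ∧
    0 ≤ min 1 (t * l) / (l : ℝ) ^ 2 / √(l : ℝ) ∧
    min 1 (t * l) / (l : ℝ) ^ 2 / √(l : ℝ) ≤ t * (1 / ((l : ℝ) * √(l : ℝ))) := by
  rcases Nat.eq_zero_or_pos l with rfl | hl
  · simp
  have hl0 : (0 : ℝ) < l := by exact_mod_cast hl
  have hs : 0 < √(l : ℝ) := Real.sqrt_pos.mpr hl0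
  have hs2 : √(l : ℝ) * √(l : ℝ) = l := Real.mul_self_sqrt hl0.le
  have hm0 : 0 ≤ min 1 (t * (l : ℝ)) := le_min zero_le_one (by positivity)
  have hm1 : min 1 (t * (l : ℝ)) ≤ 1 := min_le_left _ _
  have hm2 : min 1 (t * (l : ℝ)) ≤ t * l := min_le_right _ _
  refine ⟨by positivity, ?_, ?_, by positivity, ?_⟩
  · calc min 1 (t * (l : ℝ)) / (l : ℝ) ^ 2 * √(l : ℝ) ≤ t * l / (l : ℝ) ^ 2 * √(l : ℝ) := by gcongr
      _ = t * (1 / √(l : ℝ)) := by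
        field_simp
        nlinarith
  · calc min 1 (t * (l : ℝ)) / (l : ℝ) ^ 2 * √(l : ℝ) ≤ 1 / (l : ℝ) ^ 2 * √(l : ℝ) := by gcongr
      _ = 1 / ((l : ℝ) * √(l : ℝ)) := by
        field_simp
        nlinarith
  · calc min 1 (t * (l : ℝ)) / (l : ℝ) ^ 2 / √(l : ℝ) ≤ t * l / (l : ℝ) ^ 2 / √(l : ℝ) := by gcongr
      _ = t * (1 / ((l : ℝ) * √(l : ℝ))) := by
        field_simp

private theorem sumMin_fin (t : ℝ) (ht : 0 < t) (N : ℕ) :
    ∑ l ∈ range N, min 1 (t * l) / (l : ℝ) ^ 2 * √(l : ℝ) ≤ 5 * √t := by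
  have hst : 0 < √t := Real.sqrt_pos.mpr ht
  have hst2 : √t * √t = t := Real.mul_self_sqrt ht.le
  rcases le_total 1 t with h1 | h1
  · have h2 : ∑ l ∈ range N, min 1 (t * l) / (l : ℝ) ^ 2 * √(l : ℝ) ≤ 3 :=
      (sum_le_sum (fun l _ => (sumMin_term t ht l).2.2.1)).trans (sumMin_sum3 N)
    have h3 : 1 ≤ √t := by rw [← Real.sqrt_one]; exact Real.sqrt_le_sqrt h1
    linarith
  · set M : ℕ := ⌊1 / t⌋₊ with hM
    have hM1 : 1 ≤ M := by
      rw [hM, Nat.le_floor_iff (by positivity), Nat.cast_one, le_div_iff₀ ht]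
      linarith
    have hM2 : (M : ℝ) ≤ 1 / t := Nat.floor_le (by positivity)
    have hM3 : 1 / t < M + 1 := Nat.lt_floor_add_one _
    have hM4 : (1 : ℝ) ≤ M := by exact_mod_cast hM1
    rw [le_div_iff₀ ht] at hM2
    rw [div_lt_iff₀ ht] at hM3
    have hsM : 0 < √(M : ℝ) := Real.sqrt_pos.mpr (by linarith)
    have hsM2 : √(M : ℝ) * √(M : ℝ) = M := Real.mul_self_sqrt (by linarith)
    rw [← sum_filter_add_sum_filter_not (range N) (fun l => l ≤ M)]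
    have hA : ∑ l ∈ (range N).filter (fun l => l ≤ M), min 1 (t * l) / (l : ℝ) ^ 2 * √(l : ℝ) ≤
        t * (2 * √(M : ℝ)) := by
      calc ∑ l ∈ (range N).filter (fun l => l ≤ M), min 1 (t * l) / (l : ℝ) ^ 2 * √(l : ℝ)
          ≤ ∑ l ∈ (range N).filter (fun l => l ≤ M), t * (1 / √(l : ℝ)) :=
            sum_le_sum (fun l _ => (sumMin_term t ht l).2.1)
        _ ≤ ∑ l ∈ range (M + 1), t * (1 / √(l : ℝ)) := by
            apply sum_le_sum_of_subset_of_nonneg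
            · intro l hl
              rw [mem_filter] at hl
              rw [mem_range]
              omega
            · intros; positivity
        _ = t * ∑ l ∈ range (M + 1), 1 / √(l : ℝ) := by rw [mul_sum]
        _ ≤ t * (2 * √(M : ℝ)) := mul_le_mul_of_nonneg_left (sumMin_sumA M) ht.le
    have hB : ∑ l ∈ (range N).filter (fun l => ¬ l ≤ M), min 1 (t * l) / (l : ℝ) ^ 2 * √(l : ℝ) ≤
        2 / √(M : ℝ) := by
      calc ∑ l ∈ (range N).filter (fun l => ¬ l ≤ M), min 1 (t * l) / (l : ℝ) ^ 2 * √(l : ℝ)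
          ≤ ∑ l ∈ (range N).filter (fun l => ¬ l ≤ M), 1 / ((l : ℝ) * √(l : ℝ)) :=
            sum_le_sum (fun l _ => (sumMin_term t ht l).2.2.1)
        _ ≤ ∑ l ∈ Ioc M N, 1 / ((l : ℝ) * √(l : ℝ)) := by
            apply sum_le_sum_of_subset_of_nonneg
            · intro l hl
              rw [mem_filter, mem_range] at hl
              rw [mem_Ioc]
              omega
            · intros; positivity
        _ ≤ 2 / √(M : ℝ) := sumMin_sumB' M hM1 N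
    have hu0 : 0 ≤ √t * √(M : ℝ) := by positivity
    have hu2 : (√t * √(M : ℝ)) * (√t * √(M : ℝ)) = t * M := by
      calc (√t * √(M : ℝ)) * (√t * √(M : ℝ)) = (√t * √t) * (√(M : ℝ) * √(M : ℝ)) := by ring
        _ = t * M := by rw [hst2, hsM2]
    have hu3 : √t * √(M : ℝ) ≤ 1 := by nlinarith
    have hu4 : 2 ≤ 3 * (√t * √(M : ℝ)) := by
      by_contra hc
      push Not at hc
      nlinarith
    have hC : t * (2 * √(M : ℝ)) ≤ 2 * √t := by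
      calc t * (2 * √(M : ℝ)) = (√t * √t) * (2 * √(M : ℝ)) := by rw [hst2]
        _ = 2 * √t * (√t * √(M : ℝ)) := by ring
        _ ≤ 2 * √t * 1 := mul_le_mul_of_nonneg_left hu3 (by positivity)
        _ = 2 * √t := mul_one _
    have hD : 2 / √(M : ℝ) ≤ 3 * √t := by
      rw [div_le_iff₀ hsM]
      linarith
    linarith

theorem sum_min_one (t : ℝ) (ht : 0 < t) :
    Summable (fun l : ℕ => min 1 (t * l) / (l : ℝ) ^ 2 * √(l : ℝ)) ∧
      ∑' l : ℕ, min 1 (t * l) / (l : ℝ) ^ 2 * √(l : ℝ) ≤ 5 * √t := by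
  exact ⟨summable_of_sum_range_le (fun l => (sumMin_term t ht l).1) (sumMin_fin t ht),
    Real.tsum_le_of_sum_range_le (fun l => (sumMin_term t ht l).1) (sumMin_fin t ht)⟩

theorem sum_min_two (t : ℝ) (ht : 0 < t) :
    Summable (fun l : ℕ => min 1 (t * l) / (l : ℝ) ^ 2 / √(l : ℝ)) ∧
      ∑' l : ℕ, min 1 (t * l) / (l : ℝ) ^ 2 / √(l : ℝ) ≤ 3 * t := by
  have h : ∀ N : ℕ, ∑ l ∈ range N, min 1 (t * l) / (l : ℝ) ^ 2 / √(l : ℝ) ≤ 3 * t := by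
    intro N
    calc ∑ l ∈ range N, min 1 (t * l) / (l : ℝ) ^ 2 / √(l : ℝ)
        ≤ ∑ l ∈ range N, t * (1 / ((l : ℝ) * √(l : ℝ))) :=
          sum_le_sum (fun l _ => (sumMin_term t ht l).2.2.2.2)
      _ = t * ∑ l ∈ range N, 1 / ((l : ℝ) * √(l : ℝ)) := by rw [mul_sum]
      _ ≤ t * 3 := mul_le_mul_of_nonneg_left (sumMin_sum3 N) ht.le
      _ = 3 * t := mul_comm _ _
  exact ⟨summable_of_sum_range_le (fun l => (sumMin_term t ht l).2.2.2.1) h,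
    Real.tsum_le_of_sum_range_le (fun l => (sumMin_term t ht l).2.2.2.1) h⟩

end Pool.Agent.Helper19.LPF
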