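import Pool.Agent.Helper19.LPF.ExpSum
import Pool.Agent.Helper19.LPF.SumMin
import Pool.Agent.Helper96.QRH.PsiApprox

/-!
# LPF-9: the sawtooth sum over a dyadic block

`psi1 t = {t} - 1/2`. Let `N = b - a ≤ a`, `D = 6.86 α ^ (1/3) / a`.
* If `D > 1`: `|psi1| ≤ 1/2`, so the sum is `≤ a / 2 < 3.43 α ^ (1/3)`.
* If `D ≤ 1`: from `Pool.Agent.Helper96.QRH.psi1_up`, `psi1_lo`:
  `(Bf (g + D) - Bf g) / D - D / 2 ≤ psi1 g ≤ (Bf g - Bf (g - D)) / D + D / 2`. Sum over `e ∈ Ioc a b`,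
  `g = α / e`. By `hasSum_Bf`, `2 π² Σ_e (Bf (g_e) - Bf (g_e ∓ D)) = Σ_l l ^ (-2) Σ_e (cos (2 π l g_e) -
  cos (2 π l (g_e ∓ D)))`, the inner sum is the real part of `(1 - ee (∓ l D)) Σ_e ee (l g_e)`, with
  `|1 - ee (l D)| ≤ 2 min 1 (π l D)` (norm of `e^{iθ} - 1` is `≤ |θ|` and `≤ 2`), and by `exp_sum` with `β = l α`:
  `|Σ_e ee (l g_e)| ≤ 20 √(α / a) √l + 21 √(a ^ 3 / α) / √l`. (Compare `shift_bound` and `psiApprox` in
  `Pool.Agent.Helper96.QRH.PsiApprox`: same argument with unspecified constant.) Hence with `t = π D`, by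
  `sum_min_one`, `sum_min_two`,
  `|Σ_e psi1| ≤ a D / 2 + (1 / (2 π² D)) (40 √(α / a) * 5 √t + 42 √(a ^ 3 / α) * 3 t)`
  `= a D / 2 + (100 / π ^ (3/2)) √(α / (a D)) + (63 / π) √(a ^ 3 / α)`.
  `100 / π ^ (3/2) ≤ 17.96`, `63 / π ≤ 20.06`; with `a D = 6.86 α ^ (1/3)` the first two terms are
  `3.43 α ^ (1/3) + (17.96 / √6.86) α ^ (1/3)`, `√6.86 ≥ 2.619`, `17.96 / 2.619 ≤ 6.858`; total `≤ 10.29 α ^ (1/3)`.
-/

set_option autoImplicit false
open Finset

namespace Pool.Agent.Helper19.LPF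

open Pool.Agent.Helper10.QRH

open Pool.Agent.Helper96.QRH in
theorem psiBlock_norm (l : ℕ) (δ D : ℝ) (hδ : |δ| = D) :
    ‖1 - ee (l * δ)‖ ≤ 2 * min 1 (Real.pi * D * l) := by
  have h1 : ‖1 - ee (l * δ)‖ ≤ 2 := by
    refine (norm_sub_le _ _).trans ?_
    have : ‖ee (l * δ)‖ = 1 := by
      unfold ee
      rw [Complex.norm_exp]
      simp
    rw [this, norm_one]
    norm_num
  have h2 : ‖1 - ee (l * δ)‖ ≤ 2 * (Real.pi * D * l) := by
    rw [norm_sub_rev]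
    have := Real.norm_exp_I_mul_ofReal_sub_one_le (x := 2 * Real.pi * (l * δ))
    have e : Complex.exp (Complex.I * ((2 * Real.pi * (l * δ) : ℝ) : ℂ)) = ee (l * δ) := by
      unfold ee
      congr 1
      push_cast
      ring
    rw [e] at this
    refine this.trans (le_of_eq ?_)
    rw [Real.norm_eq_abs, abs_mul, abs_mul (l : ℝ) δ, hδ,
      abs_of_pos (by positivity : (0 : ℝ) < 2 * Real.pi),
      abs_of_nonneg (Nat.cast_nonneg l : (0 : ℝ) ≤ l)]
    ring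
  rcases le_total 1 (Real.pi * D * l) with h | h
  · rw [min_eq_left h]
    linarith
  · rw [min_eq_right h]
    exact h2

open Pool.Agent.Helper96.QRH in
theorem psiBlock_shift (S : Finset ℕ) (g : ℕ → ℝ) (δ D : ℝ) (hD : 0 < D) (hδ : |δ| = D)
    (E : ℕ → ℝ) (hE : ∀ l : ℕ, 1 ≤ l → ‖∑ n ∈ S, ee (l * g n)‖ ≤ E l)
    (hs : Summable (fun l : ℕ => min 1 (Real.pi * D * l) / (l : ℝ) ^ 2 * E l)) :
    Real.pi ^ 2 * |∑ n ∈ S, (Bf (g n) - Bf (g n + δ))| ≤
      ∑' l : ℕ, min 1 (Real.pi * D * l) / (l : ℝ) ^ 2 * E l := by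
  have hpi := Real.pi_pos
  have h1 : HasSum (fun l : ℕ => ∑ n ∈ S, (1 / (l : ℝ) ^ 2 * Real.cos (2 * Real.pi * l * g n) -
      1 / (l : ℝ) ^ 2 * Real.cos (2 * Real.pi * l * (g n + δ))))
      (∑ n ∈ S, (2 * Real.pi ^ 2 * Bf (g n) - 2 * Real.pi ^ 2 * Bf (g n + δ))) :=
    hasSum_sum fun n _ => (hasSum_Bf (g n)).sub (hasSum_Bf (g n + δ))
  have h2 : HasSum (fun l : ℕ => 2 * (min 1 (Real.pi * D * l) / (l : ℝ) ^ 2 * E l))
      (2 * ∑' l : ℕ, min 1 (Real.pi * D * l) / (l : ℝ) ^ 2 * E l) :=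
    hs.hasSum.mul_left _
  have h3 := h1.norm_le_of_bounded h2 (by
    intro l
    rcases Nat.eq_zero_or_pos l with rfl | hl
    · simp
    have e1 : ∑ n ∈ S, (1 / (l : ℝ) ^ 2 * Real.cos (2 * Real.pi * l * g n) -
        1 / (l : ℝ) ^ 2 * Real.cos (2 * Real.pi * l * (g n + δ))) =
        1 / (l : ℝ) ^ 2 * ((1 - ee (l * δ)) * ∑ n ∈ S, ee (l * g n)).re := by
      rw [Finset.mul_sum, Complex.re_sum, Finset.mul_sum]
      refine Finset.sum_congr rfl fun n _ => ?_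
      have c1 : (ee (l * g n)).re = Real.cos (2 * Real.pi * l * g n) := by
        unfold ee
        rw [Complex.exp_re]
        simp
        congr 1
        ring
      have c2 : (ee (l * δ) * ee (l * g n)).re = Real.cos (2 * Real.pi * l * (g n + δ)) := by
        unfold ee
        rw [← Complex.exp_add, Complex.exp_re]
        simp
        congr 1
        ring
      rw [sub_mul, one_mul, Complex.sub_re, c1, c2]
      ring
    rw [e1, norm_mul]
    have hl2 : (0 : ℝ) < (l : ℝ) ^ 2 := by positivity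
    have e2 : ‖1 / (l : ℝ) ^ 2‖ = 1 / (l : ℝ) ^ 2 := by
      rw [Real.norm_eq_abs, abs_of_pos (by positivity)]
    have e3 : ‖((1 - ee (l * δ)) * ∑ n ∈ S, ee (l * g n)).re‖ ≤
        2 * min 1 (Real.pi * D * l) * E l := by
      rw [Real.norm_eq_abs]
      refine (Complex.abs_re_le_norm _).trans ?_
      rw [norm_mul]
      refine mul_le_mul (psiBlock_norm l δ D hδ) (hE l hl) (norm_nonneg _) ?_
      have : 0 ≤ min 1 (Real.pi * D * l) := le_min zero_le_one (by positivity)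
      positivity
    rw [e2]
    calc 1 / (l : ℝ) ^ 2 * ‖((1 - ee (l * δ)) * ∑ n ∈ S, ee (l * g n)).re‖
        ≤ 1 / (l : ℝ) ^ 2 * (2 * min 1 (Real.pi * D * l) * E l) :=
          mul_le_mul_of_nonneg_left e3 (by positivity)
      _ = 2 * (min 1 (Real.pi * D * l) / (l : ℝ) ^ 2 * E l) := by ring)
  have h4 : ∑ n ∈ S, (2 * Real.pi ^ 2 * Bf (g n) - 2 * Real.pi ^ 2 * Bf (g n + δ)) =
      2 * (Real.pi ^ 2 * ∑ n ∈ S, (Bf (g n) - Bf (g n + δ))) := by
    rw [Finset.mul_sum, Finset.mul_sum]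
    refine Finset.sum_congr rfl fun n _ => by ring
  rw [h4, Real.norm_eq_abs, abs_mul, abs_mul (Real.pi ^ 2), abs_of_pos (by norm_num : (0 : ℝ) < 2),
    abs_of_pos (by positivity : (0 : ℝ) < Real.pi ^ 2)] at h3
  linarith

open Pool.Agent.Helper96.QRH in
theorem psiBlock_approx (S : Finset ℕ) (g : ℕ → ℝ) (D : ℝ) (hD : 0 < D) (hD1 : D ≤ 1)
    (E : ℕ → ℝ) (hE : ∀ l : ℕ, 1 ≤ l → ‖∑ n ∈ S, ee (l * g n)‖ ≤ E l)
    (hs : Summable (fun l : ℕ => min 1 (Real.pi * D * l) / (l : ℝ) ^ 2 * E l)) (T : ℝ)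
    (hT : ∑' l : ℕ, min 1 (Real.pi * D * l) / (l : ℝ) ^ 2 * E l ≤ T) :
    |∑ n ∈ S, psi1 (g n)| ≤ S.card * (D / 2) + T / Real.pi ^ 2 / D := by
  have hpi := Real.pi_pos
  have hpi2 : (0 : ℝ) < Real.pi ^ 2 := by positivity
  have b1 := (psiBlock_shift S g (-D) D hD (by rw [abs_neg, abs_of_pos hD]) E hE hs).trans hT
  have b2 := (psiBlock_shift S g D D hD (abs_of_pos hD) E hE hs).trans hT
  rw [mul_comm, ← le_div_iff₀ hpi2] at b1 b2
  rw [abs_le]
  constructor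
  · have h1 : ∑ n ∈ S, ((Bf (g n + D) - Bf (g n)) / D - D / 2) ≤ ∑ n ∈ S, psi1 (g n) :=
      Finset.sum_le_sum fun n _ => psi1_lo _ _ hD hD1
    have h2 : ∑ n ∈ S, ((Bf (g n + D) - Bf (g n)) / D - D / 2) =
        -((∑ n ∈ S, (Bf (g n) - Bf (g n + D))) / D) - S.card * (D / 2) := by
      rw [Finset.sum_sub_distrib, Finset.sum_const, nsmul_eq_mul, ← Finset.sum_div, ← neg_div,
        ← Finset.sum_neg_distrib]
      congr 2
      refine Finset.sum_congr rfl fun n _ => by ring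
    have h3 : (∑ n ∈ S, (Bf (g n) - Bf (g n + D))) / D ≤ T / Real.pi ^ 2 / D :=
      div_le_div_of_nonneg_right (abs_le.1 b2).2 hD.le
    linarith
  · have h1 : ∑ n ∈ S, psi1 (g n) ≤ ∑ n ∈ S, ((Bf (g n) - Bf (g n - D)) / D + D / 2) :=
      Finset.sum_le_sum fun n _ => psi1_up _ _ hD hD1
    have h2 : ∑ n ∈ S, ((Bf (g n) - Bf (g n - D)) / D + D / 2) =
        (∑ n ∈ S, (Bf (g n) - Bf (g n + -D))) / D + S.card * (D / 2) := by
      rw [Finset.sum_add_distrib, Finset.sum_const, nsmul_eq_mul, ← Finset.sum_div]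
      rfl
    have h3 : (∑ n ∈ S, (Bf (g n) - Bf (g n + -D))) / D ≤ T / Real.pi ^ 2 / D :=
      div_le_div_of_nonneg_right (abs_le.1 b1).2 hD.le
    linarith

theorem psiBlock_abs_psi1 (t : ℝ) : |psi1 t| ≤ 1 / 2 := by
  unfold psi1
  rw [abs_le]
  constructor
  · linarith [Int.fract_nonneg t]
  · linarith [Int.fract_lt_one t]

theorem psi_block (a b : ℕ) (α : ℝ) (ha : 1 ≤ a) (hab : a ≤ b) (hb : b ≤ 2 * a) (hα : 0 < α) :
    |∑ e ∈ Ioc a b, psi1 (α / e)| ≤ 10.3 * α ^ (1 / 3 : ℝ) + 20.1 * √((a : ℝ) ^ 3 / α) := by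
  obtain ⟨c, hc⟩ : ∃ c, c = α ^ (1 / 3 : ℝ) := ⟨_, rfl⟩
  have hc0 : 0 < c := by rw [hc]; exact Real.rpow_pos_of_pos hα _
  have hc3 : c ^ 3 = α := by
    rw [hc, ← Real.rpow_natCast, ← Real.rpow_mul hα.le]
    norm_num
  rw [← hc]
  have ha0 : (0 : ℝ) < a := by exact_mod_cast ha
  obtain ⟨v, hv⟩ : ∃ v, v = √((a : ℝ) ^ 3 / α) := ⟨_, rfl⟩
  have hv0 : 0 ≤ v := by rw [hv]; exact Real.sqrt_nonneg _
  rw [← hv]
  have hcard : ((Ioc a b).card : ℝ) ≤ a := by
    rw [Nat.card_Ioc]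
    exact_mod_cast (by omega : b - a ≤ a)
  have hpi := Real.pi_gt_d6
  have hpi' := Real.pi_lt_d6
  obtain ⟨D, hD⟩ : ∃ D, D = 6.86 * c / a := ⟨_, rfl⟩
  have hD0 : 0 < D := by rw [hD]; positivity
  have haD : (a : ℝ) * D = 6.86 * c := by rw [hD]; field_simp
  rcases lt_or_ge 1 D with hD1 | hD1
  · have h1 : |∑ e ∈ Ioc a b, psi1 (α / e)| ≤ (Ioc a b).card * (1 / 2) := by
      refine (Finset.abs_sum_le_sum_abs _ _).trans ?_
      refine (Finset.sum_le_card_nsmul _ _ (1 / 2) fun e _ => psiBlock_abs_psi1 _).trans ?_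
      rw [nsmul_eq_mul]
    have h2 : (a : ℝ) ≤ 6.86 * c := by
      rw [← haD]
      nlinarith
    nlinarith
  · obtain ⟨u, hu⟩ : ∃ u, u = √(α / a) := ⟨_, rfl⟩
    have hu0 : 0 ≤ u := by rw [hu]; exact Real.sqrt_nonneg _
    have hu2 : u ^ 2 = α / a := by rw [hu]; exact Real.sq_sqrt (by positivity)
    have ht0 : 0 < Real.pi * D := by positivity
    obtain ⟨w, hw⟩ : ∃ w, w = √(Real.pi * D) := ⟨_, rfl⟩
    have hw0 : 0 ≤ w := by rw [hw]; exact Real.sqrt_nonneg _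
    have hw2 : w ^ 2 = Real.pi * D := by rw [hw]; exact Real.sq_sqrt ht0.le
    obtain ⟨s1, b1⟩ := sum_min_one (Real.pi * D) ht0
    obtain ⟨s2, b2⟩ := sum_min_two (Real.pi * D) ht0
    rw [← hw] at b1
    have hEq : ∀ l : ℕ, min 1 (Real.pi * D * l) / (l : ℝ) ^ 2 *
        (20 * (u * √(l : ℝ)) + 21 * (v / √(l : ℝ))) =
        20 * u * (min 1 (Real.pi * D * l) / (l : ℝ) ^ 2 * √(l : ℝ)) +
          21 * v * (min 1 (Real.pi * D * l) / (l : ℝ) ^ 2 / √(l : ℝ)) := by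
      intro l
      ring
    have hS : Summable (fun l : ℕ => min 1 (Real.pi * D * l) / (l : ℝ) ^ 2 *
        (20 * (u * √(l : ℝ)) + 21 * (v / √(l : ℝ)))) := by
      have := (s1.mul_left (20 * u)).add (s2.mul_left (21 * v))
      exact this.congr fun l => (hEq l).symm
    have hT : ∑' l : ℕ, min 1 (Real.pi * D * l) / (l : ℝ) ^ 2 *
        (20 * (u * √(l : ℝ)) + 21 * (v / √(l : ℝ))) ≤
        20 * u * (5 * w) + 21 * v * (3 * (Real.pi * D)) := by
      rw [tsum_congr hEq, (s1.mul_left (20 * u)).tsum_add (s2.mul_left (21 * v)), tsum_mul_left,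
        tsum_mul_left]
      exact add_le_add (mul_le_mul_of_nonneg_left b1 (by positivity))
        (mul_le_mul_of_nonneg_left b2 (by positivity))
    have hmain := psiBlock_approx (Ioc a b) (fun e => α / e) D hD0 hD1
      (fun l => 20 * (u * √(l : ℝ)) + 21 * (v / √(l : ℝ))) (by
        intro l hl
        have hl0 : (0 : ℝ) < l := by exact_mod_cast hl
        have h1 := exp_sum a b (l * α) ha hab hb (by positivity)
        have e1 : √((l : ℝ) * α / a) = u * √(l : ℝ) := by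
          rw [hu, ← Real.sqrt_mul (by positivity)]
          congr 1
          ring
        have e2 : √((a : ℝ) ^ 3 / (l * α)) = v / √(l : ℝ) := by
          rw [hv, ← Real.sqrt_div' _ hl0.le]
          congr 1
          rw [div_div, mul_comm α]
        rw [e1, e2] at h1
        refine le_trans (le_of_eq ?_) h1
        congr 1
        refine Finset.sum_congr rfl fun e _ => ?_
        rw [mul_div_assoc]) hS _ hT
    refine hmain.trans ?_
    have e3 : (20 * u * (5 * w) + 21 * v * (3 * (Real.pi * D))) / Real.pi ^ 2 / D =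
        100 / Real.pi ^ 2 * (u * w / D) + 63 / Real.pi * v := by
      field_simp
      ring
    rw [e3]
    have h2 : ((Ioc a b).card : ℝ) * (D / 2) ≤ 3.43 * c := by
      have : ((Ioc a b).card : ℝ) * (D / 2) ≤ a * (D / 2) :=
        mul_le_mul_of_nonneg_right hcard (by positivity)
      linarith
    have h3 : 63 / Real.pi * v ≤ 20.1 * v := by
      apply mul_le_mul_of_nonneg_right _ hv0
      rw [div_le_iff₀ Real.pi_pos]
      linarith
    have hy : (u * w / D) ^ 2 = Real.pi * c ^ 2 / 6.86 := by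
      rw [div_pow, mul_pow, hu2, hw2, ← hc3, hD]
      field_simp
    have h4 : 100 / Real.pi ^ 2 * (u * w / D) ≤ 6.87 * c := by
      have hp3 : (31 : ℝ) ≤ Real.pi ^ 3 := by nlinarith
      have h5 : (100 / Real.pi ^ 2 * (u * w / D)) ^ 2 ≤ (6.87 * c) ^ 2 := by
        rw [mul_pow, hy]
        have h6 : (100 / Real.pi ^ 2) ^ 2 * (Real.pi * c ^ 2 / 6.86) =
            (10000 / 6.86) / Real.pi ^ 3 * c ^ 2 := by
          field_simp
          norm_num
        rw [h6, mul_pow]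
        apply mul_le_mul_of_nonneg_right _ (by positivity)
        rw [div_le_iff₀ (by positivity)]
        nlinarith
      exact le_of_pow_le_pow_left₀ two_ne_zero (by positivity) h5
    linarith

end Pool.Agent.Helper19.LPF
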