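import Pool.Agent.Helper19.LPF.PsiBlock

/-!
# LPF-10: the sawtooth sum over a long interval

Induction on `J` (for all `b`). If `a = b` the sum is empty (this includes `J = 0`). Otherwise `b ≥ 2`, `J ≥ 1`; let
`c = (b + 1) / 2` (natural division, the upper half of `b`): `c ≤ b ≤ 2 c`, `1 ≤ c`, and `b ≤ 2 ^ J a` gives
`c ≤ 2 ^ (J - 1) a`.
* If `c ≤ a`: `b ≤ 2 c ≤ 2 a` and `psi_block` on `(a, b]` gives `10.3 α ^ (1/3) + 20.1 √(a ^ 3 / α)`, `a ≤ b`.
* If `a < c`: split `(a, b] = (a, c] ∪ (c, b]`, `psi_block` on `(c, b]` and the induction hypothesis on `(a, c]`: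
  total `10.3 J α ^ (1/3) + (20.1 + 31.1) √(c ^ 3 / α)`. Here `b ≥ 3` (as `1 ≤ a < c`), so `c ≤ (b + 1) / 2 ≤
  (2/3) b`, `√(c ^ 3 / α) ≤ (2/3) ^ (3/2) √(b ^ 3 / α)` and `51.2 * (2/3) ^ (3/2) ≤ 51.2 * 0.5444 ≤ 27.9 ≤ 31.1`.
-/

set_option autoImplicit false
open Finset

namespace Pool.Agent.Helper19.LPF

open Pool.Agent.Helper10.QRH

theorem psiLong_sqrt (c b : ℕ) (α : ℝ) (hα : 0 < α) (hc : 3 * c ≤ 2 * b) :
    51.2 * √((c : ℝ) ^ 3 / α) ≤ 31.1 * √((b : ℝ) ^ 3 / α) := by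
  have h1 : √((c : ℝ) ^ 3 / α) ≤ √((0.5444 : ℝ) ^ 2 * 1 * ((b : ℝ) ^ 3 / α) ) := by
    apply Real.sqrt_le_sqrt
    have hc' : (c : ℝ) ≤ 2 / 3 * b := by
      have : (3 * c : ℝ) ≤ 2 * b := by exact_mod_cast hc
      linarith
    have h2 : (c : ℝ) ^ 3 ≤ (2 / 3 * b) ^ 3 := by
      apply pow_le_pow_left₀ (by positivity) hc'
    have h3 : (c : ℝ) ^ 3 ≤ (0.5444 : ℝ) ^ 2 * 1 * (b : ℝ) ^ 3 := by
      refine h2.trans ?_
      have hb : 0 ≤ (b : ℝ) ^ 3 := by positivity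
      nlinarith
    calc (c : ℝ) ^ 3 / α ≤ ((0.5444 : ℝ) ^ 2 * 1 * (b : ℝ) ^ 3) / α := by
          apply div_le_div_of_nonneg_right h3 hα.le
      _ = _ := by ring
  have h4 : √((0.5444 : ℝ) ^ 2 * 1 * ((b : ℝ) ^ 3 / α)) = 0.5444 * √((b : ℝ) ^ 3 / α) := by
    rw [mul_one, Real.sqrt_mul (by positivity), Real.sqrt_sq (by norm_num)]
  rw [h4] at h1
  have h5 : 0 ≤ √((b : ℝ) ^ 3 / α) := Real.sqrt_nonneg _
  nlinarith

theorem psiLong_mono (a b : ℕ) (α : ℝ) (hα : 0 < α) (hab : a ≤ b) :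
    √((a : ℝ) ^ 3 / α) ≤ √((b : ℝ) ^ 3 / α) := by
  apply Real.sqrt_le_sqrt
  apply div_le_div_of_nonneg_right _ hα.le
  apply pow_le_pow_left₀ (by positivity)
  exact_mod_cast hab

theorem psi_long (a b J : ℕ) (α : ℝ) (ha : 1 ≤ a) (hab : a ≤ b) (hb : b ≤ 2 ^ J * a) (hα : 0 < α) :
    |∑ e ∈ Ioc a b, psi1 (α / e)| ≤
      10.3 * (J : ℝ) * α ^ (1 / 3 : ℝ) + 31.1 * √((b : ℝ) ^ 3 / α) := by
  induction J generalizing b with
  | zero =>
    have : a = b := by omega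
    subst this
    simp only [Ioc_self, sum_empty, abs_zero]
    positivity
  | succ J ih =>
    have hA : 0 ≤ α ^ (1 / 3 : ℝ) := Real.rpow_nonneg hα.le _
    rcases Nat.eq_or_lt_of_le hab with h | h
    · subst h
      simp only [Ioc_self, sum_empty, abs_zero]
      positivity
    · obtain ⟨c, hc⟩ : ∃ c, c = (b + 1) / 2 := ⟨_, rfl⟩
      have hc1 : c ≤ b := by omega
      have hc2 : b ≤ 2 * c := by omega
      have hc3 : c ≤ 2 ^ J * a := by
        have : b ≤ 2 * (2 ^ J * a) := by rw [← mul_assoc, ← pow_succ']; exact hb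
        omega
      push_cast
      rcases Nat.lt_or_ge a c with h' | h'
      · have h1 := ih c h'.le hc3
        have h2 := psi_block c b α (by omega) hc1 hc2 hα
        have h3 : ∑ e ∈ Ioc a b, psi1 (α / e) =
            ∑ e ∈ Ioc a c, psi1 (α / e) + ∑ e ∈ Ioc c b, psi1 (α / e) := by
          rw [← sum_union]
          · rw [Ioc_union_Ioc_eq_Ioc h'.le hc1]
          · rw [Finset.disjoint_left]
            intro x hx hx'
            rw [mem_Ioc] at hx hx'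
            omega
        have h4 := psiLong_sqrt c b α hα (by omega)
        rw [h3]
        have h5 := abs_add_le (∑ e ∈ Ioc a c, psi1 (α / e)) (∑ e ∈ Ioc c b, psi1 (α / e))
        nlinarith
      · have h2 := psi_block a b α ha hab (by omega) hα
        have h4 := psiLong_mono a b α hα hab
        have h5 : 0 ≤ √((b : ℝ) ^ 3 / α) := Real.sqrt_nonneg _
        have hJ : (0 : ℝ) ≤ J := by positivity
        have h6 : 0 ≤ (J : ℝ) * α ^ (1 / 3 : ℝ) := by positivity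
        nlinarith

end Pool.Agent.Helper19.LPF
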