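import Pool.Agent.Helper53.AV.SelW

/-!
# LPF-13: an abstract form of Selberg's upper bound sieve

Use the weights `lamW 1 R` of `Pool.Agent.Helper69.EK.Selberg`, `Pool.Agent.Helper53.AV.SelW`: `lamW_one`,
`abs_lamW_le` (`|λ_d| ≤ 1`), `lamW_ne` (support: squarefree `1 ≤ d ≤ R`), `quad`
(`Σ Σ λ_{d1} λ_{d2} / lcm = 1 / GG 1 R`), and `GG 1 R ≥ Σ_{m ≤ R} 1/m ≥ log (R + 1)` (see the proof of `GG_lower`:
`G1_lower`, `G1_le` with `D = 1`, `log_add_one_le_harmonic`).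

If no prime `≤ R` divides `d` then `Σ_{ν ∣ d, ν ≤ R} λ_ν = λ_1 = 1` (a `ν` with `1 < ν ≤ R`, `ν ∣ d` would have a
prime factor `≤ R` of `d`). So the left-hand side is at most
`Σ_{d ∈ D} w d (Σ_{ν ∈ Icc 1 R, ν ∣ d} λ_ν) ^ 2 = Σ_{ν1, ν2 ≤ R} λ_{ν1} λ_{ν2} Σ_{d ∈ D, lcm ν1 ν2 ∣ d} w d`
`≤ X Σ Σ λ λ / lcm + Err Σ Σ |λ| |λ| ≤ X / GG 1 R + R ^ 2 Err`; here `1 ≤ lcm ν1 ν2 ≤ R ^ 2`.
-/

set_option autoImplicit false
open Finset

namespace Pool.Agent.Helper19.LPF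

theorem Sel_GG_lower (R : ℕ) :
    Real.log ((R : ℝ) + 1) ≤ Pool.Agent.Helper69.EK.GG 1 R := by
  have h0 := (Pool.Agent.Helper69.EK.G1_lower R).trans
    (Pool.Agent.Helper69.EK.G1_le 1 R Nat.one_pos)
  have h1 := log_add_one_le_harmonic R
  have h3 : ((harmonic R : ℚ) : ℝ) = ∑ m ∈ Icc 1 R, (1 : ℝ) / m := by
    rw [harmonic_eq_sum_Icc]
    push_cast
    simp
  rw [h3] at h1
  have h4 := h1.trans h0
  simpa using h4

open Classical in
theorem selberg (D : Finset ℕ) (w : ℕ → ℝ) (X Err : ℝ) (R : ℕ) (hw : ∀ d, 0 ≤ w d) (hX : 0 ≤ X)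
    (hR : 1 ≤ R)
    (h : ∀ ν : ℕ, 1 ≤ ν → ν ≤ R ^ 2 → |∑ d ∈ D.filter (fun d => ν ∣ d), w d - X / ν| ≤ Err) :
    ∑ d ∈ D.filter (fun d => ∀ p : ℕ, p.Prime → p ≤ R → ¬ p ∣ d), w d ≤
      X / Real.log ((R : ℝ) + 1) + (R : ℝ) ^ 2 * Err := by
  set lam : ℕ → ℝ := Pool.Agent.Helper69.EK.lamW 1 R with hlam
  have hErr : 0 ≤ Err :=
    le_trans (abs_nonneg _) (h 1 le_rfl (Nat.one_le_pow _ _ (by omega)))
  -- step 1
  have h1 : ∑ d ∈ D.filter (fun d => ∀ p : ℕ, p.Prime → p ≤ R → ¬ p ∣ d), w d ≤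
      ∑ d ∈ D, w d * (∑ ν ∈ Icc 1 R, if ν ∣ d then lam ν else 0) ^ 2 := by
    have e1 : ∀ d ∈ D.filter (fun d => ∀ p : ℕ, p.Prime → p ≤ R → ¬ p ∣ d),
        w d = w d * (∑ ν ∈ Icc 1 R, if ν ∣ d then lam ν else 0) ^ 2 := by
      intro d hd
      rw [mem_filter] at hd
      have e2 : (∑ ν ∈ Icc 1 R, if ν ∣ d then lam ν else 0) = 1 := by
        rw [Finset.sum_eq_single 1]
        · rw [if_pos (one_dvd d), hlam]
          exact Helper53AV.lamW_one 1 R hR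
        · intro ν hν hν1
          rw [mem_Icc] at hν
          rw [if_neg]
          intro hdv
          exact hd.2 ν.minFac (Nat.minFac_prime hν1)
            ((Nat.minFac_le (by omega)).trans hν.2) ((Nat.minFac_dvd ν).trans hdv)
        · intro h1
          exact absurd (mem_Icc.2 ⟨le_rfl, hR⟩) h1
      rw [e2]; ring
    rw [Finset.sum_congr rfl e1]
    exact Finset.sum_le_sum_of_subset_of_nonneg (filter_subset _ _)
      (fun d _ _ => mul_nonneg (hw d) (sq_nonneg _))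
  -- step 2
  have h2 : ∑ d ∈ D, w d * (∑ ν ∈ Icc 1 R, if ν ∣ d then lam ν else 0) ^ 2 =
      ∑ a ∈ Icc 1 R, ∑ b ∈ Icc 1 R, lam a * lam b *
        ∑ d ∈ D.filter (fun d => Nat.lcm a b ∣ d), w d := by
    have e1 : ∀ d ∈ D, w d * (∑ ν ∈ Icc 1 R, if ν ∣ d then lam ν else 0) ^ 2 =
        ∑ a ∈ Icc 1 R, ∑ b ∈ Icc 1 R, lam a * lam b * (if Nat.lcm a b ∣ d then w d else 0) := by
      intro d _
      rw [sq, Finset.sum_mul_sum, Finset.mul_sum]
      apply Finset.sum_congr rfl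
      intro a _
      rw [Finset.mul_sum]
      apply Finset.sum_congr rfl
      intro b _
      by_cases ha : a ∣ d
      · by_cases hb : b ∣ d
        · rw [if_pos ha, if_pos hb, if_pos (Nat.lcm_dvd ha hb)]; ring
        · rw [if_neg hb, if_neg (fun hh => hb ((Nat.dvd_lcm_right a b).trans hh))]; ring
      · rw [if_neg ha, if_neg (fun hh => ha ((Nat.dvd_lcm_left a b).trans hh))]; ring
    rw [Finset.sum_congr rfl e1, Finset.sum_comm]
    apply Finset.sum_congr rfl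
    intro a _
    rw [Finset.sum_comm]
    apply Finset.sum_congr rfl
    intro b _
    rw [← Finset.mul_sum, Finset.sum_filter]
  -- step 3
  have h3 : ∀ a ∈ Icc 1 R, ∀ b ∈ Icc 1 R, lam a * lam b *
        ∑ d ∈ D.filter (fun d => Nat.lcm a b ∣ d), w d ≤
      X * (lam a * lam b / (Nat.lcm a b : ℝ)) + Err := by
    intro a ha b hb
    rw [mem_Icc] at ha hb
    have hl1 : 1 ≤ Nat.lcm a b := Nat.lcm_pos (by omega) (by omega)
    have hl2 : Nat.lcm a b ≤ R ^ 2 := by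
      rw [sq]
      exact (Nat.le_of_dvd (Nat.mul_pos (by omega) (by omega)) (Nat.lcm_dvd_mul a b)).trans
        (Nat.mul_le_mul ha.2 hb.2)
    have hh := h _ hl1 hl2
    set s := ∑ d ∈ D.filter (fun d => Nat.lcm a b ∣ d), w d with hs
    have e1 : lam a * lam b * s = X * (lam a * lam b / (Nat.lcm a b : ℝ)) +
        lam a * lam b * (s - X / (Nat.lcm a b : ℝ)) := by ring
    rw [e1]
    have e2 : lam a * lam b * (s - X / (Nat.lcm a b : ℝ)) ≤ Err := by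
      refine (le_abs_self _).trans ?_
      rw [abs_mul, abs_mul]
      have g1 : |lam a| ≤ 1 := Helper53AV.abs_lamW_le 1 R a hR
      have g2 : |lam b| ≤ 1 := Helper53AV.abs_lamW_le 1 R b hR
      have g3 : |lam a| * |lam b| ≤ 1 := mul_le_one₀ g1 (abs_nonneg _) g2
      calc |lam a| * |lam b| * |s - X / (Nat.lcm a b : ℝ)|
          ≤ 1 * Err := mul_le_mul g3 hh (abs_nonneg _) zero_le_one
        _ = Err := one_mul _
    linarith
  have h4 : ∑ a ∈ Icc 1 R, ∑ b ∈ Icc 1 R, lam a * lam b *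
        ∑ d ∈ D.filter (fun d => Nat.lcm a b ∣ d), w d ≤
      X * (1 / Pool.Agent.Helper69.EK.GG 1 R) + (R : ℝ) ^ 2 * Err := by
    calc _ ≤ ∑ a ∈ Icc 1 R, ∑ b ∈ Icc 1 R, (X * (lam a * lam b / (Nat.lcm a b : ℝ)) + Err) :=
          Finset.sum_le_sum (fun a ha => Finset.sum_le_sum (fun b hb => h3 a ha b hb))
      _ = X * (∑ a ∈ Icc 1 R, ∑ b ∈ Icc 1 R, lam a * lam b / (Nat.lcm a b : ℝ)) +
          (R : ℝ) ^ 2 * Err := by
        simp only [Finset.sum_add_distrib, Finset.sum_const, Nat.card_Icc, nsmul_eq_mul,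
          ← Finset.mul_sum]
        rw [Nat.add_sub_cancel]
        ring
      _ = _ := by rw [hlam, Helper53AV.quad 1 R hR]
  have hlog : 0 < Real.log ((R : ℝ) + 1) := by
    apply Real.log_pos
    have : (1 : ℝ) ≤ R := by exact_mod_cast hR
    linarith
  have h5 : X * (1 / Pool.Agent.Helper69.EK.GG 1 R) ≤ X / Real.log ((R : ℝ) + 1) := by
    rw [div_eq_mul_one_div X]
    exact mul_le_mul_of_nonneg_left (one_div_le_one_div_of_le hlog (Sel_GG_lower R)) hX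
  rw [h2] at h1
  linarith [h1, h4, h5]

end Pool.Agent.Helper19.LPF
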