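import Pool.Agent.Helper19.LPF.Cnt
import Pool.Agent.Helper19.LPF.Sel

/-!
# LPF-14: Selberg's sieve applied

`L = log n ≥ 28 log 10 ≥ 64.4`. `S n ≤ (21/20) L * card (SP n)` (`log_Z_le`). Let `R = ⌊n ^ (1/12)⌋ ≥ 1`,
`w d = #{m ∈ W n : d ∣ m}`, `D = Ioc n (Z n)`, `X = h L / 20`. Each `p ∈ SP n` is a prime `> n > R` dividing an element
of the window, so `card (SP n) ≤ Σ_{d ∈ D, no prime ≤ R divides d} w d`, to which `selberg` applies.
* `R + 1 > n ^ (1/12)`, so `log (R + 1) ≥ L / 12` and `X / log (R + 1) ≤ 12 h / 20 = (3/5) h`.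
* `R ^ 2 ≤ n ^ (1/6)`. For `1 ≤ ν ≤ R ^ 2` use `cnt_bound` with `J = ⌊L / 13.8⌋ + 1`; `2 ν ≤ 2 n ^ (1/6) ≤ n`.
  Condition `Z n ≤ 2 ^ J (n - ν)`: `n - ν ≥ n - n ^ (1/6) ≥ n (1 - 0.001)`, and
  `J log 2 ≥ (L / 13.8) * 0.6931 ≥ 0.050224 L ≥ L / 20 + 0.000224 * 64.4 ≥ L / 20 + 0.0144`, while
  `- log (1 - 0.001) ≤ 0.0011`. So `2 ^ J (n - ν) ≥ n ^ (1/20) * n ≥ Z n`.
* `Err = 20.6 (L / 13.8 + 1) (n ^ 2 + n) ^ (1/3) + 62.2 n ^ (23/40) + 2` bounds the error for every `ν ≥ 1`.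
-/

set_option autoImplicit false
open Finset

namespace Pool.Agent.Helper19.LPF

theorem selApp_log_ge (n : ℕ) (hn : 10 ^ 28 ≤ n) : (64.4 : ℝ) ≤ Real.log n := by
  have h1 : ((2 : ℝ) ^ 93) ≤ (n : ℝ) := by
    have h : 2 ^ 93 ≤ n := le_trans (by norm_num) hn
    exact_mod_cast h
  have h2 : Real.log ((2 : ℝ) ^ 93) ≤ Real.log n := Real.log_le_log (by positivity) h1
  rw [Real.log_pow] at h2
  have h3 := Real.log_two_gt_d9
  norm_num at h2 ⊢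
  linarith

/-- `1000 n ^ (1/6) ≤ n` -/
theorem selApp_sixth (n : ℕ) (hn : 10 ^ 28 ≤ n) :
    1000 * (n : ℝ) ^ (1 / 6 : ℝ) ≤ (n : ℝ) := by
  have hn0 : (0 : ℝ) ≤ n := Nat.cast_nonneg n
  have hn1 : (10 : ℝ) ^ 28 ≤ n := by exact_mod_cast hn
  obtain ⟨y, hy⟩ : ∃ y : ℝ, y = (n : ℝ) ^ (1 / 6 : ℝ) := ⟨_, rfl⟩
  have hy0 : 0 ≤ y := by rw [hy]; positivity
  have hy6 : y ^ 6 = (n : ℝ) := by
    rw [hy, ← Real.rpow_natCast, ← Real.rpow_mul hn0]
    norm_num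
  have hy10 : 10 ≤ y := by
    by_contra hlt
    push Not at hlt
    have h1 : y ^ 6 ≤ 10 ^ 6 := pow_le_pow_left₀ hy0 hlt.le 6
    rw [hy6] at h1
    have h2 : (10 : ℝ) ^ 28 ≤ 10 ^ 6 := hn1.trans h1
    norm_num at h2
  rw [← hy, ← hy6]
  have h5 : (10 : ℝ) ^ 5 ≤ y ^ 5 := pow_le_pow_left₀ (by norm_num) hy10 5
  have h6 : y ^ 6 = y * y ^ 5 := by ring
  rw [h6]
  nlinarith

/-- the condition on `J` -/
theorem selApp_J (n ν : ℕ) (hn : 10 ^ 28 ≤ n) (hν : (ν : ℝ) ≤ (n : ℝ) ^ (1 / 6 : ℝ)) :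
    Z n ≤ 2 ^ (⌊Real.log n / 13.8⌋₊ + 1) * (n - ν) := by
  have hn0 : (0 : ℝ) ≤ n := Nat.cast_nonneg n
  have hn1 : (10 : ℝ) ^ 28 ≤ n := by exact_mod_cast hn
  have hnpos : (0 : ℝ) < n := lt_of_lt_of_le (by positivity) hn1
  have h6 := selApp_sixth n hn
  have hL := selApp_log_ge n hn
  have hνn : (ν : ℝ) ≤ (n : ℝ) := by linarith [Real.rpow_nonneg hn0 (1 / 6 : ℝ)]
  have hνn' : ν ≤ n := by exact_mod_cast hνn
  obtain ⟨J, hJ⟩ : ∃ J : ℕ, J = ⌊Real.log n / 13.8⌋₊ + 1 := ⟨_, rfl⟩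
  rw [← hJ]
  have hJ1 : Real.log n / 13.8 ≤ (J : ℝ) := by
    rw [hJ]
    push_cast
    exact (Nat.lt_floor_add_one _).le
  have hlog2 := Real.log_two_gt_d9
  -- log estimate
  have h999 : -(0.0011 : ℝ) ≤ Real.log 0.999 := by
    have := Real.one_sub_inv_le_log_of_pos (show (0 : ℝ) < 0.999 by norm_num)
    norm_num at this ⊢
    linarith
  have hkey : Real.log n / 20 ≤ (J : ℝ) * Real.log 2 + Real.log 0.999 := by
    have h1 : Real.log n / 13.8 * 0.6931 ≤ (J : ℝ) * Real.log 2 := by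
      apply mul_le_mul hJ1 _ (by norm_num) (Nat.cast_nonneg J)
      norm_num at hlog2 ⊢
      linarith
    have h2 : Real.log n / 20 + 0.0011 ≤ Real.log n / 13.8 * 0.6931 := by
      norm_num at hL ⊢
      linarith
    linarith
  have hexp : (n : ℝ) ^ (1 / 20 : ℝ) ≤ 2 ^ J * 0.999 := by
    rw [← Real.log_le_log_iff (by positivity) (by positivity), Real.log_rpow hnpos,
      Real.log_mul (by positivity) (by norm_num), Real.log_pow]
    linarith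
  have hZ := Z_le n
  have hsplit : (n : ℝ) ^ (21 / 20 : ℝ) = (n : ℝ) ^ (1 / 20 : ℝ) * n := by
    rw [show (21 / 20 : ℝ) = 1 / 20 + 1 by norm_num, Real.rpow_add hnpos, Real.rpow_one]
  have hsub : (0.999 : ℝ) * n ≤ (n : ℝ) - ν := by
    norm_num
    linarith
  have hfin : (Z n : ℝ) ≤ 2 ^ J * ((n : ℝ) - ν) := by
    calc (Z n : ℝ) ≤ (n : ℝ) ^ (1 / 20 : ℝ) * n := by rw [← hsplit]; exact hZ
      _ ≤ (2 ^ J * 0.999) * n := mul_le_mul_of_nonneg_right hexp hn0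
      _ = 2 ^ J * (0.999 * n) := by ring
      _ ≤ 2 ^ J * ((n : ℝ) - ν) := mul_le_mul_of_nonneg_left hsub (by positivity)
  have hcast : ((2 ^ J * (n - ν) : ℕ) : ℝ) = 2 ^ J * ((n : ℝ) - ν) := by
    push_cast [Nat.cast_sub hνn']
    ring
  rw [← hcast] at hfin
  exact_mod_cast hfin

/-- the error for one `ν` -/
theorem selApp_err (n ν : ℕ) (hn : 10 ^ 28 ≤ n) (hν1 : 1 ≤ ν)
    (hν : (ν : ℝ) ≤ (n : ℝ) ^ (1 / 6 : ℝ)) :
    |(cnt n ν : ℝ) - (n.totient : ℝ) * Real.log n / 20 / ν| ≤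
      20.6 * (Real.log n / 13.8 + 1) * ((n : ℝ) ^ 2 + n) ^ (1 / 3 : ℝ)
          + 62.2 * (n : ℝ) ^ (23 / 40 : ℝ) + 2 := by
  have hn0 : (0 : ℝ) ≤ n := Nat.cast_nonneg n
  have h6 := selApp_sixth n hn
  have hL := selApp_log_ge n hn
  have hν2 : 2 * ν ≤ n := by
    have h1 : 2 * (ν : ℝ) ≤ n := by
      have h2 : (0 : ℝ) ≤ (n : ℝ) ^ (1 / 6 : ℝ) := Real.rpow_nonneg hn0 _
      linarith
    exact_mod_cast h1
  have hb := cnt_bound n ν (⌊Real.log n / 13.8⌋₊ + 1) hν1 hν2 (selApp_J n ν hn hν)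
  have hν1' : (1 : ℝ) ≤ ν := by exact_mod_cast hν1
  have hJ : ((⌊Real.log n / 13.8⌋₊ + 1 : ℕ) : ℝ) ≤ Real.log n / 13.8 + 1 := by
    push_cast
    have : (⌊Real.log n / 13.8⌋₊ : ℝ) ≤ Real.log n / 13.8 :=
      Nat.floor_le (by norm_num at hL ⊢; linarith)
    linarith
  have hx : (((n : ℝ) ^ 2 + n) / ν) ^ (1 / 3 : ℝ) ≤ ((n : ℝ) ^ 2 + n) ^ (1 / 3 : ℝ) := by
    apply Real.rpow_le_rpow (by positivity) _ (by norm_num)
    exact div_le_self (by positivity) hν1'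
  have hy : 62.2 * (n : ℝ) ^ (23 / 40 : ℝ) / ν ≤ 62.2 * (n : ℝ) ^ (23 / 40 : ℝ) :=
    div_le_self (by positivity) hν1'
  have heq : (n.totient : ℝ) / ν * (Real.log n / 20) = (n.totient : ℝ) * Real.log n / 20 / ν := by
    field_simp
  rw [heq] at hb
  refine hb.trans ?_
  have h1 : 20.6 * ((⌊Real.log n / 13.8⌋₊ + 1 : ℕ) : ℝ) * (((n : ℝ) ^ 2 + n) / ν) ^ (1 / 3 : ℝ)
      ≤ 20.6 * (Real.log n / 13.8 + 1) * ((n : ℝ) ^ 2 + n) ^ (1 / 3 : ℝ) := by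
    apply mul_le_mul _ hx (Real.rpow_nonneg (by positivity) _) _
    · exact mul_le_mul_of_nonneg_left hJ (by norm_num)
    · have : (0 : ℝ) ≤ Real.log n / 13.8 + 1 := by
        norm_num at hL ⊢
        linarith
      exact mul_nonneg (by norm_num) this
  linarith

open Classical in
theorem selApp_card (n R : ℕ) (hR : R ≤ n) :
    ((SP n).card : ℝ) ≤ ∑ d ∈ (Ioc n (Z n)).filter (fun d => ∀ p : ℕ, p.Prime → p ≤ R → ¬ p ∣ d),
      (((W n).filter (fun m => d ∣ m)).card : ℝ) := by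
  have hsub : SP n ⊆ (Ioc n (Z n)).filter (fun d => ∀ p : ℕ, p.Prime → p ≤ R → ¬ p ∣ d) := by
    intro p hp
    unfold SP at hp
    rw [mem_filter] at hp
    rw [mem_filter]
    refine ⟨hp.1, ?_⟩
    intro q hq hqR hqp
    have h1 : q = p := (Nat.prime_dvd_prime_iff_eq hq hp.2.1).mp hqp
    have h2 := (mem_Ioc.mp hp.1).1
    omega
  calc ((SP n).card : ℝ) = ∑ p ∈ SP n, (1 : ℝ) := by simp
    _ ≤ ∑ p ∈ SP n, (((W n).filter (fun m => p ∣ m)).card : ℝ) := by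
        apply sum_le_sum
        intro p hp
        unfold SP at hp
        rw [mem_filter] at hp
        obtain ⟨m, hm, hpm⟩ := hp.2.2
        have : 0 < ((W n).filter (fun m => p ∣ m)).card :=
          card_pos.mpr ⟨m, mem_filter.mpr ⟨hm, hpm⟩⟩
        exact_mod_cast this
    _ ≤ _ := sum_le_sum_of_subset_of_nonneg hsub (fun _ _ _ => Nat.cast_nonneg _)

theorem sel_app (n : ℕ) (hn : 10 ^ 28 ≤ n) :
    S n ≤ 21 / 20 * Real.log n *
      (3 / 5 * n.totient + (n : ℝ) ^ (1 / 6 : ℝ) *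
        (20.6 * (Real.log n / 13.8 + 1) * ((n : ℝ) ^ 2 + n) ^ (1 / 3 : ℝ)
          + 62.2 * (n : ℝ) ^ (23 / 40 : ℝ) + 2)) := by
  classical
  have hn0 : (0 : ℝ) ≤ n := Nat.cast_nonneg n
  have hn1 : (10 : ℝ) ^ 28 ≤ n := by exact_mod_cast hn
  have hnpos : (0 : ℝ) < n := lt_of_lt_of_le (by positivity) hn1
  have hn1' : (1 : ℝ) ≤ n := le_trans (by norm_num) hn1
  have hn1N : 1 ≤ n := by exact_mod_cast hn1'
  have hL := selApp_log_ge n hn
  have hL0 : 0 < Real.log n := by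
    norm_num at hL ⊢
    linarith
  have h6 := selApp_sixth n hn
  obtain ⟨E, hE⟩ : ∃ E : ℝ, E = 20.6 * (Real.log n / 13.8 + 1) * ((n : ℝ) ^ 2 + n) ^ (1 / 3 : ℝ)
          + 62.2 * (n : ℝ) ^ (23 / 40 : ℝ) + 2 := ⟨_, rfl⟩
  rw [← hE]
  have hE0 : 0 ≤ E := by
    rw [hE]
    have : (0 : ℝ) ≤ Real.log n / 13.8 + 1 := by
      norm_num at hL ⊢
      linarith
    positivity
  -- the level
  obtain ⟨R, hR⟩ : ∃ R : ℕ, R = ⌊(n : ℝ) ^ (1 / 12 : ℝ)⌋₊ := ⟨_, rfl⟩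
  have hRle : (R : ℝ) ≤ (n : ℝ) ^ (1 / 12 : ℝ) := by
    rw [hR]; exact Nat.floor_le (by positivity)
  have hRlt : (n : ℝ) ^ (1 / 12 : ℝ) < (R : ℝ) + 1 := by
    rw [hR]; exact Nat.lt_floor_add_one _
  have hR1 : 1 ≤ R := by
    rw [hR, Nat.one_le_floor_iff]
    exact Real.one_le_rpow hn1' (by norm_num)
  have hRsq : (R : ℝ) ^ 2 ≤ (n : ℝ) ^ (1 / 6 : ℝ) := by
    have h1 : (R : ℝ) ^ 2 ≤ ((n : ℝ) ^ (1 / 12 : ℝ)) ^ 2 :=
      pow_le_pow_left₀ (Nat.cast_nonneg R) hRle 2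
    have h2 : ((n : ℝ) ^ (1 / 12 : ℝ)) ^ 2 = (n : ℝ) ^ (1 / 6 : ℝ) := by
      rw [← Real.rpow_natCast, ← Real.rpow_mul hn0]
      norm_num
    rw [h2] at h1
    exact h1
  have hRn : R ≤ n := by
    have h1 : (R : ℝ) ≤ n := by
      have h2 : (n : ℝ) ^ (1 / 12 : ℝ) ≤ (n : ℝ) ^ (1 : ℝ) :=
        Real.rpow_le_rpow_of_exponent_le hn1' (by norm_num)
      rw [Real.rpow_one] at h2
      exact hRle.trans h2
    exact_mod_cast h1
  have hlogR : Real.log n / 12 ≤ Real.log ((R : ℝ) + 1) := by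
    have h1 : Real.log ((n : ℝ) ^ (1 / 12 : ℝ)) ≤ Real.log ((R : ℝ) + 1) :=
      Real.log_le_log (by positivity) hRlt.le
    rw [Real.log_rpow hnpos] at h1
    linarith
  -- Selberg
  have hsel := selberg (Ioc n (Z n)) (fun d => (((W n).filter (fun m => d ∣ m)).card : ℝ))
    ((n.totient : ℝ) * Real.log n / 20) E R (fun d => Nat.cast_nonneg _) (by positivity) hR1
    (by
      intro ν hν1 hν2
      have hν : (ν : ℝ) ≤ (n : ℝ) ^ (1 / 6 : ℝ) := by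
        have : (ν : ℝ) ≤ (R : ℝ) ^ 2 := by exact_mod_cast hν2
        exact this.trans hRsq
      have h := selApp_err n ν hn hν1 hν
      rw [← hE] at h
      have hc : (cnt n ν : ℝ) = ∑ d ∈ (Ioc n (Z n)).filter (fun d => ν ∣ d),
          (((W n).filter (fun m => d ∣ m)).card : ℝ) := by
        unfold cnt
        push_cast
        rfl
      rw [hc] at h
      exact h)
  have hcard := selApp_card n R hRn
  have hmain : (n.totient : ℝ) * Real.log n / 20 / Real.log ((R : ℝ) + 1) ≤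
      3 / 5 * n.totient := by
    have hlogpos : 0 < Real.log ((R : ℝ) + 1) := lt_of_lt_of_le (by positivity) hlogR
    rw [div_le_iff₀ hlogpos]
    have h0 : (0 : ℝ) ≤ n.totient := Nat.cast_nonneg _
    have h1 : (3 / 5 * (n.totient : ℝ)) * (Real.log n / 12) ≤
        (3 / 5 * (n.totient : ℝ)) * Real.log ((R : ℝ) + 1) :=
      mul_le_mul_of_nonneg_left hlogR (by positivity)
    linarith
  have herr : (R : ℝ) ^ 2 * E ≤ (n : ℝ) ^ (1 / 6 : ℝ) * E :=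
    mul_le_mul_of_nonneg_right hRsq hE0
  have hcard2 : ((SP n).card : ℝ) ≤ 3 / 5 * n.totient + (n : ℝ) ^ (1 / 6 : ℝ) * E := by
    have h1 := hcard.trans hsel
    linarith
  -- the sum of logarithms
  have hS : S n ≤ (SP n).card * (21 / 20 * Real.log n) := by
    unfold S
    have h1 : ∀ p ∈ SP n, Real.log (p : ℝ) ≤ 21 / 20 * Real.log n := by
      intro p hp
      unfold SP at hp
      rw [mem_filter, mem_Ioc] at hp
      have hp0 : (0 : ℝ) < p := by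
        have : 0 < p := by omega
        exact_mod_cast this
      have hpZ : (p : ℝ) ≤ Z n := by exact_mod_cast hp.1.2
      exact (Real.log_le_log hp0 hpZ).trans (log_Z_le hn1N)
    calc ∑ p ∈ SP n, Real.log (p : ℝ) ≤ ∑ p ∈ SP n, 21 / 20 * Real.log n := sum_le_sum h1
      _ = (SP n).card * (21 / 20 * Real.log n) := by
          rw [sum_const, nsmul_eq_mul]
  calc S n ≤ (SP n).card * (21 / 20 * Real.log n) := hS
    _ ≤ (3 / 5 * n.totient + (n : ℝ) ^ (1 / 6 : ℝ) * E) * (21 / 20 * Real.log n) :=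
        mul_le_mul_of_nonneg_right hcard2 (by positivity)
    _ = _ := by ring

end Pool.Agent.Helper19.LPF
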