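import Pool.Agent.Helper19.LPF.ZBasic

/-!
# LPF-18: `1 ≤ n < 5000`, by computation in the kernel

For `6 ≤ n < 5000`: if `p ≠ p'` are primes with `p ^ 20, p' ^ 20 > n ^ 21` then
`(p p') ^ 20 > n ^ 42 ≥ (n ^ 2 + n) ^ 20` (for `n ≥ 6`), so they cannot divide the same `m ∈ W n`. Hence
`card (good n) ≥ #{p prime : n ^ 21 < p ^ 20, p has a multiple in W n}`, and `p` has a multiple in `W n` iff
`n ^ 2 / p < (n ^ 2 + φ(n)) / p` (natural division). The primes between 7 and 13757 are stored in blocks of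
eight; for every `n` a kernel computation adds up `(n ^ 2 + φ(n)) / p - n ^ 2 / p` over consecutive blocks.
For `n < 6` direct.
-/

set_option autoImplicit false
set_option maxRecDepth 100000
open Finset

namespace Pool.Agent.Helper19.LPF

/-- lists of blocks of eight numbers -/
inductive ZoneKT where
  | nil : ZoneKT
  | c (p0 p1 p2 p3 p4 p5 p6 p7 : ℕ) (t : ZoneKT) : ZoneKT

/-- the list of all entries -/
def zoneK_list : ZoneKT → List ℕ
  | .nil => []
  | .c p0 p1 p2 p3 p4 p5 p6 p7 t => p0 :: p1 :: p2 :: p3 :: p4 :: p5 :: p6 :: p7 :: zoneK_list t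

/-- count the multiples, blockwise, until `need` is used up -/
noncomputable def zoneK_go (a b : ℕ) (l : ZoneKT) : ℕ → Bool :=
  ZoneKT.rec (motive := fun _ => ℕ → Bool) (fun need => Nat.beq need 0)
    (fun p0 p1 p2 p3 p4 p5 p6 p7 _ ih need => cond (Nat.beq need 0) true (ih (Nat.sub need
      (Nat.add (Nat.add (Nat.add (Nat.add (Nat.add (Nat.add (Nat.add (Nat.sub (Nat.div b p0) (Nat.div a p0)) (Nat.sub (Nat.div b p1) (Nat.div a p1))) (Nat.sub (Nat.div b p2) (Nat.div a p2))) (Nat.sub (Nat.div b p3) (Nat.div a p3))) (Nat.sub (Nat.div b p4) (Nat.div a p4))) (Nat.sub (Nat.div b p5) (Nat.div a p5))) (Nat.sub (Nat.div b p6) (Nat.div a p6))) (Nat.sub (Nat.div b p7) (Nat.div a p7)))))) l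

/-- the primes below 71 -/
def zoneK_sp : List ℕ := [2, 3, 5, 7, 11, 13, 17, 19, 23, 29, 31, 37, 41, 43, 47, 53, 59, 61, 67]

/-- the primes below 127 -/
def zoneK_sp2 : List ℕ := [2, 3, 5, 7, 11, 13, 17, 19, 23, 29, 31, 37, 41, 43, 47, 53, 59, 61, 67, 71, 73, 79, 83,
  89, 97, 101, 103, 107, 109, 113]

/-- Euler's function for small arguments, with fuel -/
def zoneK_phi : ℕ → List ℕ → ℕ → ℕ
  | 0, _, _ => 0
  | _ + 1, [], n => cond (Nat.beq n 1) 1 (Nat.sub n 1)
  | k + 1, p :: ps, n =>
    cond (Nat.beq (Nat.mod n p) 0)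
      (cond (Nat.beq (Nat.mod (Nat.div n p) p) 0) (Nat.mul p (zoneK_phi k (p :: ps) (Nat.div n p)))
        (Nat.mul (Nat.sub p 1) (zoneK_phi k ps (Nat.div n p))))
      (zoneK_phi k ps n)

/-- skip the blocks whose first entry is too small -/
noncomputable def zoneK_adv (z : ℕ) (l : ZoneKT) (f : ZoneKT → Bool) : Bool :=
  ZoneKT.rec (motive := fun _ => Bool) false
    (fun p0 p1 p2 p3 p4 p5 p6 p7 t ih => cond (Nat.ble (Nat.pow p0 20) z) ih (f (.c p0 p1 p2 p3 p4 p5 p6 p7 t))) l

/-- the test for one `n` -/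
noncomputable def zoneK_one (l : ZoneKT) (n : ℕ) : Bool :=
  cond (Nat.beq (zoneK_phi 40 zoneK_sp n) 0) false
    (zoneK_adv (Nat.pow n 21) l (fun l' => zoneK_go (Nat.pow n 2) (Nat.add (Nat.pow n 2) (zoneK_phi 40 zoneK_sp n)) l'
      (Nat.div (Nat.add (zoneK_phi 40 zoneK_sp n) 19) 20)))

/-- the test for an interval -/
def zoneK_all (f : ℕ → Bool) (k : ℕ) : ℕ → Bool :=
  Nat.rec (motive := fun _ => ℕ → Bool) (fun _ => true) (fun _ ih a => cond (f a) (ih (Nat.succ a)) false) k

/-- drop one block -/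
noncomputable def zoneK_tail (t : ZoneKT) : ZoneKT :=
  ZoneKT.rec (motive := fun _ => ZoneKT) .nil (fun _ _ _ _ _ _ _ _ t' _ => t') t

/-- drop several blocks -/
noncomputable def zoneK_drop (k : ℕ) (t : ZoneKT) : ZoneKT :=
  Nat.rec (motive := fun _ => ZoneKT) t (fun _ ih => zoneK_tail ih) k

/-- primality test by trial division -/
def zoneK_isP (q : ℕ) : Bool :=
  zoneK_sp2.all (fun p => !(Nat.beq (Nat.mod q p) 0) || Nat.beq q p) && Nat.blt 1 q && Nat.blt q 16129

/-- increasing list of primes -/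
def zoneK_chk : List ℕ → ℕ → Bool
  | [], _ => true
  | p :: l, prev => Nat.blt prev p && zoneK_isP p && zoneK_chk l p

def zoneK_mas10 : ZoneKT :=
  (.c 13553 13567 13577 13591 13597 13613 13619 13627
  (.c 13633 13649 13669 13679 13681 13687 13691 13693
  (.c 13697 13709 13711 13721 13723 13729 13751 13757
  .nil)))

def zoneK_mas9 : ZoneKT :=
  (.c 12049 12071 12073 12097 12101 12107 12109 12113
  (.c 12119 12143 12149 12157 12161 12163 12197 12203
  (.c 12211 12227 12239 12241 12251 12253 12263 12269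
  (.c 12277 12281 12289 12301 12323 12329 12343 12347
  (.c 12373 12377 12379 12391 12401 12409 12413 12421
  (.c 12433 12437 12451 12457 12473 12479 12487 12491
  (.c 12497 12503 12511 12517 12527 12539 12541 12547
  (.c 12553 12569 12577 12583 12589 12601 12611 12613
  (.c 12619 12637 12641 12647 12653 12659 12671 12689
  (.c 12697 12703 12713 12721 12739 12743 12757 12763
  (.c 12781 12791 12799 12809 12821 12823 12829 12841
  (.c 12853 12889 12893 12899 12907 12911 12917 12919
  (.c 12923 12941 12953 12959 12967 12973 12979 12983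
  (.c 13001 13003 13007 13009 13033 13037 13043 13049
  (.c 13063 13093 13099 13103 13109 13121 13127 13147
  (.c 13151 13159 13163 13171 13177 13183 13187 13217
  (.c 13219 13229 13241 13249 13259 13267 13291 13297
  (.c 13309 13313 13327 13331 13337 13339 13367 13381
  (.c 13397 13399 13411 13417 13421 13441 13451 13457
  (.c 13463 13469 13477 13487 13499 13513 13523 13537
  zoneK_mas10))))))))))))))))))))

def zoneK_mas8 : ZoneKT :=
  (.c 10499 10501 10513 10529 10531 10559 10567 10589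
  (.c 10597 10601 10607 10613 10627 10631 10639 10651
  (.c 10657 10663 10667 10687 10691 10709 10711 10723
  (.c 10729 10733 10739 10753 10771 10781 10789 10799
  (.c 10831 10837 10847 10853 10859 10861 10867 10883
  (.c 10889 10891 10903 10909 10937 10939 10949 10957
  (.c 10973 10979 10987 10993 11003 11027 11047 11057
  (.c 11059 11069 11071 11083 11087 11093 11113 11117
  (.c 11119 11131 11149 11159 11161 11171 11173 11177
  (.c 11197 11213 11239 11243 11251 11257 11261 11273
  (.c 11279 11287 11299 11311 11317 11321 11329 11351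
  (.c 11353 11369 11383 11393 11399 11411 11423 11437
  (.c 11443 11447 11467 11471 11483 11489 11491 11497
  (.c 11503 11519 11527 11549 11551 11579 11587 11593
  (.c 11597 11617 11621 11633 11657 11677 11681 11689
  (.c 11699 11701 11717 11719 11731 11743 11777 11779
  (.c 11783 11789 11801 11807 11813 11821 11827 11831
  (.c 11833 11839 11863 11867 11887 11897 11903 11909
  (.c 11923 11927 11933 11939 11941 11953 11959 11969
  (.c 11971 11981 11987 12007 12011 12037 12041 12043
  zoneK_mas9))))))))))))))))))))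

def zoneK_mas7 : ZoneKT :=
  (.c 9043 9049 9059 9067 9091 9103 9109 9127
  (.c 9133 9137 9151 9157 9161 9173 9181 9187
  (.c 9199 9203 9209 9221 9227 9239 9241 9257
  (.c 9277 9281 9283 9293 9311 9319 9323 9337
  (.c 9341 9343 9349 9371 9377 9391 9397 9403
  (.c 9413 9419 9421 9431 9433 9437 9439 9461
  (.c 9463 9467 9473 9479 9491 9497 9511 9521
  (.c 9533 9539 9547 9551 9587 9601 9613 9619
  (.c 9623 9629 9631 9643 9649 9661 9677 9679
  (.c 9689 9697 9719 9721 9733 9739 9743 9749
  (.c 9767 9769 9781 9787 9791 9803 9811 9817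
  (.c 9829 9833 9839 9851 9857 9859 9871 9883
  (.c 9887 9901 9907 9923 9929 9931 9941 9949
  (.c 9967 9973 10007 10009 10037 10039 10061 10067
  (.c 10069 10079 10091 10093 10099 10103 10111 10133
  (.c 10139 10141 10151 10159 10163 10169 10177 10181
  (.c 10193 10211 10223 10243 10247 10253 10259 10267
  (.c 10271 10273 10289 10301 10303 10313 10321 10331
  (.c 10333 10337 10343 10357 10369 10391 10399 10427
  (.c 10429 10433 10453 10457 10459 10463 10477 10487
  zoneK_mas8))))))))))))))))))))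

def zoneK_mas6 : ZoneKT :=
  (.c 7589 7591 7603 7607 7621 7639 7643 7649
  (.c 7669 7673 7681 7687 7691 7699 7703 7717
  (.c 7723 7727 7741 7753 7757 7759 7789 7793
  (.c 7817 7823 7829 7841 7853 7867 7873 7877
  (.c 7879 7883 7901 7907 7919 7927 7933 7937
  (.c 7949 7951 7963 7993 8009 8011 8017 8039
  (.c 8053 8059 8069 8081 8087 8089 8093 8101
  (.c 8111 8117 8123 8147 8161 8167 8171 8179
  (.c 8191 8209 8219 8221 8231 8233 8237 8243
  (.c 8263 8269 8273 8287 8291 8293 8297 8311
  (.c 8317 8329 8353 8363 8369 8377 8387 8389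
  (.c 8419 8423 8429 8431 8443 8447 8461 8467
  (.c 8501 8513 8521 8527 8537 8539 8543 8563
  (.c 8573 8581 8597 8599 8609 8623 8627 8629
  (.c 8641 8647 8663 8669 8677 8681 8689 8693
  (.c 8699 8707 8713 8719 8731 8737 8741 8747
  (.c 8753 8761 8779 8783 8803 8807 8819 8821
  (.c 8831 8837 8839 8849 8861 8863 8867 8887
  (.c 8893 8923 8929 8933 8941 8951 8963 8969
  (.c 8971 8999 9001 9007 9011 9013 9029 9041
  zoneK_mas7))))))))))))))))))))

def zoneK_mas5 : ZoneKT :=
  (.c 6173 6197 6199 6203 6211 6217 6221 6229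
  (.c 6247 6257 6263 6269 6271 6277 6287 6299
  (.c 6301 6311 6317 6323 6329 6337 6343 6353
  (.c 6359 6361 6367 6373 6379 6389 6397 6421
  (.c 6427 6449 6451 6469 6473 6481 6491 6521
  (.c 6529 6547 6551 6553 6563 6569 6571 6577
  (.c 6581 6599 6607 6619 6637 6653 6659 6661
  (.c 6673 6679 6689 6691 6701 6703 6709 6719
  (.c 6733 6737 6761 6763 6779 6781 6791 6793
  (.c 6803 6823 6827 6829 6833 6841 6857 6863
  (.c 6869 6871 6883 6899 6907 6911 6917 6947
  (.c 6949 6959 6961 6967 6971 6977 6983 6991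
  (.c 6997 7001 7013 7019 7027 7039 7043 7057
  (.c 7069 7079 7103 7109 7121 7127 7129 7151
  (.c 7159 7177 7187 7193 7207 7211 7213 7219
  (.c 7229 7237 7243 7247 7253 7283 7297 7307
  (.c 7309 7321 7331 7333 7349 7351 7369 7393
  (.c 7411 7417 7433 7451 7457 7459 7477 7481
  (.c 7487 7489 7499 7507 7517 7523 7529 7537
  (.c 7541 7547 7549 7559 7561 7573 7577 7583
  zoneK_mas6))))))))))))))))))))

def zoneK_mas4 : ZoneKT :=
  (.c 4789 4793 4799 4801 4813 4817 4831 4861
  (.c 4871 4877 4889 4903 4909 4919 4931 4933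
  (.c 4937 4943 4951 4957 4967 4969 4973 4987
  (.c 4993 4999 5003 5009 5011 5021 5023 5039
  (.c 5051 5059 5077 5081 5087 5099 5101 5107
  (.c 5113 5119 5147 5153 5167 5171 5179 5189
  (.c 5197 5209 5227 5231 5233 5237 5261 5273
  (.c 5279 5281 5297 5303 5309 5323 5333 5347
  (.c 5351 5381 5387 5393 5399 5407 5413 5417
  (.c 5419 5431 5437 5441 5443 5449 5471 5477
  (.c 5479 5483 5501 5503 5507 5519 5521 5527
  (.c 5531 5557 5563 5569 5573 5581 5591 5623
  (.c 5639 5641 5647 5651 5653 5657 5659 5669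
  (.c 5683 5689 5693 5701 5711 5717 5737 5741
  (.c 5743 5749 5779 5783 5791 5801 5807 5813
  (.c 5821 5827 5839 5843 5849 5851 5857 5861
  (.c 5867 5869 5879 5881 5897 5903 5923 5927
  (.c 5939 5953 5981 5987 6007 6011 6029 6037
  (.c 6043 6047 6053 6067 6073 6079 6089 6091
  (.c 6101 6113 6121 6131 6133 6143 6151 6163
  zoneK_mas5))))))))))))))))))))

def zoneK_mas3 : ZoneKT :=
  (.c 3461 3463 3467 3469 3491 3499 3511 3517
  (.c 3527 3529 3533 3539 3541 3547 3557 3559
  (.c 3571 3581 3583 3593 3607 3613 3617 3623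
  (.c 3631 3637 3643 3659 3671 3673 3677 3691
  (.c 3697 3701 3709 3719 3727 3733 3739 3761
  (.c 3767 3769 3779 3793 3797 3803 3821 3823
  (.c 3833 3847 3851 3853 3863 3877 3881 3889
  (.c 3907 3911 3917 3919 3923 3929 3931 3943
  (.c 3947 3967 3989 4001 4003 4007 4013 4019
  (.c 4021 4027 4049 4051 4057 4073 4079 4091
  (.c 4093 4099 4111 4127 4129 4133 4139 4153
  (.c 4157 4159 4177 4201 4211 4217 4219 4229
  (.c 4231 4241 4243 4253 4259 4261 4271 4273
  (.c 4283 4289 4297 4327 4337 4339 4349 4357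
  (.c 4363 4373 4391 4397 4409 4421 4423 4441
  (.c 4447 4451 4457 4463 4481 4483 4493 4507
  (.c 4513 4517 4519 4523 4547 4549 4561 4567
  (.c 4583 4591 4597 4603 4621 4637 4639 4643
  (.c 4649 4651 4657 4663 4673 4679 4691 4703
  (.c 4721 4723 4729 4733 4751 4759 4783 4787
  zoneK_mas4))))))))))))))))))))

def zoneK_mas2 : ZoneKT :=
  (.c 2143 2153 2161 2179 2203 2207 2213 2221
  (.c 2237 2239 2243 2251 2267 2269 2273 2281
  (.c 2287 2293 2297 2309 2311 2333 2339 2341
  (.c 2347 2351 2357 2371 2377 2381 2383 2389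
  (.c 2393 2399 2411 2417 2423 2437 2441 2447
  (.c 2459 2467 2473 2477 2503 2521 2531 2539
  (.c 2543 2549 2551 2557 2579 2591 2593 2609
  (.c 2617 2621 2633 2647 2657 2659 2663 2671
  (.c 2677 2683 2687 2689 2693 2699 2707 2711
  (.c 2713 2719 2729 2731 2741 2749 2753 2767
  (.c 2777 2789 2791 2797 2801 2803 2819 2833
  (.c 2837 2843 2851 2857 2861 2879 2887 2897
  (.c 2903 2909 2917 2927 2939 2953 2957 2963
  (.c 2969 2971 2999 3001 3011 3019 3023 3037
  (.c 3041 3049 3061 3067 3079 3083 3089 3109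
  (.c 3119 3121 3137 3163 3167 3169 3181 3187
  (.c 3191 3203 3209 3217 3221 3229 3251 3253
  (.c 3257 3259 3271 3299 3301 3307 3313 3319
  (.c 3323 3329 3331 3343 3347 3359 3361 3371
  (.c 3373 3389 3391 3407 3413 3433 3449 3457
  zoneK_mas3))))))))))))))))))))

def zoneK_mas1 : ZoneKT :=
  (.c 971 977 983 991 997 1009 1013 1019
  (.c 1021 1031 1033 1039 1049 1051 1061 1063
  (.c 1069 1087 1091 1093 1097 1103 1109 1117
  (.c 1123 1129 1151 1153 1163 1171 1181 1187
  (.c 1193 1201 1213 1217 1223 1229 1231 1237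
  (.c 1249 1259 1277 1279 1283 1289 1291 1297
  (.c 1301 1303 1307 1319 1321 1327 1361 1367
  (.c 1373 1381 1399 1409 1423 1427 1429 1433
  (.c 1439 1447 1451 1453 1459 1471 1481 1483
  (.c 1487 1489 1493 1499 1511 1523 1531 1543
  (.c 1549 1553 1559 1567 1571 1579 1583 1597
  (.c 1601 1607 1609 1613 1619 1621 1627 1637
  (.c 1657 1663 1667 1669 1693 1697 1699 1709
  (.c 1721 1723 1733 1741 1747 1753 1759 1777
  (.c 1783 1787 1789 1801 1811 1823 1831 1847
  (.c 1861 1867 1871 1873 1877 1879 1889 1901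
  (.c 1907 1913 1931 1933 1949 1951 1973 1979
  (.c 1987 1993 1997 1999 2003 2011 2017 2027
  (.c 2029 2039 2053 2063 2069 2081 2083 2087
  (.c 2089 2099 2111 2113 2129 2131 2137 2141
  zoneK_mas2))))))))))))))))))))

def zoneK_mas0 : ZoneKT :=
  (.c 7 11 13 17 19 23 29 31
  (.c 37 41 43 47 53 59 61 67
  (.c 71 73 79 83 89 97 101 103
  (.c 107 109 113 127 131 137 139 149
  (.c 151 157 163 167 173 179 181 191
  (.c 193 197 199 211 223 227 229 233
  (.c 239 241 251 257 263 269 271 277
  (.c 281 283 293 307 311 313 317 331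
  (.c 337 347 349 353 359 367 373 379
  (.c 383 389 397 401 409 419 421 431
  (.c 433 439 443 449 457 461 463 467
  (.c 479 487 491 499 503 509 521 523
  (.c 541 547 557 563 569 571 577 587
  (.c 593 599 601 607 613 617 619 631
  (.c 641 643 647 653 659 661 673 677
  (.c 683 691 701 709 719 727 733 739
  (.c 743 751 757 761 769 773 787 797
  (.c 809 811 821 823 827 829 839 853
  (.c 857 859 863 877 881 883 887 907
  (.c 911 919 929 937 941 947 953 967
  zoneK_mas1))))))))))))))))))))


theorem zoneK_chk_mas : zoneK_chk (zoneK_list zoneK_mas0) 0 = true := by decide +kernel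

theorem zoneK_al0 : zoneK_all (zoneK_one (zoneK_drop 0 zoneK_mas0)) 244 6 = true := by decide +kernel

theorem zoneK_al1 : zoneK_all (zoneK_one (zoneK_drop 7 zoneK_mas0)) 250 250 = true := by decide +kernel

theorem zoneK_al2 : zoneK_all (zoneK_one (zoneK_drop 14 zoneK_mas0)) 250 500 = true := by decide +kernel

theorem zoneK_al3 : zoneK_all (zoneK_one (zoneK_drop 21 zoneK_mas0)) 250 750 = true := by decide +kernel

theorem zoneK_al4 : zoneK_all (zoneK_one (zoneK_drop 27 zoneK_mas0)) 250 1000 = true := by decide +kernel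

theorem zoneK_al5 : zoneK_all (zoneK_one (zoneK_drop 34 zoneK_mas0)) 250 1250 = true := by decide +kernel

theorem zoneK_al6 : zoneK_all (zoneK_one (zoneK_drop 40 zoneK_mas0)) 250 1500 = true := by decide +kernel

theorem zoneK_al7 : zoneK_all (zoneK_one (zoneK_drop 45 zoneK_mas0)) 250 1750 = true := by decide +kernel

theorem zoneK_al8 : zoneK_all (zoneK_one (zoneK_drop 52 zoneK_mas0)) 250 2000 = true := by decide +kernel

theorem zoneK_al9 : zoneK_all (zoneK_one (zoneK_drop 57 zoneK_mas0)) 250 2250 = true := by decide +kernel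

theorem zoneK_al10 : zoneK_all (zoneK_one (zoneK_drop 63 zoneK_mas0)) 250 2500 = true := by decide +kernel

theorem zoneK_al11 : zoneK_all (zoneK_one (zoneK_drop 69 zoneK_mas0)) 250 2750 = true := by decide +kernel

theorem zoneK_al12 : zoneK_all (zoneK_one (zoneK_drop 75 zoneK_mas0)) 250 3000 = true := by decide +kernel

theorem zoneK_al13 : zoneK_all (zoneK_one (zoneK_drop 80 zoneK_mas0)) 250 3250 = true := by decide +kernel

theorem zoneK_al14 : zoneK_all (zoneK_one (zoneK_drop 86 zoneK_mas0)) 250 3500 = true := by decide +kernel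

theorem zoneK_al15 : zoneK_all (zoneK_one (zoneK_drop 92 zoneK_mas0)) 250 3750 = true := by decide +kernel

theorem zoneK_al16 : zoneK_all (zoneK_one (zoneK_drop 98 zoneK_mas0)) 250 4000 = true := by decide +kernel

theorem zoneK_al17 : zoneK_all (zoneK_one (zoneK_drop 104 zoneK_mas0)) 250 4250 = true := by decide +kernel

theorem zoneK_al18 : zoneK_all (zoneK_one (zoneK_drop 109 zoneK_mas0)) 250 4500 = true := by decide +kernel

theorem zoneK_al19 : zoneK_all (zoneK_one (zoneK_drop 115 zoneK_mas0)) 250 4750 = true := by decide +kernel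


/-! ### soundness -/

theorem zoneK_sp2_mem : ∀ p < 127, p.Prime → p ∈ zoneK_sp2 := by decide +kernel

theorem zoneK_sp_mem : ∀ p < 71, p.Prime → p ∈ zoneK_sp := by decide +kernel

theorem zoneK_sp_prime : ∀ p ∈ zoneK_sp, p.Prime := by decide +kernel

theorem zoneK_isP_sound {q : ℕ} (h : zoneK_isP q = true) : q.Prime := by
  unfold zoneK_isP at h
  rw [Bool.and_eq_true, Bool.and_eq_true] at h
  obtain ⟨⟨h1, h2⟩, h3⟩ := h
  have h2' : 1 < q := by
    have : Nat.ble 2 q = true := h2
    exact Nat.le_of_ble_eq_true this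
  have h3' : q < 16129 := by
    have : Nat.ble (q + 1) 16129 = true := h3
    exact Nat.le_of_ble_eq_true this
  by_contra hq
  have hp : q.minFac.Prime := Nat.minFac_prime (by omega)
  have hpp : q.minFac ^ 2 ≤ q := Nat.minFac_sq_le_self (by omega) hq
  have hlt : q.minFac < 127 := by
    by_contra hc
    have : 127 ^ 2 ≤ q.minFac ^ 2 := Nat.pow_le_pow_left (by omega) 2
    omega
  have hm := zoneK_sp2_mem _ hlt hp
  rw [List.all_eq_true] at h1
  have h4 := h1 _ hm
  have h5 : Nat.mod q q.minFac = 0 := Nat.mod_eq_zero_of_dvd (Nat.minFac_dvd q)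
  rw [h5] at h4
  have h6 : Nat.beq q q.minFac = true := by simpa using h4
  have h7 : q = q.minFac := Nat.eq_of_beq_eq_true h6
  exact hq (h7 ▸ hp)

theorem zoneK_chk_sound : ∀ (l : List ℕ) (prev : ℕ), zoneK_chk l prev = true →
    (∀ p ∈ l, prev < p ∧ p.Prime) ∧ l.Pairwise (· < ·)
  | [], _, _ => ⟨by simp, List.Pairwise.nil⟩
  | p :: l, prev, h => by
    unfold zoneK_chk at h
    rw [Bool.and_eq_true, Bool.and_eq_true] at h
    obtain ⟨⟨h1, h2⟩, h3⟩ := h
    have h1' : prev < p := by
      have : Nat.ble (prev + 1) p = true := h1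
      exact Nat.le_of_ble_eq_true this
    obtain ⟨h4, h5⟩ := zoneK_chk_sound l p h3
    refine ⟨?_, ?_⟩
    · intro q hq
      rcases List.mem_cons.mp hq with rfl | hq
      · exact ⟨h1', zoneK_isP_sound h2⟩
      · exact ⟨h1'.trans (h4 q hq).1, (h4 q hq).2⟩
    · exact List.pairwise_cons.mpr ⟨fun q hq => (h4 q hq).1, h5⟩

theorem zoneK_go_sound (a b : ℕ) : ∀ (t : ZoneKT) (need : ℕ), zoneK_go a b t need = true →
    need ≤ ((zoneK_list t).map (fun p => b / p - a / p)).sum
  | .nil, need, h => by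
    have : need = 0 := Nat.eq_of_beq_eq_true h
    simp [this]
  | .c p0 p1 p2 p3 p4 p5 p6 p7 t, need, h => by
    by_cases h0 : need = 0
    · simp [h0]
    · have h1 : Nat.beq need 0 = false := by
        cases hb : Nat.beq need 0 with
        | false => rfl
        | true => exact absurd (Nat.eq_of_beq_eq_true hb) h0
      have h2 : cond (Nat.beq need 0) true (zoneK_go a b t (need - ((b / p0 - a / p0) + (b / p1 - a / p1) +
          (b / p2 - a / p2) + (b / p3 - a / p3) + (b / p4 - a / p4) + (b / p5 - a / p5) + (b / p6 - a / p6) +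
          (b / p7 - a / p7)))) = true := h
      rw [h1, cond_false] at h2
      have h3 := zoneK_go_sound a b t _ h2
      simp only [zoneK_list, List.map_cons, List.sum_cons]
      omega

theorem zoneK_adv_sound (z : ℕ) (f : ZoneKT → Bool) : ∀ t : ZoneKT, zoneK_adv z t f = true →
    ∃ t' : ZoneKT, f t' = true ∧ (∃ p l, zoneK_list t' = p :: l ∧ z < p ^ 20) ∧ zoneK_list t' <:+ zoneK_list t
  | .nil, h => by
    exact absurd h Bool.false_ne_true
  | .c p0 p1 p2 p3 p4 p5 p6 p7 t, h => by
    have h1 : cond (Nat.ble (p0 ^ 20) z) (zoneK_adv z t f) (f (.c p0 p1 p2 p3 p4 p5 p6 p7 t)) = true := h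
    cases hb : Nat.ble (p0 ^ 20) z with
    | true =>
      rw [hb, cond_true] at h1
      obtain ⟨t', h2, h3, h4⟩ := zoneK_adv_sound z f t h1
      exact ⟨t', h2, h3, h4.trans ⟨[p0, p1, p2, p3, p4, p5, p6, p7], rfl⟩⟩
    | false =>
      rw [hb, cond_false] at h1
      refine ⟨_, h1, ⟨p0, _, rfl, ?_⟩, List.suffix_refl _⟩
      by_contra hc
      rw [Nat.ble_eq_true_of_le (not_lt.mp hc)] at hb
      exact absurd hb (by decide)

theorem zoneK_tail_sound (t : ZoneKT) : zoneK_list (zoneK_tail t) <:+ zoneK_list t := by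
  cases t with
  | nil => exact List.suffix_refl _
  | c p0 p1 p2 p3 p4 p5 p6 p7 t => exact ⟨[p0, p1, p2, p3, p4, p5, p6, p7], rfl⟩

theorem zoneK_drop_sound (k : ℕ) (t : ZoneKT) : zoneK_list (zoneK_drop k t) <:+ zoneK_list t := by
  induction k with
  | zero => exact List.suffix_refl _
  | succ k ih => exact (zoneK_tail_sound (zoneK_drop k t)).trans ih

theorem zoneK_all_sound (f : ℕ → Bool) : ∀ (k a : ℕ), zoneK_all f k a = true → ∀ n, a ≤ n → n < a + k → f n = true
  | 0, a, _, n, h1, h2 => by omega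
  | k + 1, a, h, n, h1, h2 => by
    have h3 : cond (f a) (zoneK_all f k (a + 1)) false = true := h
    cases hf : f a with
    | false => rw [hf, cond_false] at h3; exact absurd h3 Bool.false_ne_true
    | true =>
      rw [hf, cond_true] at h3
      by_cases hn : n = a
      · rw [hn]; exact hf
      · exact zoneK_all_sound f k (a + 1) h3 n (by omega) (by omega)

theorem zoneK_phi_sound : ∀ (k : ℕ) (l : List ℕ) (n : ℕ), 0 < n → n < 5041 →
    (∀ q, q.Prime → q ∣ n → q < 71 → q ∈ l) → (∀ q ∈ l, q.Prime) →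
    zoneK_phi k l n = 0 ∨ zoneK_phi k l n = n.totient
  | 0, _, _, _, _, _, _ => Or.inl rfl
  | k + 1, [], n, h0, h1, h2, _ => by
    right
    have h3 : zoneK_phi (k + 1) [] n = cond (Nat.beq n 1) 1 (n - 1) := rfl
    rw [h3]
    by_cases hn : n = 1
    · subst hn
      rfl
    · have hb : Nat.beq n 1 = false := by
        cases hb : Nat.beq n 1 with
        | false => rfl
        | true => exact absurd (Nat.eq_of_beq_eq_true hb) hn
      rw [hb, cond_false]
      have hp : n.Prime := by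
        by_contra hc
        have h4 : n.minFac.Prime := Nat.minFac_prime hn
        have h5 : n.minFac ^ 2 ≤ n := Nat.minFac_sq_le_self h0 hc
        have h6 : n.minFac < 71 := by
          by_contra hc2
          have : 71 ^ 2 ≤ n.minFac ^ 2 := Nat.pow_le_pow_left (by omega) 2
          omega
        have h7 := h2 _ h4 (Nat.minFac_dvd n) h6
        simp at h7
      rw [Nat.totient_prime hp]
  | k + 1, p :: ps, n, h0, h1, h2, h3 => by
    have hp : p.Prime := h3 p (by simp)
    have hpp := hp.pos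
    have h4 : zoneK_phi (k + 1) (p :: ps) n = cond (Nat.beq (n % p) 0)
      (cond (Nat.beq (n / p % p) 0) (p * zoneK_phi k (p :: ps) (n / p)) ((p - 1) * zoneK_phi k ps (n / p)))
      (zoneK_phi k ps n) := rfl
    rw [h4]
    by_cases hd : n % p = 0
    · obtain ⟨m, rfl⟩ := Nat.dvd_of_mod_eq_zero hd
      have hm : 0 < m := Nat.pos_of_mul_pos_left h0
      have e1 : p * m / p = m := Nat.mul_div_cancel_left m hpp
      have hmlt : m < 5041 := lt_of_le_of_lt (Nat.le_mul_of_pos_left m hpp) h1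
      rw [hd, e1]
      have hb0 : Nat.beq 0 0 = true := rfl
      rw [hb0, cond_true]
      by_cases hd2 : m % p = 0
      · rw [hd2, hb0, cond_true]
        rcases zoneK_phi_sound k (p :: ps) m hm hmlt
          (fun q hq hqd hql => h2 q hq (hqd.mul_left p) hql) h3 with h5 | h5
        · left; rw [h5, mul_zero]
        · right
          rw [h5, Nat.totient_mul_of_prime_of_dvd hp (Nat.dvd_of_mod_eq_zero hd2)]
      · have hb : Nat.beq (m % p) 0 = false := by
          cases hb : Nat.beq (m % p) 0 with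
          | false => rfl
          | true => exact absurd (Nat.eq_of_beq_eq_true hb) hd2
        rw [hb, cond_false]
        have hnd : ¬ p ∣ m := fun h => hd2 (Nat.mod_eq_zero_of_dvd h)
        rcases zoneK_phi_sound k ps m hm hmlt
          (fun q hq hqd hql => by
            rcases List.mem_cons.mp (h2 q hq (hqd.mul_left p) hql) with rfl | h6
            · exact absurd hqd hnd
            · exact h6) (fun q hq => h3 q (List.mem_cons_of_mem _ hq)) with h5 | h5
        · left; rw [h5, mul_zero]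
        · right
          rw [h5, Nat.totient_mul_of_prime_of_not_dvd hp hnd]
    · have hb : Nat.beq (n % p) 0 = false := by
        cases hb : Nat.beq (n % p) 0 with
        | false => rfl
        | true => exact absurd (Nat.eq_of_beq_eq_true hb) hd
      rw [hb, cond_false]
      refine zoneK_phi_sound k ps n h0 h1 (fun q hq hqd hql => ?_) (fun q hq => h3 q (List.mem_cons_of_mem _ hq))
      rcases List.mem_cons.mp (h2 q hq hqd hql) with rfl | h6
      · exact absurd (Nat.mod_eq_zero_of_dvd hqd) hd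
      · exact h6

theorem zoneK_pow {n : ℕ} (hn : 6 ≤ n) : (n ^ 2 + n) ^ 20 ≤ n ^ 42 := by
  have h1 : n ^ 2 + n = n * (n + 1) := by ring
  have h2 : 6 * (n + 1) ≤ 7 * n := by omega
  have h3 : (6 * (n + 1)) ^ 20 ≤ (7 * n) ^ 20 := Nat.pow_le_pow_left h2 20
  rw [mul_pow, mul_pow] at h3
  have h4 : 7 ^ 20 * n ^ 20 ≤ 6 ^ 22 * n ^ 20 := Nat.mul_le_mul_right _ (by norm_num)
  have h5 : (6 : ℕ) ^ 20 * (n + 1) ^ 20 ≤ 6 ^ 20 * (6 ^ 2 * n ^ 20) := by
    calc (6 : ℕ) ^ 20 * (n + 1) ^ 20 ≤ 7 ^ 20 * n ^ 20 := h3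
      _ ≤ 6 ^ 22 * n ^ 20 := h4
      _ = 6 ^ 20 * (6 ^ 2 * n ^ 20) := by ring
  have h6 : (n + 1) ^ 20 ≤ 6 ^ 2 * n ^ 20 := Nat.le_of_mul_le_mul_left h5 (by norm_num)
  have h7 : (6 : ℕ) ^ 2 * n ^ 20 ≤ n ^ 2 * n ^ 20 := Nat.mul_le_mul_right _ (Nat.pow_le_pow_left hn 2)
  calc (n ^ 2 + n) ^ 20 = n ^ 20 * (n + 1) ^ 20 := by rw [h1, mul_pow]
    _ ≤ n ^ 20 * (n ^ 2 * n ^ 20) := Nat.mul_le_mul_left _ (h6.trans h7)
    _ = n ^ 42 := by ring

theorem zoneK_core {n : ℕ} (hn : 6 ≤ n) (l : List ℕ) (hl : ∀ q ∈ l, q.Prime ∧ n ^ 21 < q ^ 20) (hnd : l.Nodup) :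
    (l.map (fun q => (n ^ 2 + n.totient) / q - n ^ 2 / q)).sum ≤ (good n).card := by
  classical
  have hqn : ∀ q ∈ l, n.totient < q := by
    intro q hq
    have h1 := (lt_pow_iff.mp (hl q hq).2)
    have h2 := n_le_Z n
    have h3 := Nat.totient_le n
    omega
  have h1 : (l.map (fun q => (n ^ 2 + n.totient) / q - n ^ 2 / q)).sum =
      ∑ q ∈ l.toFinset, ((n ^ 2 + n.totient) / q - n ^ 2 / q) := (List.sum_toFinset _ hnd).symm
  rw [h1]
  have h2 : ∑ q ∈ l.toFinset, ((n ^ 2 + n.totient) / q - n ^ 2 / q) ≤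
      ∑ q ∈ l.toFinset, if n ^ 2 / q < (n ^ 2 + n.totient) / q then 1 else 0 := by
    refine Finset.sum_le_sum fun q hq => ?_
    have hq' : q ∈ l := List.mem_toFinset.mp hq
    have h3 := hqn q hq'
    have h4 : (n ^ 2 + n.totient) / q ≤ n ^ 2 / q + 1 := by
      rw [← Nat.add_div_right _ (by omega : 0 < q)]
      exact Nat.div_le_div_right (by omega)
    split_ifs with h5 <;> omega
  refine h2.trans ?_
  rw [← Finset.card_filter]
  refine Finset.card_le_card_of_injOn (fun q => q * ((n ^ 2 + n.totient) / q)) ?_ ?_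
  · intro q hq
    rw [Finset.mem_coe, Finset.mem_filter] at hq
    have hq' : q ∈ l := List.mem_toFinset.mp hq.1
    have hp := hl q hq'
    rw [Finset.mem_coe]
    unfold good W
    rw [Finset.mem_filter, Finset.mem_Ioc]
    refine ⟨⟨?_, Nat.mul_div_le _ _⟩, q, hp.1, Dvd.intro _ rfl, hp.2⟩
    have h5 : n ^ 2 / q + 1 ≤ (n ^ 2 + n.totient) / q := hq.2
    calc n ^ 2 < q * (n ^ 2 / q + 1) := Nat.lt_mul_div_succ _ hp.1.pos
      _ ≤ q * ((n ^ 2 + n.totient) / q) := Nat.mul_le_mul_left _ h5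
  · intro q hq q' hq' heq
    rw [Finset.mem_coe, Finset.mem_filter] at hq hq'
    have hp := hl q (List.mem_toFinset.mp hq.1)
    have hp' := hl q' (List.mem_toFinset.mp hq'.1)
    by_contra hne
    dsimp only at heq
    have hc : Nat.Coprime q q' := (Nat.coprime_primes hp.1 hp'.1).mpr hne
    have hd : q * q' ∣ q * ((n ^ 2 + n.totient) / q) :=
      hc.mul_dvd_of_dvd_of_dvd (Dvd.intro _ rfl) (heq ▸ Dvd.intro _ rfl)
    have hpos : 0 < (n ^ 2 + n.totient) / q := lt_of_le_of_lt (Nat.zero_le _) hq.2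
    have hle : q * q' ≤ q * ((n ^ 2 + n.totient) / q) := Nat.le_of_dvd (Nat.mul_pos hp.1.pos hpos) hd
    have hle2 : q * q' ≤ n ^ 2 + n :=
      hle.trans ((Nat.mul_div_le _ _).trans (Nat.add_le_add_left (Nat.totient_le n) _))
    have h6 : (q * q') ^ 20 ≤ n ^ 42 := (Nat.pow_le_pow_left hle2 20).trans (zoneK_pow hn)
    have h7 : n ^ 21 * n ^ 21 < q ^ 20 * q' ^ 20 := Nat.mul_lt_mul'' hp.2 hp'.2
    rw [mul_pow] at h6
    have h8 : n ^ 21 * n ^ 21 = n ^ 42 := by ring
    omega

theorem zoneK_one_sound {n i : ℕ} (hn : 6 ≤ n) (hn2 : n < 5000) (h : zoneK_one (zoneK_drop i zoneK_mas0) n = true) :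
    n.totient ≤ 20 * (good n).card := by
  have h1 : cond (Nat.beq (zoneK_phi 40 zoneK_sp n) 0) false
    (zoneK_adv (n ^ 21) (zoneK_drop i zoneK_mas0) (fun l' => zoneK_go (n ^ 2) (n ^ 2 + zoneK_phi 40 zoneK_sp n) l'
      ((zoneK_phi 40 zoneK_sp n + 19) / 20))) = true := h
  have hne : zoneK_phi 40 zoneK_sp n ≠ 0 := by
    intro h0
    rw [h0] at h1
    exact absurd h1 Bool.false_ne_true
  have hb : Nat.beq (zoneK_phi 40 zoneK_sp n) 0 = false := by
    cases hb : Nat.beq (zoneK_phi 40 zoneK_sp n) 0 with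
    | false => rfl
    | true => exact absurd (Nat.eq_of_beq_eq_true hb) hne
  rw [hb, cond_false] at h1
  have hphi : zoneK_phi 40 zoneK_sp n = n.totient := by
    rcases zoneK_phi_sound 40 zoneK_sp n (by omega) (by omega)
      (fun q hq _ hql => zoneK_sp_mem q hql hq) zoneK_sp_prime with h2 | h2
    · exact absurd h2 hne
    · exact h2
  rw [hphi] at h1
  obtain ⟨t', h2, ⟨p, l, h3, h4⟩, h5⟩ := zoneK_adv_sound _ _ _ h1
  have h6 := zoneK_go_sound _ _ _ _ h2
  have h7 := zoneK_chk_sound _ _ zoneK_chk_mas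
  have h8 : zoneK_list t' <:+ zoneK_list zoneK_mas0 := h5.trans (zoneK_drop_sound _ _)
  have h9 : (zoneK_list t').Pairwise (· < ·) := h7.2.sublist h8.sublist
  have h10 : (zoneK_list t').Nodup := h9.imp (fun h => h.ne)
  have h11 : ∀ q ∈ zoneK_list t', q.Prime ∧ n ^ 21 < q ^ 20 := by
    intro q hq
    refine ⟨(h7.1 q (h8.sublist.subset hq)).2, ?_⟩
    rw [h3] at hq h9
    rcases List.mem_cons.mp hq with rfl | hq
    · exact h4
    · have := (List.pairwise_cons.mp h9).1 q hq
      exact h4.trans_le (Nat.pow_le_pow_left this.le 20)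
  have h12 := zoneK_core hn _ h11 h10
  have h13 := h6.trans h12
  omega

theorem zoneK_use {i k a : ℕ} (h : zoneK_all (zoneK_one (zoneK_drop i zoneK_mas0)) k a = true) (n : ℕ) (h6 : 6 ≤ n)
    (ha : a ≤ n ∧ n < a + k) (hn : n < 5000) : n.totient ≤ 20 * (good n).card :=
  zoneK_one_sound h6 hn (zoneK_all_sound _ k a h n ha.1 ha.2)

theorem zoneK_small {n p : ℕ} (h1 : n.totient ≤ 20) (hp : p.Prime) (h2 : n ^ 2 < p) (h3 : p ≤ n ^ 2 + n.totient)
    (h4 : n ^ 21 < p ^ 20) : n.totient ≤ 20 * (good n).card := by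
  classical
  have h5 : 0 < (good n).card := by
    rw [Finset.card_pos]
    refine ⟨p, ?_⟩
    unfold good W
    rw [Finset.mem_filter, Finset.mem_Ioc]
    exact ⟨⟨h2, h3⟩, p, hp, dvd_rfl, h4⟩
  omega

theorem zone_K (n : ℕ) (h1 : 1 ≤ n) (h2 : n < 5000) : n.totient ≤ 20 * (good n).card := by
  by_cases h6 : n < 6
  · have t1 : (1 : ℕ).totient = 1 := by decide
    have t2 : (2 : ℕ).totient = 1 := by decide
    have t3 : (3 : ℕ).totient = 2 := by decide
    have t4 : (4 : ℕ).totient = 2 := by decide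
    have t5 : (5 : ℕ).totient = 4 := by decide
    interval_cases n
    · exact zoneK_small (p := 2) (by rw [t1]; norm_num) (by norm_num) (by norm_num) (by rw [t1]; norm_num)
        (by norm_num)
    · exact zoneK_small (p := 5) (by rw [t2]; norm_num) (by norm_num) (by norm_num) (by rw [t2]; norm_num)
        (by norm_num)
    · exact zoneK_small (p := 11) (by rw [t3]; norm_num) (by norm_num) (by norm_num) (by rw [t3]; norm_num)
        (by norm_num)
    · exact zoneK_small (p := 17) (by rw [t4]; norm_num) (by norm_num) (by norm_num) (by rw [t4]; norm_num)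
        (by norm_num)
    · exact zoneK_small (p := 29) (by rw [t5]; norm_num) (by norm_num) (by norm_num) (by rw [t5]; norm_num)
        (by norm_num)
  by_cases h10 : n < 250
  · exact zoneK_use zoneK_al0 n (by omega) (by omega) h2
  by_cases h11 : n < 500
  · exact zoneK_use zoneK_al1 n (by omega) (by omega) h2
  by_cases h12 : n < 750
  · exact zoneK_use zoneK_al2 n (by omega) (by omega) h2
  by_cases h13 : n < 1000
  · exact zoneK_use zoneK_al3 n (by omega) (by omega) h2
  by_cases h14 : n < 1250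
  · exact zoneK_use zoneK_al4 n (by omega) (by omega) h2
  by_cases h15 : n < 1500
  · exact zoneK_use zoneK_al5 n (by omega) (by omega) h2
  by_cases h16 : n < 1750
  · exact zoneK_use zoneK_al6 n (by omega) (by omega) h2
  by_cases h17 : n < 2000
  · exact zoneK_use zoneK_al7 n (by omega) (by omega) h2
  by_cases h18 : n < 2250
  · exact zoneK_use zoneK_al8 n (by omega) (by omega) h2
  by_cases h19 : n < 2500
  · exact zoneK_use zoneK_al9 n (by omega) (by omega) h2
  by_cases h20 : n < 2750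
  · exact zoneK_use zoneK_al10 n (by omega) (by omega) h2
  by_cases h21 : n < 3000
  · exact zoneK_use zoneK_al11 n (by omega) (by omega) h2
  by_cases h22 : n < 3250
  · exact zoneK_use zoneK_al12 n (by omega) (by omega) h2
  by_cases h23 : n < 3500
  · exact zoneK_use zoneK_al13 n (by omega) (by omega) h2
  by_cases h24 : n < 3750
  · exact zoneK_use zoneK_al14 n (by omega) (by omega) h2
  by_cases h25 : n < 4000
  · exact zoneK_use zoneK_al15 n (by omega) (by omega) h2
  by_cases h26 : n < 4250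
  · exact zoneK_use zoneK_al16 n (by omega) (by omega) h2
  by_cases h27 : n < 4500
  · exact zoneK_use zoneK_al17 n (by omega) (by omega) h2
  by_cases h28 : n < 4750
  · exact zoneK_use zoneK_al18 n (by omega) (by omega) h2
  exact zoneK_use zoneK_al19 n (by omega) (by omega) h2

end Pool.Agent.Helper19.LPF
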