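import Pool.Agent.Helper19.LPF.Core
import Pool.Agent.Helper19.LPF.Phi
import Pool.Agent.Helper19.LPF.PhiLarge
import Pool.Agent.Helper19.LPF.Leg
import Pool.Agent.Helper19.LPF.SelApp
import Pool.Agent.Helper19.LPF.NumA
import Pool.Agent.Helper19.LPF.NumB
import Pool.Agent.Helper19.LPF.NumC
import Pool.Agent.Helper19.LPF.ZoneK

/-! # LPF: assembly -/

set_option autoImplicit false
open Finset

namespace Pool.Agent.Helper19.LPF

theorem theta_le (y : ℝ) (hy : 1 ≤ y) : Chebyshev.theta y ≤ 1.04 * y :=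
  (Chebyshev.theta_le_psi y).trans (KB.psi_le_uniform hy)

theorem theta_add_S_le (n : ℕ) (hn : 1 ≤ n) :
    Chebyshev.theta n + S n ≤ 1.04 * (n : ℝ) ^ (21 / 20 : ℝ) := by
  classical
  have h1 : Chebyshev.theta n + S n ≤ Chebyshev.theta (Z n) := by
    unfold Chebyshev.theta S SP
    rw [Nat.floor_natCast, Nat.floor_natCast, ← Finset.sum_union]
    · apply Finset.sum_le_sum_of_subset_of_nonneg
      · intro p hp
        have hZ := n_le_Z n
        simp only [Finset.mem_union, Finset.mem_filter, Finset.mem_Ioc] at hp ⊢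
        rcases hp with hp | hp
        · exact ⟨⟨hp.1.1, hp.1.2.trans hZ⟩, hp.2⟩
        · exact ⟨⟨by omega, hp.1.2⟩, hp.2.1⟩
      · intro p hp _
        simp only [Finset.mem_filter, Finset.mem_Ioc] at hp
        exact Real.log_nonneg (by exact_mod_cast hp.1.1)
    · rw [Finset.disjoint_left]
      intro p hp hp'
      simp only [Finset.mem_filter, Finset.mem_Ioc] at hp hp'
      omega
  have hZ1 : (1 : ℝ) ≤ Z n := by
    have := n_le_Z n
    exact_mod_cast hn.trans this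
  have h2 := theta_le (Z n) hZ1
  have h3 := Z_le n
  linarith

theorem phi_pos_div (n : ℕ) (hn : 1 ≤ n) :
    0 < (n.totient : ℝ) ∧ 1 ≤ (n : ℝ) / n.totient ∧ (n : ℝ) / ((n : ℝ) / n.totient) = n.totient := by
  have h0 : 0 < n.totient := Nat.totient_pos.2 (by omega)
  have h1 : (0 : ℝ) < n.totient := by exact_mod_cast h0
  have h2 : (n.totient : ℝ) ≤ n := by exact_mod_cast Nat.totient_le n
  have h3 : (0 : ℝ) < n := by exact_mod_cast (by omega : 0 < n)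
  refine ⟨h1, (one_le_div h1).2 h2, ?_⟩
  field_simp

theorem zone_A (n : ℕ) (h1 : 5000 ≤ n) (h2 : n ≤ 10 ^ 12) : n.totient ≤ 20 * (good n).card := by
  by_contra hg
  push Not at hg
  have hx1 : (5000 : ℝ) ≤ n := by exact_mod_cast h1
  have hx2 : (n : ℝ) ≤ 10 ^ 12 := by exact_mod_cast h2
  have key : ∀ ρ : ℝ, 1 ≤ ρ → (n : ℝ) ≤ ρ * n.totient →
      (((n : ℝ) ≤ 30030 ∧ ρ = 4.8125) ∨ (30030 ≤ (n : ℝ) ∧ (n : ℝ) ≤ 510510 ∧ ρ = 5.2136) ∨
      (510510 ≤ (n : ℝ) ∧ (n : ℝ) ≤ 9699690 ∧ ρ = 5.5394) ∨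
      (9699690 ≤ (n : ℝ) ∧ (n : ℝ) ≤ 223092870 ∧ ρ = 5.8472) ∨
      (223092870 ≤ (n : ℝ) ∧ (n : ℝ) ≤ 6469693230 ∧ ρ = 6.1130) ∨
      (6469693230 ≤ (n : ℝ) ∧ (n : ℝ) ≤ 200560490130 ∧ ρ = 6.3313) ∨
      (200560490130 ≤ (n : ℝ) ∧ ρ = 6.5423)) → False := by
    intro ρ hρ h3 h4
    have h5 := core n ρ h1 hρ h3 hg
    have h6 := num_A n ρ hx1 hx2 h4
    have h7 := theta_add_S_le n (by omega)
    linarith
  obtain ⟨p1, p2, p3, p4, p5, p6, p7, -, -⟩ := phi_table n (by omega)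
  by_cases c1 : n < 30030
  · exact key 4.8125 (by norm_num) (p1 c1) (Or.inl ⟨by exact_mod_cast c1.le, rfl⟩)
  by_cases c2 : n < 510510
  · exact key 5.2136 (by norm_num) (p2 c2)
      (Or.inr (Or.inl ⟨by exact_mod_cast (not_lt.1 c1), by exact_mod_cast c2.le, rfl⟩))
  by_cases c3 : n < 9699690
  · exact key 5.5394 (by norm_num) (p3 c3)
      (Or.inr (Or.inr (Or.inl ⟨by exact_mod_cast (not_lt.1 c2), by exact_mod_cast c3.le, rfl⟩)))
  by_cases c4 : n < 223092870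
  · exact key 5.8472 (by norm_num) (p4 c4)
      (Or.inr (Or.inr (Or.inr (Or.inl ⟨by exact_mod_cast (not_lt.1 c3), by exact_mod_cast c4.le, rfl⟩))))
  by_cases c5 : n < 6469693230
  · exact key 6.1130 (by norm_num) (p5 c5)
      (Or.inr (Or.inr (Or.inr (Or.inr (Or.inl
        ⟨by exact_mod_cast (not_lt.1 c4), by exact_mod_cast c5.le, rfl⟩)))))
  by_cases c6 : n < 200560490130
  · exact key 6.3313 (by norm_num) (p6 c6)
      (Or.inr (Or.inr (Or.inr (Or.inr (Or.inr (Or.inl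
        ⟨by exact_mod_cast (not_lt.1 c5), by exact_mod_cast c6.le, rfl⟩))))))
  · exact key 6.5423 (by norm_num) (p7 (by omega))
      (Or.inr (Or.inr (Or.inr (Or.inr (Or.inr (Or.inr
        ⟨by exact_mod_cast (not_lt.1 c6), rfl⟩))))))

theorem Z_cond_three (n : ℕ) (h1 : 10 ^ 12 ≤ n) (h2 : n ≤ 10 ^ 18) : Z n ≤ 2 ^ 3 * (n - 210) := by
  by_contra h
  push Not at h
  have h3 := le_Z.1 h.le
  have h4 : 799 * n ≤ 100 * (2 ^ 3 * (n - 210)) := by omega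
  have h5 : (799 * n) ^ 20 ≤ 100 ^ 20 * n ^ 21 := by
    calc (799 * n) ^ 20 ≤ (100 * (2 ^ 3 * (n - 210))) ^ 20 := Nat.pow_le_pow_left h4 20
      _ = 100 ^ 20 * (2 ^ 3 * (n - 210)) ^ 20 := by rw [mul_pow]
      _ ≤ _ := Nat.mul_le_mul_left _ h3
  rw [mul_pow] at h5
  have h6 : 799 ^ 20 * n ^ 20 ≤ (100 ^ 20 * 10 ^ 18) * n ^ 20 := by
    calc 799 ^ 20 * n ^ 20 ≤ 100 ^ 20 * n ^ 21 := h5
      _ = 100 ^ 20 * n * n ^ 20 := by ring
      _ ≤ _ := Nat.mul_le_mul_right _ (Nat.mul_le_mul_left _ h2)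
  have h7 := Nat.le_of_mul_le_mul_right h6 (by positivity)
  norm_num at h7

theorem Z_cond_five (n : ℕ) (h1 : 10 ^ 12 ≤ n) (h2 : n ≤ 10 ^ 28) : Z n ≤ 2 ^ 5 * (n - 210) := by
  by_contra h
  push Not at h
  have h3 := le_Z.1 h.le
  have h4 : 319 * n ≤ 10 * (2 ^ 5 * (n - 210)) := by omega
  have h5 : (319 * n) ^ 20 ≤ 10 ^ 20 * n ^ 21 := by
    calc (319 * n) ^ 20 ≤ (10 * (2 ^ 5 * (n - 210))) ^ 20 := Nat.pow_le_pow_left h4 20
      _ = 10 ^ 20 * (2 ^ 5 * (n - 210)) ^ 20 := by rw [mul_pow]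
      _ ≤ _ := Nat.mul_le_mul_left _ h3
  rw [mul_pow] at h5
  have h6 : 319 ^ 20 * n ^ 20 ≤ (10 ^ 20 * 10 ^ 28) * n ^ 20 := by
    calc 319 ^ 20 * n ^ 20 ≤ 10 ^ 20 * n ^ 21 := h5
      _ = 10 ^ 20 * n * n ^ 20 := by ring
      _ ≤ _ := Nat.mul_le_mul_right _ (Nat.mul_le_mul_left _ h2)
  have h7 := Nat.le_of_mul_le_mul_right h6 (by positivity)
  norm_num at h7

theorem zone_B1 (n : ℕ) (h1 : 10 ^ 12 ≤ n) (h2 : n ≤ 10 ^ 18) : n.totient ≤ 20 * (good n).card := by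
  by_contra hg
  push Not at hg
  have hn1 : 1 ≤ n := le_trans (by norm_num) h1
  obtain ⟨hφ, hρ1, hρ⟩ := phi_pos_div n hn1
  have hx1 : (10 : ℝ) ^ 12 ≤ n := by exact_mod_cast h1
  have hx2 : (n : ℝ) ≤ 10 ^ 18 := by exact_mod_cast h2
  have h3 := core n ((n : ℝ) / n.totient) (le_trans (by norm_num) h1) hρ1
    (le_of_eq (by field_simp)) hg
  have h4 : (n : ℝ) / n.totient ≤ 7.21 := by
    rw [div_le_iff₀ hφ]
    exact (phi_table n hn1).2.2.2.2.2.2.2.1 h2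
  have h5 := num_B1 n ((n : ℝ) / n.totient) hx1 hx2 hρ1 h4
  have h6 := leg n 3 (le_trans (by norm_num) h1) (Z_cond_three n h1 h2)
  have h7 := theta_le n (by exact_mod_cast hn1)
  rw [hρ] at h3 h5
  push_cast at h6
  linarith

theorem zone_B2 (n : ℕ) (h1 : 10 ^ 18 ≤ n) (h2 : n ≤ 10 ^ 28) : n.totient ≤ 20 * (good n).card := by
  by_contra hg
  push Not at hg
  have hn1 : 1 ≤ n := le_trans (by norm_num) h1
  obtain ⟨hφ, hρ1, hρ⟩ := phi_pos_div n hn1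
  have hx1 : (10 : ℝ) ^ 18 ≤ n := by exact_mod_cast h1
  have hx2 : (n : ℝ) ≤ 10 ^ 28 := by exact_mod_cast h2
  have h3 := core n ((n : ℝ) / n.totient) (le_trans (by norm_num) h1) hρ1
    (le_of_eq (by field_simp)) hg
  have h4 : (n : ℝ) / n.totient ≤ 7.83 := by
    rw [div_le_iff₀ hφ]
    exact (phi_table n hn1).2.2.2.2.2.2.2.2 h2
  have h5 := num_B2 n ((n : ℝ) / n.totient) hx1 hx2 hρ1 h4
  have h6 := leg n 5 (le_trans (by norm_num) h1) (Z_cond_five n (le_trans (by norm_num) h1) h2)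
  have h7 := theta_le n (by exact_mod_cast hn1)
  rw [hρ] at h3 h5
  push_cast at h6
  linarith

theorem zone_C (n : ℕ) (h1 : 10 ^ 28 ≤ n) : n.totient ≤ 20 * (good n).card := by
  by_contra hg
  push Not at hg
  have hn1 : 1 ≤ n := le_trans (by norm_num) h1
  obtain ⟨hφ, hρ1, hρ⟩ := phi_pos_div n hn1
  have hx1 : (10 : ℝ) ^ 28 ≤ n := by exact_mod_cast h1
  have h3 := core n ((n : ℝ) / n.totient) (le_trans (by norm_num) h1) hρ1
    (le_of_eq (by field_simp)) hg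
  have h4 : (n : ℝ) / n.totient ≤ 5.2136 * √(1 + Real.log n / 21.2) := by
    rw [div_le_iff₀ hφ]
    exact phi_large n hn1
  have h5 := num_C n ((n : ℝ) / n.totient) hx1 hρ1 h4
  have h6 := sel_app n h1
  have h7 := theta_le n (by exact_mod_cast hn1)
  rw [hρ] at h3 h5
  linarith

theorem main (n : ℕ) (hn : 1 ≤ n) : n.totient ≤ 20 * (good n).card := by
  by_cases c0 : n < 5000
  · exact zone_K n hn c0
  by_cases c1 : n ≤ 10 ^ 12
  · exact zone_A n (not_lt.1 c0) c1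
  by_cases c2 : n ≤ 10 ^ 18
  · exact zone_B1 n (le_of_lt (not_le.1 c1)) c2
  by_cases c3 : n ≤ 10 ^ 28
  · exact zone_B2 n (le_of_lt (not_le.1 c2)) c3
  · exact zone_C n (le_of_lt (not_le.1 c3))

end Pool.Agent.Helper19.LPF
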